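import Pool.Agent.H29.BC.Rep

/-!
# Linear maps given by arrays of natural numbers modulo three
-/

open scoped TensorProduct

universe u

namespace Pool.Agent.H29.BC

open AlphaRep

/-- The sum `f 0 + ... + f (n-1)`, in a form which reduces well. -/
def sm (n : ℕ) (f : ℕ → ℕ) : ℕ := Nat.rec 0 (fun i s => s + f i) n

theorem sm_eq (n : ℕ) (f : ℕ → ℕ) : sm n f = ∑ i : Fin n, f i := by
  induction n with
  | zero => rfl
  | succ n ih =>
    rw [Fin.sum_univ_castSucc]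
    simp only [Fin.val_castSucc, Fin.val_last]
    rw [← ih]
    rfl

/-- The conjunction of `p 0, ..., p (n-1)`, in a form which reduces well. -/
def allb (n : ℕ) (p : ℕ → Bool) : Bool := Nat.rec true (fun i s => p i && s) n

theorem allb_iff (n : ℕ) (p : ℕ → Bool) (h : allb n p = true) : ∀ i < n, p i = true := by
  induction n with
  | zero => intro i hi; omega
  | succ n ih =>
    intro i hi
    have h' : (p n && allb n p) = true := h
    rw [Bool.and_eq_true] at h'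
    rcases Nat.lt_succ_iff_lt_or_eq.1 hi with h1 | h1
    · exact ih h'.2 i h1
    · rw [h1]
      exact h'.1

/-- Congruence modulo three as a Boolean. -/
def eq3 (m n : ℕ) : Bool := Nat.beq (m % 3) (n % 3)

variable {k : Type u} [Field k] [CharP k 3]

theorem cast_of_eq3 {m n : ℕ} (h : eq3 m n = true) : (m : k) = (n : k) := by
  have h' : m % 3 = n % 3 := Nat.eq_of_beq_eq_true h
  exact (CharP.natCast_eq_natCast k 3).2 h'

/-- The standard basis vector. -/
def eb {k : Type u} [Field k] {n : ℕ} (i : Fin n) : Fin n → k := Pi.single i 1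

omit [CharP k 3]

theorem eb_apply {n : ℕ} (i j : Fin n) : (eb i : Fin n → k) j = if j = i then 1 else 0 := by
  rw [eb, Pi.single_apply]

theorem ext_eb {Z : Type*} [AddCommGroup Z] [Module k Z] {n : ℕ} {f g : (Fin n → k) →ₗ[k] Z}
    (h : ∀ i, f (eb i) = g (eb i)) : f = g := by
  refine (Pi.basisFun k (Fin n)).ext fun i => ?_
  rw [Pi.basisFun_apply]
  exact h i

theorem ext_eb₂ {Z : Type*} [AddCommGroup Z] [Module k Z] {n m : ℕ}
    {f g : ((Fin n → k) ⊗[k] (Fin m → k)) →ₗ[k] Z}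
    (h : ∀ i j, f (eb i ⊗ₜ eb j) = g (eb i ⊗ₜ eb j)) : f = g := by
  refine ((Pi.basisFun k (Fin n)).tensorProduct (Pi.basisFun k (Fin m))).ext fun p => ?_
  rw [Module.Basis.tensorProduct_apply, Pi.basisFun_apply, Pi.basisFun_apply]
  exact h p.1 p.2

theorem fun_eq_sum {n : ℕ} (v : Fin n → k) : v = ∑ i, v i • eb i := by
  funext j
  rw [Finset.sum_apply, Finset.sum_eq_single j]
  · simp [eb]
  · intro i _ hi
    simp [eb, hi]
  · simp

theorem lin_fun {Z : Type*} [AddCommGroup Z] [Module k Z] {n : ℕ} (f : (Fin n → k) →ₗ[k] Z)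
    (v : Fin n → k) : f v = ∑ i, v i • f (eb i) := by
  conv_lhs => rw [fun_eq_sum v]
  rw [map_sum]
  exact Finset.sum_congr rfl fun i _ => map_smul _ _ _

/-- The linear map with matrix `A` (rows first). -/
noncomputable def op (k : Type u) [Field k] (n m : ℕ) (A : ℕ → ℕ → ℕ) :
    (Fin n → k) →ₗ[k] (Fin m → k) :=
  (Pi.basisFun k (Fin n)).constr k (fun (i : Fin n) (l : Fin m) => (A l i : k))

theorem op_eb (n m : ℕ) (A : ℕ → ℕ → ℕ) (i : Fin n) :
    op k n m A (eb i) = fun l : Fin m => (A l i : k) := by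
  have h := (Pi.basisFun k (Fin n)).constr_basis k (fun (i : Fin n) (l : Fin m) => (A l i : k)) i
  rw [Pi.basisFun_apply] at h
  exact h

theorem op_apply (n m : ℕ) (A : ℕ → ℕ → ℕ) (v : Fin n → k) (l : Fin m) :
    op k n m A v l = ∑ i : Fin n, (A l i : k) * v i := by
  rw [lin_fun, Finset.sum_apply]
  refine Finset.sum_congr rfl fun i _ => ?_
  rw [op_eb, Pi.smul_apply, smul_eq_mul, mul_comm]

/-- Matrix multiplication. -/
def mulA (m : ℕ) (A B : ℕ → ℕ → ℕ) : ℕ → ℕ → ℕ := fun i j => sm m fun t => A i t * B t j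

/-- Matrix addition. -/
def addA (A B : ℕ → ℕ → ℕ) : ℕ → ℕ → ℕ := fun i j => A i j + B i j

/-- The zero matrix. -/
def zeroA : ℕ → ℕ → ℕ := fun _ _ => 0

/-- The identity matrix. -/
def oneA : ℕ → ℕ → ℕ := fun i j => cond (Nat.beq i j) 1 0

theorem op_comp (n m l : ℕ) (A B : ℕ → ℕ → ℕ) :
    op k m l A ∘ₗ op k n m B = op k n l (mulA m A B) := by
  refine ext_eb fun i => ?_
  funext j
  rw [LinearMap.comp_apply, op_apply, op_eb, op_eb]
  simp only [mulA, sm_eq, Nat.cast_sum, Nat.cast_mul]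

theorem op_add (n m : ℕ) (A B : ℕ → ℕ → ℕ) :
    op k n m A + op k n m B = op k n m (addA A B) := by
  refine ext_eb fun i => ?_
  funext j
  rw [LinearMap.add_apply, Pi.add_apply, op_eb, op_eb, op_eb]
  simp only [addA, Nat.cast_add]

theorem op_zero (n m : ℕ) : op k n m zeroA = 0 := by
  refine ext_eb fun i => ?_
  funext j
  rw [op_eb]
  simp [zeroA]

theorem op_one (n : ℕ) : op k n n oneA = LinearMap.id := by
  refine ext_eb fun i => ?_
  funext j
  rw [op_eb, LinearMap.id_apply, eb_apply]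
  simp only [oneA]
  by_cases h : j = i
  · rw [h, if_pos rfl]
    simp
  · rw [if_neg h]
    have h' : Nat.beq (j : ℕ) (i : ℕ) = false := by
      rcases hb : Nat.beq (j : ℕ) (i : ℕ) with _ | _
      · rfl
      · exact absurd (Fin.ext (Nat.eq_of_beq_eq_true hb)) h
    rw [h']
    simp

/-- Equality of matrices modulo three. -/
def eqA (n m : ℕ) (A B : ℕ → ℕ → ℕ) : Bool := allb m fun i => allb n fun j => eq3 (A i j) (B i j)

theorem op_congr [CharP k 3] {n m : ℕ} {A B : ℕ → ℕ → ℕ} (h : eqA n m A B = true) :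
    op k n m A = op k n m B := by
  refine ext_eb fun i => ?_
  funext j
  rw [op_eb, op_eb]
  exact cast_of_eq3 (allb_iff _ _ (allb_iff _ _ h j j.2) i i.2)

/-- The bilinear map with structure constants `G`. -/
noncomputable def gT (k : Type u) [Field k] (na nb nc : ℕ) (G : ℕ → ℕ → ℕ → ℕ) :
    ((Fin na → k) ⊗[k] (Fin nb → k)) →ₗ[k] (Fin nc → k) :=
  ((Pi.basisFun k (Fin na)).tensorProduct (Pi.basisFun k (Fin nb))).constr k
    (fun (p : Fin na × Fin nb) (l : Fin nc) => (G p.1 p.2 l : k))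

theorem gT_eb (na nb nc : ℕ) (G : ℕ → ℕ → ℕ → ℕ) (i : Fin na) (j : Fin nb) :
    gT k na nb nc G (eb i ⊗ₜ[k] eb j) = fun l : Fin nc => (G i j l : k) := by
  have h := ((Pi.basisFun k (Fin na)).tensorProduct (Pi.basisFun k (Fin nb))).constr_basis k
    (fun (p : Fin na × Fin nb) (l : Fin nc) => (G p.1 p.2 l : k)) (i, j)
  rw [Module.Basis.tensorProduct_apply, Pi.basisFun_apply, Pi.basisFun_apply] at h
  exact h

/-- The map `k^c → k^a ⊗ k^b` with structure constants `F`. -/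
noncomputable def fT (k : Type u) [Field k] (na nb nc : ℕ) (F : ℕ → ℕ → ℕ → ℕ) :
    (Fin nc → k) →ₗ[k] ((Fin na → k) ⊗[k] (Fin nb → k)) :=
  (Pi.basisFun k (Fin nc)).constr k
    (fun l => ∑ i : Fin na, ∑ j : Fin nb, (F i j l : k) • (eb i ⊗ₜ[k] eb j))

theorem fT_eb (na nb nc : ℕ) (F : ℕ → ℕ → ℕ → ℕ) (l : Fin nc) :
    fT k na nb nc F (eb l) =
      ∑ i : Fin na, ∑ j : Fin nb, (F i j l : k) • (eb i ⊗ₜ[k] eb j) := by
  have h := (Pi.basisFun k (Fin nc)).constr_basis k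
    (fun l : Fin nc => ∑ i : Fin na, ∑ j : Fin nb,
      (F i j l : k) • ((eb i : Fin na → k) ⊗ₜ[k] (eb j : Fin nb → k))) l
  rw [Pi.basisFun_apply] at h
  exact h

/-- Precomposition in the first variable. -/
def pre1 (na : ℕ) (A : ℕ → ℕ → ℕ) (G : ℕ → ℕ → ℕ → ℕ) : ℕ → ℕ → ℕ → ℕ :=
  fun i j l => sm na fun t => A t i * G t j l

/-- Precomposition in the second variable. -/
def pre2 (nb : ℕ) (B : ℕ → ℕ → ℕ) (G : ℕ → ℕ → ℕ → ℕ) : ℕ → ℕ → ℕ → ℕ :=
  fun i j l => sm nb fun t => B t j * G i t l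

/-- Postcomposition. -/
def post (nc : ℕ) (C : ℕ → ℕ → ℕ) (G : ℕ → ℕ → ℕ → ℕ) : ℕ → ℕ → ℕ → ℕ :=
  fun i j l => sm nc fun t => C l t * G i j t

/-- Transposed operator. -/
def trA (A : ℕ → ℕ → ℕ) : ℕ → ℕ → ℕ := fun i j => A j i

/-- Sum of arrays. -/
def add3 (G H : ℕ → ℕ → ℕ → ℕ) : ℕ → ℕ → ℕ → ℕ := fun i j l => G i j l + H i j l

/-- Equality of arrays modulo three. -/
def eqT (na nb nc : ℕ) (G H : ℕ → ℕ → ℕ → ℕ) : Bool :=
  allb na fun i => allb nb fun j => allb nc fun l => eq3 (G i j l) (H i j l)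

theorem op_eb' (n m : ℕ) (A : ℕ → ℕ → ℕ) (i : Fin n) :
    op k n m A (eb i) = ∑ t : Fin m, (A t i : k) • (eb t : Fin m → k) := by
  rw [op_eb]
  exact fun_eq_sum _

theorem gT_pre1 (na nb nc n : ℕ) (A : ℕ → ℕ → ℕ) (G : ℕ → ℕ → ℕ → ℕ) :
    gT k na nb nc G ∘ₗ TensorProduct.map (op k n na A) LinearMap.id =
      gT k n nb nc (pre1 na A G) := by
  refine ext_eb₂ fun i j => ?_
  rw [LinearMap.comp_apply, TensorProduct.map_tmul, LinearMap.id_apply, op_eb',
    TensorProduct.sum_tmul, map_sum, gT_eb]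
  funext l
  rw [Finset.sum_apply]
  simp only [← TensorProduct.smul_tmul', map_smul, gT_eb, Pi.smul_apply, smul_eq_mul, pre1, sm_eq,
    Nat.cast_sum, Nat.cast_mul]

theorem gT_pre2 (na nb nc n : ℕ) (A : ℕ → ℕ → ℕ) (G : ℕ → ℕ → ℕ → ℕ) :
    gT k na nb nc G ∘ₗ TensorProduct.map LinearMap.id (op k n nb A) =
      gT k na n nc (pre2 nb A G) := by
  refine ext_eb₂ fun i j => ?_
  rw [LinearMap.comp_apply, TensorProduct.map_tmul, LinearMap.id_apply, op_eb',
    TensorProduct.tmul_sum, map_sum, gT_eb]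
  funext l
  rw [Finset.sum_apply]
  simp only [TensorProduct.tmul_smul, map_smul, gT_eb, Pi.smul_apply, smul_eq_mul, pre2, sm_eq,
    Nat.cast_sum, Nat.cast_mul]

theorem gT_post (na nb nc n : ℕ) (C : ℕ → ℕ → ℕ) (G : ℕ → ℕ → ℕ → ℕ) :
    op k nc n C ∘ₗ gT k na nb nc G = gT k na nb n (post nc C G) := by
  refine ext_eb₂ fun i j => ?_
  rw [LinearMap.comp_apply, gT_eb, gT_eb]
  funext l
  rw [op_apply]
  simp only [post, sm_eq, Nat.cast_sum, Nat.cast_mul]

theorem gT_add (na nb nc : ℕ) (G H : ℕ → ℕ → ℕ → ℕ) :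
    gT k na nb nc G + gT k na nb nc H = gT k na nb nc (add3 G H) := by
  refine ext_eb₂ fun i j => ?_
  rw [LinearMap.add_apply, gT_eb, gT_eb, gT_eb]
  funext l
  simp only [add3, Pi.add_apply, Nat.cast_add]

theorem gT_congr [CharP k 3] {na nb nc : ℕ} {G H : ℕ → ℕ → ℕ → ℕ}
    (h : eqT na nb nc G H = true) : gT k na nb nc G = gT k na nb nc H := by
  refine ext_eb₂ fun i j => ?_
  rw [gT_eb, gT_eb]
  funext l
  exact cast_of_eq3 (allb_iff _ _ (allb_iff _ _ (allb_iff _ _ h i i.2) j j.2) l l.2)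

/-- Equality of vectors of `k^a ⊗ k^b` in coordinates. -/
theorem fT_congr [CharP k 3] {na nb nc : ℕ} {G H : ℕ → ℕ → ℕ → ℕ}
    (h : eqT na nb nc G H = true) : fT k na nb nc G = fT k na nb nc H := by
  refine ext_eb fun l => ?_
  rw [fT_eb, fT_eb]
  refine Finset.sum_congr rfl fun i _ => Finset.sum_congr rfl fun j _ => ?_
  rw [cast_of_eq3 (allb_iff _ _ (allb_iff _ _ (allb_iff _ _ h i i.2) j j.2) l l.2)]

theorem fT_add (na nb nc : ℕ) (G H : ℕ → ℕ → ℕ → ℕ) :
    fT k na nb nc G + fT k na nb nc H = fT k na nb nc (add3 G H) := by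
  refine ext_eb fun l => ?_
  rw [LinearMap.add_apply, fT_eb, fT_eb, fT_eb, ← Finset.sum_add_distrib]
  refine Finset.sum_congr rfl fun i _ => ?_
  rw [← Finset.sum_add_distrib]
  refine Finset.sum_congr rfl fun j _ => ?_
  rw [← add_smul]
  simp only [add3, Nat.cast_add]

theorem fT_pre1 (na nb nc n : ℕ) (A : ℕ → ℕ → ℕ) (F : ℕ → ℕ → ℕ → ℕ) :
    TensorProduct.map (op k na n A) LinearMap.id ∘ₗ fT k na nb nc F =
      fT k n nb nc (pre1 na (trA A) F) := by
  refine ext_eb fun l => ?_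
  rw [LinearMap.comp_apply, fT_eb, fT_eb]
  simp only [map_sum, map_smul, TensorProduct.map_tmul, LinearMap.id_apply, op_eb',
    TensorProduct.sum_tmul, ← TensorProduct.smul_tmul', Finset.smul_sum, smul_smul, pre1, sm_eq,
    Nat.cast_sum, Nat.cast_mul, trA, Finset.sum_smul]
  have h1 : ∀ x : Fin na, (∑ y : Fin nb, ∑ z : Fin n,
      ((F x y l : k) * (A z x : k)) • ((eb z : Fin n → k) ⊗ₜ[k] (eb y : Fin nb → k))) =
      ∑ z : Fin n, ∑ y : Fin nb,
      ((F x y l : k) * (A z x : k)) • ((eb z : Fin n → k) ⊗ₜ[k] (eb y : Fin nb → k)) :=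
    fun x => Finset.sum_comm
  simp only [h1]
  rw [Finset.sum_comm]
  refine Finset.sum_congr rfl fun z _ => ?_
  rw [Finset.sum_comm]
  refine Finset.sum_congr rfl fun y _ => Finset.sum_congr rfl fun x _ => ?_
  rw [mul_comm]

theorem fT_pre2 (na nb nc n : ℕ) (A : ℕ → ℕ → ℕ) (F : ℕ → ℕ → ℕ → ℕ) :
    TensorProduct.map LinearMap.id (op k nb n A) ∘ₗ fT k na nb nc F =
      fT k na n nc (pre2 nb (trA A) F) := by
  refine ext_eb fun l => ?_
  rw [LinearMap.comp_apply, fT_eb, fT_eb]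
  simp only [map_sum, map_smul, TensorProduct.map_tmul, LinearMap.id_apply, op_eb',
    TensorProduct.tmul_sum, TensorProduct.tmul_smul, Finset.smul_sum, smul_smul, pre2, sm_eq,
    Nat.cast_sum, Nat.cast_mul, trA, Finset.sum_smul]
  refine Finset.sum_congr rfl fun x _ => ?_
  rw [Finset.sum_comm]
  refine Finset.sum_congr rfl fun z _ => Finset.sum_congr rfl fun y _ => ?_
  rw [mul_comm]

theorem fT_post (na nb nc n : ℕ) (C : ℕ → ℕ → ℕ) (F : ℕ → ℕ → ℕ → ℕ) :
    fT k na nb nc F ∘ₗ op k n nc C = fT k na nb n (post nc (trA C) F) := by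
  refine ext_eb fun l => ?_
  rw [LinearMap.comp_apply, fT_eb, op_eb', map_sum]
  simp only [map_smul, fT_eb, Finset.smul_sum, smul_smul, post, sm_eq, Nat.cast_sum,
    Nat.cast_mul, trA, Finset.sum_smul]
  rw [Finset.sum_comm]
  refine Finset.sum_congr rfl fun i _ => ?_
  rw [Finset.sum_comm]

/-- Application of `fT` after `gT`. -/
theorem fT_gT_eb (na nb nc : ℕ) (F G : ℕ → ℕ → ℕ → ℕ) (i : Fin na) (j : Fin nb) :
    fT k na nb nc F (gT k na nb nc G (eb i ⊗ₜ[k] eb j)) =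
      ∑ i' : Fin na, ∑ j' : Fin nb, ((sm nc fun l => F i' j' l * G i j l : ℕ) : k) •
        ((eb i' : Fin na → k) ⊗ₜ[k] (eb j' : Fin nb → k)) := by
  rw [gT_eb, lin_fun]
  simp only [fT_eb, Finset.smul_sum, smul_smul, sm_eq, Nat.cast_sum, Nat.cast_mul,
    Finset.sum_smul]
  rw [Finset.sum_comm]
  refine Finset.sum_congr rfl fun i' _ => ?_
  rw [Finset.sum_comm]
  refine Finset.sum_congr rfl fun j' _ => Finset.sum_congr rfl fun l _ => ?_
  rw [mul_comm]

end Pool.Agent.H29.BC
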