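import Pool.Agent.H29.BC.Chart

/-!
# Base systems and reducible charts
-/

open CategoryTheory MonoidalCategory
open scoped TensorProduct

universe u

namespace Pool.Agent.H29.BC

open AlphaRep

variable (k : Type u) [Field k] [CharP k 3] (G : Type) [Group G]

/-- A base system: charts of some representations for which `Φ` induces surjections between
morphisms in both directions, and the trace form is nondegenerate. -/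
structure Base where
  /-- the index type -/
  I : Type
  /-- the representations -/
  ρ : I → FDRep k G
  /-- the charts -/
  S : (a : I) → Chart (ρ a)
  real_hom : ∀ (a b : I) (f : (S a).M ⟶ (S b).M), ∃ φ : ρ a ⟶ ρ b, Chart.Rel (S a) (S b) f φ
  hom_real : ∀ (a b : I) (φ : ρ a ⟶ ρ b), ∃ f : (S a).M ⟶ (S b).M, Chart.Rel (S a) (S b) f φ
  nondeg : ∀ (a b : I) (φ : ρ a ⟶ ρ b), φ ≠ 0 →
    ∃ ψ : ρ b ⟶ ρ a, LinearMap.trace k (ρ a) (flin (φ ≫ ψ)) ≠ 0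

variable {k G}

/-- A chart is `Ok` if the identity of `W` factors, compatibly, through the base charts. -/
def Ok (B : Base k G) {W : FDRep k G} (A : Chart W) : Prop :=
  ∃ (n : Type) (_ : Fintype n) (c : n → B.I) (f : ∀ i, (B.S (c i)).M ⟶ A.M)
    (g : ∀ i, A.M ⟶ (B.S (c i)).M)
    (φ : ∀ i, B.ρ (c i) ⟶ W) (ψ : ∀ i, W ⟶ B.ρ (c i)),
    (∀ i, Chart.Rel (B.S (c i)) A (f i) (φ i)) ∧ (∀ i, Chart.Rel A (B.S (c i)) (g i) (ψ i)) ∧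
    ∑ i, ψ i ≫ φ i = 𝟙 W

namespace Ok

variable {B : Base k G} {W W' : FDRep k G} {A : Chart W} {A' : Chart W'}

/-- Every morphism of representations between `Ok` charts induces a morphism of representations of
`G`. -/
theorem exists_hom (hA : Ok B A) (hA' : Ok B A') (f : A.M ⟶ A'.M) :
    ∃ φ : W ⟶ W', Chart.Rel A A' f φ := by
  obtain ⟨n, _, c, f₁, g₁, φ₁, ψ₁, hf₁, hg₁, hs₁⟩ := hA
  obtain ⟨m, _, d, f₂, g₂, φ₂, ψ₂, hf₂, hg₂, hs₂⟩ := hA'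
  have h1 : ∀ i j, ∃ θ : B.ρ (c i) ⟶ B.ρ (d j),
      Chart.Rel (B.S (c i)) (B.S (d j)) (f₁ i ≫ f ≫ g₂ j) θ := fun i j => B.real_hom _ _ _
  choose θ hθ using h1
  refine ⟨∑ i, ∑ j, ψ₁ i ≫ θ i j ≫ φ₂ j, ?_⟩
  have h2 : Chart.Rel A A' (∑ i, ∑ j, g₁ i ≫ (f₁ i ≫ f ≫ g₂ j) ≫ f₂ j)
      (∑ i, ∑ j, ψ₁ i ≫ θ i j ≫ φ₂ j) :=
    Chart.Rel.sum _ fun i _ => Chart.Rel.sum _ fun j _ => (hg₁ i).comp ((hθ i j).comp (hf₂ j))
  have h3 : ∑ i, ∑ j, g₁ i ≫ (f₁ i ≫ f ≫ g₂ j) ≫ f₂ j =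
      (∑ i, g₁ i ≫ f₁ i) ≫ f ≫ (∑ j, g₂ j ≫ f₂ j) := by
    simp only [Preadditive.sum_comp, Preadditive.comp_sum, Category.assoc]
    exact Finset.sum_comm
  have e1 : Chart.Rel A A (∑ i, g₁ i ≫ f₁ i) (𝟙 W) := by
    rw [← hs₁]
    exact Chart.Rel.sum _ fun i _ => (hg₁ i).comp (hf₁ i)
  have e2 : Chart.Rel A' A' (∑ j, g₂ j ≫ f₂ j) (𝟙 W') := by
    rw [← hs₂]
    exact Chart.Rel.sum _ fun i _ => (hg₂ i).comp (hf₂ i)
  rw [h3] at h2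
  unfold Chart.Rel at h2 e1 e2 ⊢
  rw [← h2]
  generalize (∑ i, g₁ i ≫ f₁ i) = a at *
  generalize (∑ j, g₂ j ≫ f₂ j) = b at *
  rw [comp_lin, comp_lin, Good.Phi_comp A.good A.good A'.good a.lin _
    (LinearMap.congr_fun a.comm_x) (LinearMap.congr_fun (f ≫ b).comm_x), e1,
    Good.Phi_comp A.good A'.good A'.good f.lin b.lin (LinearMap.congr_fun f.comm_x)
      (LinearMap.congr_fun b.comm_x), e2]
  rfl

/-- Every morphism of representations of `G` is realised. -/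
theorem exists_real (hA : Ok B A) (hA' : Ok B A') (φ : W ⟶ W') :
    ∃ f : A.M ⟶ A'.M, Chart.Rel A A' f φ := by
  obtain ⟨n, _, c, f₁, g₁, φ₁, ψ₁, hf₁, hg₁, hs₁⟩ := hA
  obtain ⟨m, _, d, f₂, g₂, φ₂, ψ₂, hf₂, hg₂, hs₂⟩ := hA'
  have h1 : ∀ i j, ∃ θ : (B.S (c i)).M ⟶ (B.S (d j)).M,
      Chart.Rel (B.S (c i)) (B.S (d j)) θ (φ₁ i ≫ φ ≫ ψ₂ j) := fun i j => B.hom_real _ _ _
  choose θ hθ using h1
  refine ⟨∑ i, ∑ j, g₁ i ≫ θ i j ≫ f₂ j, ?_⟩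
  have h2 : φ = ∑ i, ∑ j, ψ₁ i ≫ (φ₁ i ≫ φ ≫ ψ₂ j) ≫ φ₂ j := by
    have : φ = (∑ i, ψ₁ i ≫ φ₁ i) ≫ φ ≫ (∑ j, ψ₂ j ≫ φ₂ j) := by
      rw [hs₁, hs₂, Category.id_comp, Category.comp_id]
    conv_lhs => rw [this]
    simp only [Preadditive.sum_comp, Preadditive.comp_sum, Category.assoc]
    exact Finset.sum_comm
  rw [h2]
  exact Chart.Rel.sum _ fun i _ => Chart.Rel.sum _ fun j _ => (hg₁ i).comp ((hθ i j).comp (hf₂ j))

/-- A morphism between `Ok` charts is negligible if and only if `Φ` kills it. -/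
theorem negligible_iff (hA : Ok B A) (hA' : Ok B A') {f : A.M ⟶ A'.M} {φ : W ⟶ W'}
    (hf : Chart.Rel A A' f φ) : Negligible f ↔ φ = 0 := by
  constructor
  · intro hneg
    obtain ⟨n, _, c, f₁, g₁, φ₁, ψ₁, hf₁, hg₁, hs₁⟩ := hA
    obtain ⟨m, _, d, f₂, g₂, φ₂, ψ₂, hf₂, hg₂, hs₂⟩ := hA'
    have h0 : ∀ i j, φ₁ i ≫ φ ≫ ψ₂ j = 0 := by
      intro i j
      by_contra hne
      obtain ⟨ψ, hψ⟩ := B.nondeg _ _ _ hne
      obtain ⟨h, hh⟩ := B.hom_real _ _ ψ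
      apply hψ
      have h3 := ((hf₁ i).comp (hf.comp (hg₂ j))).comp hh
      rw [← h3.tr_eq]
      have h4 := hneg (g₂ j ≫ h ≫ f₁ i)
      rw [← h4]
      simp only [Category.assoc]
      rw [tr_comm]
      simp only [Category.assoc]
    have : φ = (∑ i, ψ₁ i ≫ φ₁ i) ≫ φ ≫ (∑ j, ψ₂ j ≫ φ₂ j) := by
      rw [hs₁, hs₂, Category.id_comp, Category.comp_id]
    rw [this]
    simp only [Preadditive.sum_comp, Preadditive.comp_sum, Category.assoc]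
    refine Finset.sum_eq_zero fun j _ => Finset.sum_eq_zero fun i _ => ?_
    have h5 := congrArg (fun t => ψ₁ i ≫ t ≫ φ₂ j) (h0 i j)
    simpa only [Category.assoc, Limits.zero_comp, Limits.comp_zero] using h5
  · rintro rfl g
    obtain ⟨ψ, hψ⟩ := exists_hom hA' hA g
    have h := (hf.comp hψ).tr_eq
    rw [h]
    simp

/-- The tensor product of two `Ok` charts is `Ok`, if this holds for base charts. -/
theorem tensor (htensor : ∀ a b, Ok B ((B.S a).tensor (B.S b))) (hA : Ok B A) (hA' : Ok B A') :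
    Ok B (A.tensor A') := by
  obtain ⟨n, _, c, f₁, g₁, φ₁, ψ₁, hf₁, hg₁, hs₁⟩ := hA
  obtain ⟨m, _, d, f₂, g₂, φ₂, ψ₂, hf₂, hg₂, hs₂⟩ := hA'
  choose l hl e f g φ ψ hf hg hs using fun (x : n × m) => htensor (c x.1) (d x.2)
  refine ⟨(x : n × m) × l x, inferInstance, fun y => e y.1 y.2,
    fun y => f y.1 y.2 ≫ (f₁ y.1.1 ⊗ₘ f₂ y.1.2), fun y => (g₁ y.1.1 ⊗ₘ g₂ y.1.2) ≫ g y.1 y.2,
    fun y => φ y.1 y.2 ≫ (φ₁ y.1.1 ⊗ₘ φ₂ y.1.2), fun y => (ψ₁ y.1.1 ⊗ₘ ψ₂ y.1.2) ≫ ψ y.1 y.2,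
    fun y => (hf y.1 y.2).comp ((hf₁ _).tensorHom (hf₂ _)),
    fun y => ((hg₁ _).tensorHom (hg₂ _)).comp (hg y.1 y.2), ?_⟩
  rw [Fintype.sum_sigma]
  have h1 : ∀ x : n × m, ∑ y : l x, ((ψ₁ x.1 ⊗ₘ ψ₂ x.2) ≫ ψ x y) ≫ φ x y ≫ (φ₁ x.1 ⊗ₘ φ₂ x.2) =
      (ψ₁ x.1 ≫ φ₁ x.1) ⊗ₘ (ψ₂ x.2 ≫ φ₂ x.2) := by
    intro x
    have h2 : ∑ y : l x, ((ψ₁ x.1 ⊗ₘ ψ₂ x.2) ≫ ψ x y) ≫ φ x y ≫ (φ₁ x.1 ⊗ₘ φ₂ x.2) =
        (ψ₁ x.1 ⊗ₘ ψ₂ x.2) ≫ (∑ y, ψ x y ≫ φ x y) ≫ (φ₁ x.1 ⊗ₘ φ₂ x.2) := by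
      rw [Preadditive.sum_comp, Preadditive.comp_sum]
      simp only [Category.assoc]
    rw [h2, hs x, Category.id_comp, MonoidalCategory.tensorHom_comp_tensorHom]
  rw [Finset.sum_congr rfl fun x _ => h1 x, Fintype.sum_prod_type]
  simp only [← tensor_sum, ← sum_tensor, hs₁, hs₂, MonoidalCategory.id_tensorHom_id]

end Ok

end Pool.Agent.H29.BC
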