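import Pool.Agent.H29.BC.Mods

/-!
# The tensor products of the base charts are `Ok`
-/

open CategoryTheory MonoidalCategory
open scoped TensorProduct

universe u

namespace Pool.Agent.H29.BC

open AlphaRep

variable {k : Type u} [Field k]

theorem rotL_eb (ω : k) (a : Fin 4) (j : ZMod 5) (i : Fin (dJ a)) :
    rotL ω a j (eb i) = om ω (wt a i * j) • (eb i : Fin (dJ a) → k) := by
  funext l
  rw [rotL_apply, Pi.smul_apply, smul_eq_mul, eb_apply]
  by_cases h : l = i
  · rw [h]
  · rw [if_neg h, mul_zero, mul_zero]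

theorem refL_eb (a : Fin 4) (i : Fin (dJ a)) :
    refL a (eb i) = (sgn a : k) • (eb (Fin.rev i) : Fin (dJ a) → k) := by
  funext l
  rw [refL_apply, Pi.smul_apply, smul_eq_mul, eb_apply, eb_apply]
  by_cases h : l = Fin.rev i
  · rw [h, Fin.rev_rev, if_pos rfl, if_pos rfl]
  · rw [if_neg h, if_neg]
    intro h2
    apply h
    rw [← h2, Fin.rev_rev]

variable [CharP k 3]

theorem sgN_cast (a : Fin 4) : ((sgN a : ℕ) : k) = ((sgn a : ℤ) : k) := by
  have h3 : (3 : k) = 0 := by exact_mod_cast CharP.cast_eq_zero k 3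
  fin_cases a
  · simp [sgN, sgn]
  · simp only [sgN, sgn]
    simp
    linear_combination h3
  · simp [sgN, sgn]
  · simp [sgN, sgn]

theorem gT_rot {ω : k} (hω : ω ^ 5 = 1) (a b : Fin 4) (t : Fin (nT a b)) :
    gT k (dJ a) (dJ b) (dJ (cT a b t)) (jG a b t) ∘ₗ
      TensorProduct.map (rotL ω a 1) (rotL ω b 1) =
    rotL ω (cT a b t) 1 ∘ₗ gT k (dJ a) (dJ b) (dJ (cT a b t)) (jG a b t) := by
  refine ext_eb₂ fun i j => ?_
  funext l
  rw [LinearMap.comp_apply, LinearMap.comp_apply, TensorProduct.map_tmul, rotL_eb, rotL_eb,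
    TensorProduct.smul_tmul_smul, map_smul, rotL_apply, gT_eb, Pi.smul_apply, smul_eq_mul]
  rcases jG_wt a b t i j l with h | h
  · simp [h]
  · rw [← om_add hω, ← add_mul, h]

theorem gT_ref (a b : Fin 4) (t : Fin (nT a b)) :
    gT k (dJ a) (dJ b) (dJ (cT a b t)) (jG a b t) ∘ₗ
      TensorProduct.map (refL a) (refL b) =
    refL (cT a b t) ∘ₗ gT k (dJ a) (dJ b) (dJ (cT a b t)) (jG a b t) := by
  refine ext_eb₂ fun i j => ?_
  funext l
  rw [LinearMap.comp_apply, LinearMap.comp_apply, TensorProduct.map_tmul, refL_eb, refL_eb,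
    TensorProduct.smul_tmul_smul, map_smul, refL_apply, gT_eb, gT_eb, Pi.smul_apply, smul_eq_mul]
  have h := cast_of_eq3 (k := k) (jG_sgn a b t i j l)
  push_cast at h
  rw [sgN_cast, sgN_cast, sgN_cast] at h
  exact h

theorem fT_rot {ω : k} (hω : ω ^ 5 = 1) (a b : Fin 4) (t : Fin (nT a b)) :
    fT k (dJ a) (dJ b) (dJ (cT a b t)) (jF a b t) ∘ₗ rotL ω (cT a b t) 1 =
    TensorProduct.map (rotL ω a 1) (rotL ω b 1) ∘ₗ
      fT k (dJ a) (dJ b) (dJ (cT a b t)) (jF a b t) := by
  refine ext_eb fun l => ?_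
  rw [LinearMap.comp_apply, LinearMap.comp_apply, rotL_eb, map_smul, fT_eb, map_sum,
    Finset.smul_sum]
  refine Finset.sum_congr rfl fun i _ => ?_
  rw [map_sum, Finset.smul_sum]
  refine Finset.sum_congr rfl fun j _ => ?_
  rw [map_smul, TensorProduct.map_tmul, rotL_eb, rotL_eb, TensorProduct.smul_tmul_smul, smul_smul,
    smul_smul]
  rcases jF_wt a b t i j l with h | h
  · rw [h]
    simp
  · rw [← om_add hω, ← add_mul, h, mul_comm]

theorem fT_ref (a b : Fin 4) (t : Fin (nT a b)) :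
    fT k (dJ a) (dJ b) (dJ (cT a b t)) (jF a b t) ∘ₗ refL (cT a b t) =
    TensorProduct.map (refL a) (refL b) ∘ₗ
      fT k (dJ a) (dJ b) (dJ (cT a b t)) (jF a b t) := by
  refine ext_eb fun l => ?_
  rw [LinearMap.comp_apply, LinearMap.comp_apply, refL_eb, map_smul, fT_eb, fT_eb, map_sum,
    Finset.smul_sum, ← Equiv.sum_comp Fin.revPerm]
  refine Finset.sum_congr rfl fun i _ => ?_
  rw [map_sum, Finset.smul_sum, ← Equiv.sum_comp Fin.revPerm]
  refine Finset.sum_congr rfl fun j _ => ?_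
  rw [map_smul, TensorProduct.map_tmul, refL_eb, refL_eb, TensorProduct.smul_tmul_smul, smul_smul,
    smul_smul]
  have h := cast_of_eq3 (k := k) (jF_sgn a b t (Fin.rev i) (Fin.rev j) l)
  push_cast at h
  rw [sgN_cast, sgN_cast, sgN_cast, Fin.rev_rev, Fin.rev_rev] at h
  simp only [Fin.revPerm_apply]
  rw [← h, mul_comm]

theorem rhoF_s_eq {ω : k} (hω : ω ^ 5 = 1) (a : Fin 4) :
    rho hω a (DihedralGroup.sr 0) = refL a := by
  have h : rho hω a (DihedralGroup.sr 0) = refL a * rotL ω a 0 := rfl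
  rw [rotL_zero, mul_one] at h
  exact h

/-- The projections on the side of the dihedral group. -/
noncomputable def pG {ω : k} (hω : ω ^ 5 = 1) (a b : Fin 4) (t : Fin (nT a b)) :
    rhoF hω a ⊗ rhoF hω b ⟶ rhoF hω (cT a b t) :=
  mkHom (gT k (dJ a) (dJ b) (dJ (cT a b t)) (jG a b t))
    (fun v => LinearMap.congr_fun (gT_rot hω a b t) v)
    (fun v => by
      have h := LinearMap.congr_fun (gT_ref (k := k) a b t) v
      rw [← rhoF_s_eq hω, ← rhoF_s_eq hω, ← rhoF_s_eq hω] at h
      exact h)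

/-- The inclusions on the side of the dihedral group. -/
noncomputable def pF {ω : k} (hω : ω ^ 5 = 1) (a b : Fin 4) (t : Fin (nT a b)) :
    rhoF hω (cT a b t) ⟶ rhoF hω a ⊗ rhoF hω b :=
  mkHom (fT k (dJ a) (dJ b) (dJ (cT a b t)) (jF a b t))
    (fun v => LinearMap.congr_fun (fT_rot hω a b t) v)
    (fun v => by
      have h := LinearMap.congr_fun (fT_ref (k := k) a b t) v
      rw [← rhoF_s_eq hω, ← rhoF_s_eq hω, ← rhoF_s_eq hω] at h
      exact h)

theorem rel_G {ω : k} (hω : ω ^ 5 = 1) (a b : Fin 4) (t : Fin (nT a b)) :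
    Chart.Rel ((ch hω a).tensor (ch hω b)) (ch hω (cT a b t)) (mG a b t) (pG hω a b t) := by
  have h : op k (dM (cT a b t)) (dJ (cT a b t)) (aP (cT a b t)) ∘ₗ
      gT k (dM a) (dM b) (dM (cT a b t)) (aG a b t) ∘ₗ
      TensorProduct.map (op k (dJ a) (dM a) (aI a)) (op k (dJ b) (dM b) (aI b)) =
      gT k (dJ a) (dJ b) (dJ (cT a b t)) (jG a b t) := by
    refine ext_eb₂ fun i j => ?_
    funext l
    rw [LinearMap.comp_apply, LinearMap.comp_apply, TensorProduct.map_tmul, op_aI_eb, op_aI_eb,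
      op_aP, gT_eb, gT_eb]
    rfl
  exact h

theorem rel_F {ω : k} (hω : ω ^ 5 = 1) (a b : Fin 4) (t : Fin (nT a b)) :
    Chart.Rel (ch hω (cT a b t)) ((ch hω a).tensor (ch hω b)) (mF a b t) (pF hω a b t) := by
  have key : ∀ (a : Fin 4) (m : Fin (dM a)), (∃ i, m = emb a i ∧
      op k (dM a) (dJ a) (aP a) (eb m) = eb i) ∨
      ((∀ i, m ≠ emb a i) ∧ op k (dM a) (dJ a) (aP a) (eb m) = 0) := by
    intro a m
    by_cases hm : ∃ i, m = emb a i
    · obtain ⟨i, rfl⟩ := hm
      left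
      refine ⟨i, rfl, ?_⟩
      funext l
      rw [op_aP, eb_apply, eb_apply]
      have : emb a l = emb a i ↔ l = i := by
        simp only [emb, Fin.mk.injEq, Nat.add_left_cancel_iff, Fin.ext_iff]
      simp only [this]
    · right
      have hm' : ∀ i, m ≠ emb a i := fun i hi => hm ⟨i, hi⟩
      refine ⟨hm', ?_⟩
      funext l
      rw [op_aP, eb_apply, if_neg (fun h => hm' l h.symm)]
      rfl
  have hsum : ∀ (a : Fin 4) {Z : Type u} [AddCommGroup Z] [Module k Z]
      (f : Fin (dM a) → (Fin (dJ a) → k) →ₗ[k] Z),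
      ∑ m, f m (op k (dM a) (dJ a) (aP a) (eb m)) = ∑ i, f (emb a i) (eb i) := by
    intro a Z _ _ f
    symm
    have hinj : Function.Injective (emb a) := by
      intro i j hij
      simpa only [emb, Fin.mk.injEq, Nat.add_left_cancel_iff, Fin.ext_iff] using hij
    have h1 : ∀ i, f (emb a i) (eb i) =
        f (emb a i) (op k (dM a) (dJ a) (aP a) (eb (emb a i))) := by
      intro i
      rcases key a (emb a i) with ⟨j, hj, h⟩ | ⟨h, _⟩
      · rw [h, ← hinj hj]
      · exact absurd rfl (h i)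
    rw [Finset.sum_congr rfl fun i _ => h1 i]
    rw [← Finset.sum_image (s := Finset.univ) (g := emb a)
      (f := fun m => f m (op k (dM a) (dJ a) (aP a) (eb m))) (fun i _ j _ hij => hinj hij)]
    refine Finset.sum_subset (Finset.subset_univ _) fun m _ hm => ?_
    rcases key a m with ⟨j, hj, h⟩ | ⟨_, h⟩
    · exact absurd (Finset.mem_image.2 ⟨j, Finset.mem_univ _, hj.symm⟩) hm
    · rw [h, map_zero]
  have h : TensorProduct.map (op k (dM a) (dJ a) (aP a)) (op k (dM b) (dJ b) (aP b)) ∘ₗ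
      fT k (dM a) (dM b) (dM (cT a b t)) (aF a b t) ∘ₗ
      op k (dJ (cT a b t)) (dM (cT a b t)) (aI (cT a b t)) =
      fT k (dJ a) (dJ b) (dJ (cT a b t)) (jF a b t) := by
    refine ext_eb fun l => ?_
    rw [LinearMap.comp_apply, LinearMap.comp_apply, op_aI_eb, fT_eb, fT_eb]
    simp only [map_sum, map_smul, TensorProduct.map_tmul]
    have h1 : ∀ m : Fin (dM a), ∑ n : Fin (dM b), ((aF a b t m n (emb (cT a b t) l) : ℕ) : k) •
        (op k (dM a) (dJ a) (aP a) (eb m) ⊗ₜ[k] op k (dM b) (dJ b) (aP b) (eb n)) =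
        ∑ j : Fin (dJ b), ((aF a b t m (emb b j) (emb (cT a b t) l) : ℕ) : k) •
        (op k (dM a) (dJ a) (aP a) (eb m) ⊗ₜ[k] (eb j : Fin (dJ b) → k)) := fun m =>
      hsum b (fun n => ((aF a b t m n (emb (cT a b t) l) : ℕ) : k) •
        TensorProduct.mk k (Fin (dJ a) → k) (Fin (dJ b) → k) (op k (dM a) (dJ a) (aP a) (eb m)))
    rw [Finset.sum_congr rfl fun m _ => h1 m]
    have h2 := hsum a (fun m => ∑ j : Fin (dJ b),
      ((aF a b t m (emb b j) (emb (cT a b t) l) : ℕ) : k) •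
        (TensorProduct.mk k (Fin (dJ a) → k) (Fin (dJ b) → k)).flip (eb j))
    simp only [LinearMap.sum_apply, LinearMap.smul_apply, LinearMap.flip_apply,
      TensorProduct.mk_apply] at h2
    rw [h2]
    rfl
  exact h

theorem sum_FG {ω : k} (hω : ω ^ 5 = 1) (a b : Fin 4) :
    ∑ t, pG hω a b t ≫ pF hω a b t = 𝟙 (rhoF hω a ⊗ rhoF hω b) := by
  apply flin_injective
  rw [flin_sum, flin_id]
  have h : ∑ t : Fin (nT a b), fT k (dJ a) (dJ b) (dJ (cT a b t)) (jF a b t) ∘ₗ
      gT k (dJ a) (dJ b) (dJ (cT a b t)) (jG a b t) = LinearMap.id := by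
    refine ext_eb₂ fun i j => ?_
    rw [LinearMap.sum_apply]
    simp only [LinearMap.comp_apply, fT_gT_eb]
    rw [Finset.sum_comm]
    have h1 : ∀ i' : Fin (dJ a), ∀ j' : Fin (dJ b), ∑ t : Fin (nT a b),
        ((sm (dJ (cT a b t)) fun l => jF a b t i' j' l * jG a b t i j l : ℕ) : k) =
        if i' = i ∧ j' = j then 1 else 0 := by
      intro i' j'
      have h2 := cast_of_eq3 (k := k) (j_sum a b i j i' j')
      rw [sm_eq, Nat.cast_sum] at h2
      rw [h2]
      by_cases hi : i' = i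
      · by_cases hj : j' = j
        · subst hi hj
          simp
        · rw [if_neg (fun h => hj h.2)]
          have h' : Nat.beq (j' : ℕ) (j : ℕ) = false := by
            rcases hb : Nat.beq (j' : ℕ) (j : ℕ) with _ | _
            · rfl
            · exact absurd (Fin.ext (Nat.eq_of_beq_eq_true hb)) hj
          rw [h', Bool.and_false]
          simp
      · rw [if_neg (fun h => hi h.1)]
        have h' : Nat.beq (i' : ℕ) (i : ℕ) = false := by
          rcases hb : Nat.beq (i' : ℕ) (i : ℕ) with _ | _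
          · rfl
          · exact absurd (Fin.ext (Nat.eq_of_beq_eq_true hb)) hi
        rw [h', Bool.false_and]
        simp
    rw [Finset.sum_eq_single i]
    · rw [Finset.sum_comm, Finset.sum_eq_single j]
      · rw [← Finset.sum_smul, h1, if_pos ⟨rfl, rfl⟩, one_smul]
        rfl
      · intro j' _ hj'
        rw [← Finset.sum_smul, h1, if_neg (fun h => hj' h.2), zero_smul]
      · simp
    · intro i' _ hi'
      rw [Finset.sum_comm]
      refine Finset.sum_eq_zero fun j' _ => ?_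
      rw [← Finset.sum_smul, h1, if_neg (fun h => hi' h.1), zero_smul]
    · simp
  exact h

end Pool.Agent.H29.BC
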