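import Pool.Agent.H29.BC.Good

/-!
# Charts

A chart of a representation `W` of `G` is a representation `M` of `α_3(1,1)` with a splitting datum
`Φ(M) = W`.  `Rel A B f φ` says that `Φ(f) = φ`.
-/

open CategoryTheory MonoidalCategory
open scoped TensorProduct

universe u

namespace Pool.Agent.H29.BC

open AlphaRep

variable {k : Type u} [Field k] {G : Type} [Group G]

/-- The linear map underlying a morphism of `FDRep k G`. -/
def flin {W W' : FDRep k G} (φ : W ⟶ W') : W →ₗ[k] W' := φ.hom.hom.hom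

theorem flin_injective {W W' : FDRep k G} {φ ψ : W ⟶ W'} (h : flin φ = flin ψ) : φ = ψ := by
  apply Action.Hom.ext
  apply InducedCategory.hom_ext
  exact ModuleCat.hom_ext h

@[simp] theorem flin_id (W : FDRep k G) : flin (𝟙 W) = LinearMap.id := rfl

@[simp] theorem flin_comp {W W' W'' : FDRep k G} (φ : W ⟶ W') (ψ : W' ⟶ W'') :
    flin (φ ≫ ψ) = flin ψ ∘ₗ flin φ := rfl

@[simp] theorem flin_add {W W' : FDRep k G} (φ ψ : W ⟶ W') : flin (φ + ψ) = flin φ + flin ψ := rfl

@[simp] theorem flin_zero {W W' : FDRep k G} : flin (0 : W ⟶ W') = 0 := rfl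

@[simp] theorem flin_smul {W W' : FDRep k G} (c : k) (φ : W ⟶ W') : flin (c • φ) = c • flin φ := rfl

theorem flin_sum {W W' : FDRep k G} {ι : Type*} (s : Finset ι) (φ : ι → (W ⟶ W')) :
    flin (∑ i ∈ s, φ i) = ∑ i ∈ s, flin (φ i) := by
  classical
  induction s using Finset.induction_on with
  | empty => simp
  | insert a s ha ih => rw [Finset.sum_insert ha, Finset.sum_insert ha, flin_add, ih]

@[simp] theorem flin_tensorHom {W W' U U' : FDRep k G} (φ : W ⟶ W') (ψ : U ⟶ U') :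
    flin (φ ⊗ₘ ψ) = TensorProduct.map (flin φ) (flin ψ) := rfl

/-- A chart of `W`. -/
structure Chart (W : FDRep k G) where
  /-- the representation of `α_3(1,1)` -/
  M : AlphaRep k 3 1 1
  /-- the splitting datum -/
  good : Good M.x W

namespace Chart

variable [CharP k 3] {W W' W'' U U' : FDRep k G}

/-- `Φ(f) = φ`. -/
def Rel (A : Chart W) (B : Chart W') (f : A.M ⟶ B.M) (φ : W ⟶ W') : Prop :=
  Good.Phi A.good B.good f.lin = flin φ

theorem Rel.comp {A : Chart W} {B : Chart W'} {C : Chart W''} {f : A.M ⟶ B.M} {φ : W ⟶ W'}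
    {g : B.M ⟶ C.M} {ψ : W' ⟶ W''} (hf : Rel A B f φ) (hg : Rel B C g ψ) :
    Rel A C (f ≫ g) (φ ≫ ψ) := by
  unfold Rel at *
  rw [comp_lin, flin_comp, ← hf, ← hg]
  exact Good.Phi_comp A.good B.good C.good f.lin g.lin (LinearMap.congr_fun f.comm_x)
    (LinearMap.congr_fun g.comm_x)

theorem Rel.id (A : Chart W) : Rel A A (𝟙 A.M) (𝟙 W) := by
  unfold Rel
  refine LinearMap.ext fun j => ?_
  exact A.good.πι j

theorem Rel.add {A : Chart W} {B : Chart W'} {f g : A.M ⟶ B.M} {φ ψ : W ⟶ W'}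
    (hf : Rel A B f φ) (hg : Rel A B g ψ) : Rel A B (f + g) (φ + ψ) := by
  unfold Rel at *
  rw [flin_add, ← hf, ← hg]
  refine LinearMap.ext fun j => ?_
  simp [Good.Phi]

theorem Rel.smul {A : Chart W} {B : Chart W'} (c : k) {f : A.M ⟶ B.M} {φ : W ⟶ W'}
    (hf : Rel A B f φ) : Rel A B (c • f) (c • φ) := by
  unfold Rel at *
  rw [flin_smul, ← hf]
  refine LinearMap.ext fun j => ?_
  simp [Good.Phi]

theorem Rel.zero (A : Chart W) (B : Chart W') : Rel A B 0 0 := by
  unfold Rel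
  refine LinearMap.ext fun j => ?_
  simp [Good.Phi]

theorem Rel.sum {A : Chart W} {B : Chart W'} {ι : Type*} (s : Finset ι) {f : ι → (A.M ⟶ B.M)}
    {φ : ι → (W ⟶ W')} (h : ∀ i ∈ s, Rel A B (f i) (φ i)) :
    Rel A B (∑ i ∈ s, f i) (∑ i ∈ s, φ i) := by
  classical
  induction s using Finset.induction_on with
  | empty => simpa using Rel.zero A B
  | insert a s ha ih =>
    rw [Finset.sum_insert ha, Finset.sum_insert ha]
    exact (h a (Finset.mem_insert_self a s)).add (ih fun i hi => h i (Finset.mem_insert_of_mem hi))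

theorem Rel.unique {A : Chart W} {B : Chart W'} {f : A.M ⟶ B.M} {φ ψ : W ⟶ W'}
    (hf : Rel A B f φ) (hg : Rel A B f ψ) : φ = ψ := by
  apply flin_injective
  unfold Rel at *
  rw [← hf, ← hg]

theorem Rel.tr_eq {A : Chart W} {f : A.M ⟶ A.M} {φ : W ⟶ W} (hf : Rel A A f φ) :
    tr f = LinearMap.trace k W (flin φ) := by
  unfold Rel at hf
  rw [← hf]
  exact Good.trace_eq A.good f.lin (LinearMap.congr_fun f.comm_x)

/-- The tensor product of two charts. -/
noncomputable def tensor (A : Chart W) (B : Chart W') : Chart (W ⊗ W') where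
  M := A.M ⊗ B.M
  good := Good.tensor A.good B.good

/-- The unit chart. -/
noncomputable def unit : Chart (𝟙_ (FDRep k G)) where
  M := 𝟙_ (AlphaRep k 3 1 1)
  good := Good.unit

theorem Rel.tensorHom {A : Chart W} {B : Chart W'} {C : Chart U} {D : Chart U'} {f : A.M ⟶ B.M}
    {φ : W ⟶ W'} {g : C.M ⟶ D.M} {ψ : U ⟶ U'} (hf : Rel A B f φ) (hg : Rel C D g ψ) :
    Rel (A.tensor C) (B.tensor D) (f ⊗ₘ g) (φ ⊗ₘ ψ) := by
  unfold Rel at *
  rw [flin_tensorHom, ← hf, ← hg]
  refine TensorProduct.ext' fun a b => ?_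
  rfl

theorem Rel.associator_hom (A : Chart W) (B : Chart W') (C : Chart W'') :
    Rel ((A.tensor B).tensor C) (A.tensor (B.tensor C)) (α_ A.M B.M C.M).hom (α_ W W' W'').hom := by
  unfold Rel
  refine TensorProduct.ext_threefold fun a b c => ?_
  have h : ((A.good.tensor B.good).tensor C.good).Phi (A.good.tensor (B.good.tensor C.good))
      (α_ A.M B.M C.M).hom.lin ((a ⊗ₜ[k] b) ⊗ₜ[k] c) =
      A.good.π (A.good.ι a) ⊗ₜ[k] (B.good.π (B.good.ι b) ⊗ₜ[k] C.good.π (C.good.ι c)) := rfl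
  have h2 : flin (α_ W W' W'').hom ((a ⊗ₜ[k] b) ⊗ₜ[k] c) = a ⊗ₜ[k] (b ⊗ₜ[k] c) := rfl
  rw [A.good.πι, B.good.πι, C.good.πι] at h
  exact h.trans h2.symm

theorem Rel.leftUnitor_hom (A : Chart W) :
    Rel (unit.tensor A) A (λ_ A.M).hom (λ_ W).hom := by
  unfold Rel
  refine TensorProduct.ext' fun a b => ?_
  have h : (Good.unit.tensor A.good).Phi A.good (λ_ A.M).hom.lin (a ⊗ₜ[k] b) =
      A.good.π (a • A.good.ι b) := rfl
  rw [map_smul, A.good.πι] at h
  exact h

theorem Rel.rightUnitor_hom (A : Chart W) :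
    Rel (A.tensor unit) A (ρ_ A.M).hom (ρ_ W).hom := by
  unfold Rel
  refine TensorProduct.ext' fun a b => ?_
  have h : (A.good.tensor Good.unit).Phi A.good (ρ_ A.M).hom.lin (a ⊗ₜ[k] b) =
      A.good.π (b • A.good.ι a) := rfl
  rw [map_smul, A.good.πι] at h
  exact h

theorem Rel.braiding_hom (A : Chart W) (B : Chart W') :
    Rel (A.tensor B) (B.tensor A) (β_ A.M B.M).hom (β_ W W').hom := by
  unfold Rel
  refine TensorProduct.ext' fun a b => ?_
  have h : (A.good.tensor B.good).Phi (B.good.tensor A.good) (β_ A.M B.M).hom.lin (a ⊗ₜ[k] b) =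
      B.good.π (B.good.ι b) ⊗ₜ[k] A.good.π (A.good.ι a) := rfl
  rw [A.good.πι, B.good.πι] at h
  exact h

end Chart

end Pool.Agent.H29.BC
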