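import Pool.Agent.H29.BC.Dih

/-!
# Complete reducibility for the dihedral group of order ten

`exists_decomp`: every finite-dimensional representation `W` of the dihedral
group `D5` of order ten over an algebraically closed field of characteristic `3` is a finite direct
sum of copies of the four representations `rhoF hω a`, `a : Fin 4` (file `Dih.lean`; `rhoF hω a` is
the space `Fin (dJ a) → k`, the rotation `r 1` acts on the basis vector `e_i` by
`om ω (wt a i * 1)`, the reflection `sr 0` sends `v` to `i ↦ sgn a * v (rev i)`; so `a = 0` is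
trivial, `a = 1` is the sign character, `a = 2` has weights `ω, ω⁻¹`, `a = 3` has weights
`ω², ω⁻²`).  Morphisms into or out of `W` can be constructed with `mkHom` (commutation with `r 1`
and `sr 0` suffices), `flin` is the underlying linear map, `flin_injective` is extensionality,
`rhoF_r`, `rhoF_s` give the action.

Proof A (explicit).  Put `R = W.ρ (r 1)`, `S = W.ρ (sr 0)`, `R^5 = 1`, `S^2 = 1`, `R S = S R^4`.
For `j : ZMod 5` let `e_j = (1/5) ∑_m ω^(-j m) R^m` (`m` from `0` to `4`; `5 = 2 = -1` in `k`).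
Then `e_j e_l = 0` for `j ≠ l`, `e_j^2 = e_j`, `∑ e_j = 1`, `R e_j = ω^j e_j`, `S e_j = e_(-j) S`.
Put `E_0 = e_0 (1+S)/2`, `E_1 = e_0 (1-S)/2` and choose bases `b` of the ranges of
`E_0`, `E_1`, `e_1`, `e_2` (finite index types `n_0, n_1, n_2, n_3` in `Type`, e.g. `Fin _`);
`n` is the sum type (or a sigma type over `Fin 4`).  For a basis vector `v` of the range belonging
to `a` put `φ : ρ_a ⟶ W`, `φ(t) = t 0 • v` (`a = 0, 1`), `φ(t) = t 0 • v + t 1 • S v`
(`a = 2, 3`), and with the coordinate functional `λ` of `v` (on the range) put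
`ψ : W ⟶ ρ_a`, `ψ(w) = (λ(E w))` (`a = 0, 1`), `ψ(w) = (λ(e w), λ(e (S w)))`
(`a = 2, 3`; here `e = e_1` or `e_2`).  Then `φ ≫ ψ = δ` and
`∑ ψ ≫ φ = E_0 + E_1 + e_1 + S e_1 S + e_2 + S e_2 S = e_0 + e_1 + e_4 + e_2 + e_3 = 1`.

Proof B (induction on `finrank`).  If `W ≠ 0`, `R` has an eigenvector `v`, `R v = ω^j v` (every
`μ` with `μ^5 = 1` is a power of `ω`; this needs that `X^5 - 1` splits, `IsPrimitiveRoot`).  If
`j = 0`, one of `v + S v`, `v - S v` is nonzero and gives a nonzero map from `ρ_0` or `ρ_1`; if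
`j ≠ 0` the vectors `v, S v` span a copy of `ρ_2` or `ρ_3` (they have different `R`-eigenvalues).
So there is an injective `φ : ρ_a ⟶ W`; by averaging a linear left inverse over the ten group
elements (`10 = 1` in `k`) there is `ψ : W ⟶ ρ_a` with `φ ≫ ψ = 𝟙`.  The kernel `U` of `ψ` is a
subrepresentation (`FDRep.of` of the restriction) of smaller dimension and `W = φ(ρ_a) ⊕ U`; apply
the induction hypothesis to `U`.

The proof below is Proof A.  The hypothesis that `k` is algebraically closed is not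
needed if `ω` is a primitive fifth root of unity.
-/

open CategoryTheory MonoidalCategory

universe u

namespace Pool.Agent.H29.BC

variable {k : Type u} [Field k] [CharP k 3]

section Idem

variable {A : Type*} [Ring A] [Algebra k A] (ω : k) (Rp : ZMod 5 → A)

/-- The eigenprojections. -/
def ePr (x : ZMod 5) : A := - ∑ m : ZMod 5, om ω (-(x * m)) • Rp m

omit [CharP k 3] in
theorem Rp_mul_ePr (hω : ω ^ 5 = 1) (hR : ∀ m n, Rp (m + n) = Rp m * Rp n) (n x : ZMod 5) :
    Rp n * ePr ω Rp x = om ω (x * n) • ePr ω Rp x := by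
  unfold ePr
  rw [mul_neg, smul_neg, Finset.mul_sum, Finset.smul_sum, neg_inj]
  refine Fintype.sum_equiv (Equiv.addLeft n) _ _ fun m => ?_
  rw [Equiv.coe_addLeft, mul_smul_comm, ← hR, smul_smul, ← om_add hω]
  congr 2
  ring

omit [CharP k 3] in
theorem ePr_mul_Rp (hω : ω ^ 5 = 1) (hR : ∀ m n, Rp (m + n) = Rp m * Rp n) (n x : ZMod 5) :
    ePr ω Rp x * Rp n = om ω (x * n) • ePr ω Rp x := by
  unfold ePr
  rw [neg_mul, smul_neg, Finset.sum_mul, Finset.smul_sum, neg_inj]
  refine Fintype.sum_equiv (Equiv.addRight n) _ _ fun m => ?_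
  rw [Equiv.coe_addRight, smul_mul_assoc, ← hR, smul_smul, ← om_add hω]
  congr 2
  ring

omit [CharP k 3] in
theorem S_mul_ePr (S : A) (hS : ∀ m, S * Rp m = Rp (-m) * S) (x : ZMod 5) :
    S * ePr ω Rp x = ePr ω Rp (-x) * S := by
  unfold ePr
  rw [mul_neg, neg_mul, Finset.mul_sum, Finset.sum_mul, neg_inj]
  refine Fintype.sum_equiv (Equiv.neg _) _ _ fun m => ?_
  rw [Equiv.neg_apply, mul_smul_comm, hS, smul_mul_assoc]
  congr 2
  ring

omit [CharP k 3] in
theorem om_ne_one {ω : k} (hω : ω ^ 5 = 1) (hω1 : ω ≠ 1) (z : ZMod 5) (hz : z ≠ 0) :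
    om ω z ≠ 1 := by
  intro h
  unfold om at h
  have : Fact (Nat.Prime 5) := ⟨by norm_num⟩
  have ho : orderOf ω = 5 := orderOf_eq_prime hω hω1
  have hd := orderOf_dvd_of_pow_eq_one h
  rw [ho] at hd
  have hlt := ZMod.val_lt z
  have h0 := Nat.eq_zero_of_dvd_of_lt hd hlt
  exact hz ((ZMod.val_eq_zero z).1 h0)

omit [CharP k 3] in
theorem om_injective {ω : k} (hω : ω ^ 5 = 1) (hω1 : ω ≠ 1) {x y : ZMod 5}
    (h : om ω x = om ω y) : x = y := by
  by_contra hne
  apply om_ne_one hω hω1 (x - y) (sub_ne_zero.2 hne)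
  have h0 : om ω y ≠ 0 := by
    unfold om
    apply pow_ne_zero
    rintro rfl
    norm_num at hω
  apply mul_right_cancel₀ h0
  rw [one_mul, ← om_add hω, sub_add_cancel, h]

omit [CharP k 3] in
theorem sum_om_eq_zero {ω : k} (hω : ω ^ 5 = 1) (hω1 : ω ≠ 1) (z : ZMod 5) (hz : z ≠ 0) :
    ∑ m : ZMod 5, om ω (z * m) = 0 := by
  have h1 : om ω z ≠ 1 := om_ne_one hω hω1 z hz
  have h2 : om ω z * ∑ m : ZMod 5, om ω (z * m) = ∑ m : ZMod 5, om ω (z * m) := by
    rw [Finset.mul_sum]
    refine Fintype.sum_equiv (Equiv.addLeft 1) _ _ fun m => ?_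
    rw [Equiv.coe_addLeft, ← om_add hω]
    congr 1
    ring
  have h3 : (om ω z - 1) * ∑ m : ZMod 5, om ω (z * m) = 0 := by
    rw [sub_mul, h2, one_mul, sub_self]
  exact (mul_eq_zero.1 h3).resolve_left (sub_ne_zero.2 h1)

theorem neg_five : (-5 : k) = 1 := by
  have h : ((3 : ℕ) : k) = 0 := CharP.cast_eq_zero k 3
  push_cast at h
  linear_combination (-2 : k) * h

theorem ePr_mul_ePr {ω : k} (hω : ω ^ 5 = 1) (hω1 : ω ≠ 1)
    (hR : ∀ m n, Rp (m + n) = Rp m * Rp n) (x y : ZMod 5) :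
    ePr ω Rp x * ePr ω Rp y = if x = y then ePr ω Rp x else 0 := by
  have h1 : ePr ω Rp x * ePr ω Rp y = -((∑ m : ZMod 5, om ω ((x - y) * m)) • ePr ω Rp x) := by
    conv_lhs => rw [ePr.eq_1 ω Rp y]
    rw [mul_neg, neg_inj, Finset.mul_sum, Finset.sum_smul]
    refine Finset.sum_congr rfl fun m _ => ?_
    rw [mul_smul_comm, ePr_mul_Rp ω Rp hω hR, smul_smul, ← om_add hω]
    congr 2
    ring
  rw [h1]
  split_ifs with h
  · subst h
    have h5 : ∑ m : ZMod 5, om ω ((x - x) * m) = 5 := by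
      simp only [sub_self, zero_mul, om_zero]
      simp
    rw [h5, ← neg_smul, neg_five, one_smul]
  · rw [sum_om_eq_zero hω hω1 _ (sub_ne_zero.2 h), zero_smul, neg_zero]

theorem sum_ePr {ω : k} (hω : ω ^ 5 = 1) (hω1 : ω ≠ 1) (hR0 : Rp 0 = 1) :
    ∑ x : ZMod 5, ePr ω Rp x = 1 := by
  unfold ePr
  rw [Finset.sum_neg_distrib, Finset.sum_comm]
  simp_rw [← Finset.sum_smul]
  have h1 : ∀ m : ZMod 5, ∑ x : ZMod 5, om ω (-(x * m)) = if m = 0 then 5 else 0 := by
    intro m
    split_ifs with h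
    · subst h
      simp only [mul_zero, neg_zero, om_zero]
      simp
    · rw [← sum_om_eq_zero hω hω1 (-m) (neg_ne_zero.2 h)]
      refine Finset.sum_congr rfl fun x _ => ?_
      congr 1
      ring
  simp_rw [h1]
  rw [Finset.sum_eq_single 0]
  · rw [if_pos rfl, hR0, ← neg_smul, neg_five, one_smul]
  · intro m _ hm
    rw [if_neg hm, zero_smul]
  · intro h
    exact absurd (Finset.mem_univ _) h

end Idem

section Piece

variable {ω : k} (hω : ω ^ 5 = 1) (W : FDRep k D5)

omit [CharP k 3] in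
/-- The isotypic piece of type `a`, cut out by the projection `P`. -/
theorem exists_piece (a : Fin 4) (P : Module.End k W) (hP : P * P = P)
    (h1 : ∀ i : Fin (dJ a), W.ρ (DihedralGroup.r 1) * (W.ρ (DihedralGroup.sr 0) ^ (i : ℕ)) * P =
      om ω (wt a i) • ((W.ρ (DihedralGroup.sr 0) ^ (i : ℕ)) * P))
    (h2 : ∀ i : Fin (dJ a), W.ρ (DihedralGroup.sr 0) * (W.ρ (DihedralGroup.sr 0) ^ (i : ℕ)) * P =
      (sgn a : k) • ((W.ρ (DihedralGroup.sr 0) ^ (Fin.rev i : ℕ)) * P))
    (h3 : ∀ i : Fin (dJ a), P * (W.ρ (DihedralGroup.sr 0) ^ (i : ℕ)) * W.ρ (DihedralGroup.r 1) =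
      om ω (wt a i) • (P * (W.ρ (DihedralGroup.sr 0) ^ (i : ℕ))))
    (h4 : ∀ i : Fin (dJ a), P * (W.ρ (DihedralGroup.sr 0) ^ (i : ℕ)) * W.ρ (DihedralGroup.sr 0) =
      (sgn a : k) • (P * (W.ρ (DihedralGroup.sr 0) ^ (Fin.rev i : ℕ))))
    (h5 : ∀ i j : Fin (dJ a), P * (W.ρ (DihedralGroup.sr 0) ^ (i : ℕ)) *
      ((W.ρ (DihedralGroup.sr 0) ^ (j : ℕ)) * P) = if i = j then P else 0) :
    ∃ (m : ℕ) (φ : Fin m → (rhoF hω a ⟶ W)) (ψ : Fin m → (W ⟶ rhoF hω a)),
      (∀ i, φ i ≫ ψ i = 𝟙 _) ∧ (∀ i j, i ≠ j → φ i ≫ ψ j = 0) ∧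
      ∑ i, flin (ψ i ≫ φ i) = ∑ i : Fin (dJ a), (W.ρ (DihedralGroup.sr 0) ^ (i : ℕ)) * P *
        (W.ρ (DihedralGroup.sr 0) ^ (i : ℕ)) := by
  set R : Module.End k W := W.ρ (DihedralGroup.r 1) with hR
  set S : Module.End k W := W.ρ (DihedralGroup.sr 0) with hS
  let b := Module.finBasis k (LinearMap.range P)
  have hPb : ∀ i, P (b i : W) = b i := by
    intro i
    obtain ⟨w, hw⟩ := (b i).2
    rw [← hw, ← Module.End.mul_apply, hP]
  let P' : W →ₗ[k] LinearMap.range P := P.rangeRestrict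
  have hP' : ∀ w, ((P' w : LinearMap.range P) : W) = P w := fun w => rfl
  -- the maps
  let f : ∀ i : Fin (Module.finrank k (LinearMap.range P)), (Fin (dJ a) → k) →ₗ[k] W := fun i =>
    ∑ l : Fin (dJ a), LinearMap.smulRight (LinearMap.proj l) ((S ^ (l : ℕ)) (b i : W))
  have hf : ∀ i t, f i t = ∑ l : Fin (dJ a), t l • (S ^ (l : ℕ)) (b i : W) := by
    intro i t
    simp [f]
  let g : ∀ i : Fin (Module.finrank k (LinearMap.range P)), W →ₗ[k] (Fin (dJ a) → k) := fun i =>
    LinearMap.pi fun l => (b.coord i) ∘ₗ P' ∘ₗ (S ^ (l : ℕ))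
  have hg : ∀ i w l, g i w l = b.coord i (P' ((S ^ (l : ℕ)) w)) := fun i w l => rfl
  have hext : ∀ u v : LinearMap.range P, (u : W) = v → u = v := fun u v h => Subtype.ext h
  have hR1 : ∀ (l : Fin (dJ a)) i, R ((S ^ (l : ℕ)) (b i : W)) =
      om ω (wt a l) • (S ^ (l : ℕ)) (b i : W) := by
    intro l i
    have h := LinearMap.congr_fun (h1 l) (b i : W)
    simp only [Module.End.mul_apply, LinearMap.smul_apply, hPb] at h
    exact h
  have hS1 : ∀ (l : Fin (dJ a)) i, S ((S ^ (l : ℕ)) (b i : W)) =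
      (sgn a : k) • (S ^ (Fin.rev l : ℕ)) (b i : W) := by
    intro l i
    have h := LinearMap.congr_fun (h2 l) (b i : W)
    simp only [Module.End.mul_apply, LinearMap.smul_apply, hPb] at h
    exact h
  have hR3 : ∀ (l : Fin (dJ a)) w, P' ((S ^ (l : ℕ)) (R w)) =
      om ω (wt a l) • P' ((S ^ (l : ℕ)) w) := by
    intro l w
    have h := LinearMap.congr_fun (h3 l) w
    simp only [Module.End.mul_apply, LinearMap.smul_apply] at h
    exact hext _ _ h
  have hS4 : ∀ (l : Fin (dJ a)) w, P' ((S ^ (l : ℕ)) (S w)) =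
      (sgn a : k) • P' ((S ^ (Fin.rev l : ℕ)) w) := by
    intro l w
    have h := LinearMap.congr_fun (h4 l) w
    simp only [Module.End.mul_apply, LinearMap.smul_apply] at h
    exact hext _ _ h
  have hP5 : ∀ (l j : Fin (dJ a)) i, P' ((S ^ (l : ℕ)) ((S ^ (j : ℕ)) (b i : W))) =
      if l = j then b i else 0 := by
    intro l j i
    have h := LinearMap.congr_fun (h5 l j) (b i : W)
    simp only [Module.End.mul_apply, hPb] at h
    apply hext
    rw [hP', h]
    split_ifs
    · exact hPb i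
    · rfl
  have hgf : ∀ i j t, g j (f i t) = fun l => if i = j then t l else 0 := by
    intro i j t
    funext l
    rw [hg, hf, map_sum, map_sum, map_sum, Finset.sum_eq_single l]
    · rw [map_smul, map_smul, map_smul, hP5, if_pos rfl, Module.Basis.coord_apply,
        Module.Basis.repr_self, Finsupp.single_apply, smul_eq_mul]
      split_ifs <;> simp
    · intro j' _ hj'
      rw [map_smul, map_smul, map_smul, hP5, if_neg (Ne.symm hj'), map_zero, smul_zero]
    · intro h
      exact absurd (Finset.mem_univ _) h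
  refine ⟨Module.finrank k (LinearMap.range P),
    fun i => mkHom (W := rhoF hω a) (W' := W) (f i) ?_ ?_,
    fun i => mkHom (W := W) (W' := rhoF hω a) (g i) ?_ ?_, ?_, ?_, ?_⟩
  · intro v
    change f i (fun l => om ω (wt a l * 1) * v l) = R (f i v)
    rw [hf, hf, map_sum]
    refine Finset.sum_congr rfl fun l _ => ?_
    rw [map_smul, hR1, mul_one, smul_smul, mul_comm]
  · intro v
    have h : (rhoF hω a).ρ (DihedralGroup.sr 0) v = fun l => (sgn a : k) * v (Fin.rev l) :=
      funext fun l => rhoF_s hω a v l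
    rw [h]
    change f i _ = S (f i v)
    rw [hf, hf, map_sum]
    refine Fintype.sum_equiv Fin.revPerm _ _ fun l => ?_
    rw [map_smul, hS1, Fin.revPerm_apply, Fin.rev_rev, smul_smul, mul_comm]
  · intro w
    change g i (R w) = fun l => om ω (wt a l * 1) * g i w l
    funext l
    rw [hg, hR3, map_smul, smul_eq_mul, mul_one, hg]
  · intro w
    have h : (rhoF hω a).ρ (DihedralGroup.sr 0) (g i w) =
        fun l => (sgn a : k) * g i w (Fin.rev l) :=
      funext fun l => rhoF_s hω a (g i w) l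
    refine Eq.trans ?_ h.symm
    change g i (S w) = _
    funext l
    rw [hg, hS4, map_smul, smul_eq_mul, hg]
  · intro i
    apply flin_injective
    refine LinearMap.ext fun t => ?_
    change g i (f i t) = t
    rw [hgf]
    simp
  · intro i j hij
    apply flin_injective
    refine LinearMap.ext fun t => ?_
    change g j (f i t) = 0
    rw [hgf]
    funext l
    rw [if_neg hij]
    rfl
  · refine LinearMap.ext fun w => ?_
    rw [LinearMap.sum_apply, LinearMap.sum_apply]
    change ∑ i, f i (g i w) = _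
    simp_rw [hf, hg]
    rw [Finset.sum_comm]
    refine Finset.sum_congr rfl fun l _ => ?_
    rw [Module.End.mul_apply, Module.End.mul_apply, ← hP']
    conv_rhs => rw [← b.sum_repr (P' ((S ^ (l : ℕ)) w))]
    rw [Submodule.coe_sum, map_sum]
    refine Finset.sum_congr rfl fun i _ => ?_
    rw [Submodule.coe_smul, map_smul, Module.Basis.coord_apply]

end Piece

theorem wt_match : ∀ (a b : Fin 4) (i : Fin (dJ a)) (l : Fin (dJ b)), a ≠ b → wt a i = wt b l →
    Fin.rev i = i ∧ Fin.rev l = l ∧ sgn a = - sgn b := by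
  decide

/-- Schur: there is no nonzero morphism between different representations. -/
theorem rhoF_hom_eq_zero {ω : k} (hω : ω ^ 5 = 1) (hω1 : ω ≠ 1) {a b : Fin 4} (hab : a ≠ b)
    (F : rhoF hω a ⟶ rhoF hω b) : F = 0 := by
  apply flin_injective
  refine (Pi.basisFun k (Fin (dJ a))).ext fun i => ?_
  rw [Pi.basisFun_apply]
  set e : Fin (dJ a) → k := Pi.single i 1 with he
  set L : (Fin (dJ a) → k) →ₗ[k] (Fin (dJ b) → k) := flin F with hL
  change L e = 0
  funext l
  have hr : L ((rhoF hω a).ρ (DihedralGroup.r 1) e) = (rhoF hω b).ρ (DihedralGroup.r 1) (L e) :=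
    flin_comm F _ _
  have hs : L ((rhoF hω a).ρ (DihedralGroup.sr 0) e) = (rhoF hω b).ρ (DihedralGroup.sr 0) (L e) :=
    flin_comm F _ _
  have h1 : (rhoF hω a).ρ (DihedralGroup.r 1) e = om ω (wt a i) • e := by
    refine funext fun l' => ?_
    refine (rhoF_r hω a 1 e l').trans ?_
    rw [mul_one, Pi.smul_apply, smul_eq_mul, he]
    rcases eq_or_ne l' i with h | h
    · rw [h]
    · rw [Pi.single_eq_of_ne h, mul_zero, mul_zero]
  by_cases hw : wt a i = wt b l
  · obtain ⟨hri, hrl, hsg⟩ := wt_match a b i l hab hw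
    have h2 : (rhoF hω a).ρ (DihedralGroup.sr 0) e = (sgn a : k) • e := by
      refine funext fun l' => ?_
      refine (rhoF_s hω a e l').trans ?_
      rw [Pi.smul_apply, smul_eq_mul, he]
      rcases eq_or_ne l' i with h | h
      · rw [h, hri]
      · rw [Pi.single_eq_of_ne h, Pi.single_eq_of_ne]
        intro h'
        apply h
        rw [← hri, ← h', Fin.rev_rev]
    rw [h2, map_smul] at hs
    have h3 := congrFun hs l
    have h4 := rhoF_s hω b (L e) l
    have h5 : (sgn a : k) * L e l = (sgn b : k) * L e (Fin.rev l) := h3.trans h4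
    rw [hrl, hsg, Int.cast_neg] at h5
    have h6 : (sgn b : k) * (sgn b : k) = 1 := by
      rw [← Int.cast_mul, sgn_mul_self, Int.cast_one]
    have h7 : ((3 : ℕ) : k) = 0 := CharP.cast_eq_zero k 3
    push_cast at h7
    change L e l = 0
    linear_combination (sgn b : k) * h5 - (L e l) * (-2) * h6 + (L e l) * h7
  · rw [h1, map_smul] at hr
    have h3 := congrFun hr l
    have h4 := rhoF_r hω b 1 (L e) l
    have h5 : om ω (wt a i) * L e l = om ω (wt b l * 1) * L e l := h3.trans h4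
    rw [mul_one] at h5
    have h6 : (om ω (wt a i) - om ω (wt b l)) * L e l = 0 := by
      rw [sub_mul, h5, sub_self]
    exact (mul_eq_zero.1 h6).resolve_left
      (sub_ne_zero.2 fun h => hw (om_injective hω hω1 h))

theorem exists_decomp {ω : k} (hω : ω ^ 5 = 1) (hω1 : ω ≠ 1) (W : FDRep k D5) :
    ∃ (n : Type) (_ : Fintype n) (_ : DecidableEq n) (c : n → Fin 4)
      (φ : ∀ i, rhoF hω (c i) ⟶ W) (ψ : ∀ i, W ⟶ rhoF hω (c i)),
      (∀ i, φ i ≫ ψ i = 𝟙 _) ∧ (∀ i j, i ≠ j → φ i ≫ ψ j = 0) ∧ ∑ i, ψ i ≫ φ i = 𝟙 W := by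
  classical
  set Rp : ZMod 5 → Module.End k W := fun m => W.ρ (DihedralGroup.r m) with hRp
  set S : Module.End k W := W.ρ (DihedralGroup.sr 0) with hSdef
  have hR0 : Rp 0 = 1 := by
    rw [hRp]
    exact map_one W.ρ
  have hRadd : ∀ m n, Rp (m + n) = Rp m * Rp n := by
    intro m n
    simp only [hRp]
    rw [← map_mul, DihedralGroup.r_mul_r]
  have hS : ∀ m, S * Rp m = Rp (-m) * S := by
    intro m
    simp only [hRp, hSdef]
    rw [← map_mul, ← map_mul, DihedralGroup.sr_mul_r, DihedralGroup.r_mul_sr, zero_add, sub_neg_eq_add,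
      zero_add]
  have hSS : S * S = 1 := by
    simp only [hSdef]
    rw [← map_mul, DihedralGroup.sr_mul_sr, sub_zero]
    exact map_one W.ρ
  set e : ZMod 5 → Module.End k W := ePr ω Rp with he
  have hRe : ∀ x, Rp 1 * e x = om ω x • e x := by
    intro x
    rw [he, Rp_mul_ePr ω Rp hω hRadd, mul_one]
  have heR : ∀ x, e x * Rp 1 = om ω x • e x := by
    intro x
    rw [he, ePr_mul_Rp ω Rp hω hRadd, mul_one]
  have heR' : ∀ x, e x * Rp (-1) = om ω (-x) • e x := by
    intro x
    rw [he, ePr_mul_Rp ω Rp hω hRadd, mul_neg, mul_one]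
  have hRe' : ∀ x, Rp (-1) * e x = om ω (-x) • e x := by
    intro x
    rw [he, Rp_mul_ePr ω Rp hω hRadd, mul_neg, mul_one]
  have hSe : ∀ x, S * e x = e (-x) * S := S_mul_ePr ω Rp S hS
  have hee : ∀ x y, e x * e y = if x = y then e x else 0 := ePr_mul_ePr Rp hω hω1 hRadd
  have hsum : ∑ x, e x = 1 := sum_ePr Rp hω hω1 hR0
  have h3' : ∀ x : Module.End k W, x + x + x = 0 := by
    intro x
    have h7 : ((3 : ℕ) : k) = 0 := CharP.cast_eq_zero k 3
    have h8 : x + x + x = ((3 : ℕ) : k) • x := by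
      push_cast
      rw [show (3 : k) = 1 + 1 + 1 by norm_num, add_smul, add_smul, one_smul]
    rw [h8, h7, zero_smul]
  -- the pieces
  have hpc : ∀ a : Fin 4, ∃ (m : ℕ) (φ : Fin m → (rhoF hω a ⟶ W)) (ψ : Fin m → (W ⟶ rhoF hω a)),
      (∀ i, φ i ≫ ψ i = 𝟙 _) ∧ (∀ i j, i ≠ j → φ i ≫ ψ j = 0) ∧
      ∑ i, flin (ψ i ≫ φ i) = (![-(e 0 * (1 + S)), -(e 0 * (1 - S)), e 1 + e (-1),
        e 2 + e (-2)] : Fin 4 → Module.End k W) a := by
    have hS0 : S * e 0 = e 0 * S := by rw [hSe, neg_zero]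
    have h00 : e 0 * e 0 = e 0 := by rw [hee, if_pos rfl]
    have hR0' : Rp 1 * e 0 = e 0 := by rw [hRe, om_zero, one_smul]
    have h0R' : e 0 * Rp 1 = e 0 := by rw [heR, om_zero, one_smul]
    have h0R'' : e 0 * Rp (-1) = e 0 := by rw [heR', neg_zero, om_zero, one_smul]
    intro a
    fin_cases a
    · have hPP : -(e 0 * (1 + S)) * -(e 0 * (1 + S)) = -(e 0 * (1 + S)) := by
        have h9 : -(e 0 * (1 + S)) * -(e 0 * (1 + S)) =
            e 0 * e 0 * (1 + S) + e 0 * (S * e 0) * (1 + S) := by noncomm_ring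
        rw [h9, h00, hS0, ← mul_assoc, h00]
        have h10 : e 0 * (1 + S) + e 0 * S * (1 + S) = e 0 + e 0 * S + e 0 * S + e 0 * (S * S) := by
          noncomm_ring
        rw [h10, hSS]
        have h11 := h3' (e 0)
        have h12 := h3' (e 0 * S)
        have h13 : e 0 + e 0 * S + e 0 * S + e 0 * 1 = -(e 0 * (1 + S)) + (e 0 + e 0 + e 0) +
          (e 0 * S + e 0 * S + e 0 * S) := by noncomm_ring
        rw [h13, h11, h12, add_zero, add_zero]
      obtain ⟨m, φ, ψ, hh1, hh2, hh3⟩ := exists_piece hω W 0 (-(e 0 * (1 + S))) hPP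
        (by
          change ∀ i : Fin 1, _
          intro i
          rw [Subsingleton.elim i 0]
          change Rp 1 * S ^ 0 * -(e 0 * (1 + S)) = om ω (0 * (1 - 2 * ((0 : ℕ) : ZMod 5))) •
            (S ^ 0 * -(e 0 * (1 + S)))
          rw [zero_mul, om_zero, one_smul, pow_zero, mul_one, one_mul, mul_neg, ← mul_assoc, hR0'])
        (by
          change ∀ i : Fin 1, _
          intro i
          rw [Subsingleton.elim i 0]
          change S * S ^ 0 * -(e 0 * (1 + S)) = ((1 : ℤ) : k) • (S ^ 0 * -(e 0 * (1 + S)))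
          rw [Int.cast_one, one_smul, pow_zero, mul_one, one_mul, mul_neg, ← mul_assoc, hS0,
            mul_assoc, mul_add, mul_one, hSS, add_comm])
        (by
          change ∀ i : Fin 1, _
          intro i
          rw [Subsingleton.elim i 0]
          change -(e 0 * (1 + S)) * S ^ 0 * Rp 1 = om ω (0 * (1 - 2 * ((0 : ℕ) : ZMod 5))) •
            (-(e 0 * (1 + S)) * S ^ 0)
          rw [zero_mul, om_zero, one_smul, pow_zero, mul_one, neg_mul, mul_assoc, add_mul, one_mul,
            hS, mul_add, h0R', ← mul_assoc, h0R'', mul_add, mul_one])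
        (by
          change ∀ i : Fin 1, _
          intro i
          rw [Subsingleton.elim i 0]
          change -(e 0 * (1 + S)) * S ^ 0 * S = ((1 : ℤ) : k) • (-(e 0 * (1 + S)) * S ^ 0)
          rw [Int.cast_one, one_smul, pow_zero, mul_one, neg_mul, mul_assoc, add_mul, one_mul, hSS,
            add_comm])
        (by
          change ∀ i j : Fin 1, _
          intro i j
          rw [Subsingleton.elim i 0, Subsingleton.elim j 0, if_pos rfl]
          change -(e 0 * (1 + S)) * S ^ 0 * (S ^ 0 * -(e 0 * (1 + S))) = -(e 0 * (1 + S))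
          rw [pow_zero, mul_one, one_mul, hPP])
      refine ⟨m, φ, ψ, hh1, hh2, hh3.trans ?_⟩
      change ∑ i : Fin 1, S ^ (i : ℕ) * -(e 0 * (1 + S)) * S ^ (i : ℕ) = -(e 0 * (1 + S))
      simp
    · have hPP : -(e 0 * (1 - S)) * -(e 0 * (1 - S)) = -(e 0 * (1 - S)) := by
        have h9 : -(e 0 * (1 - S)) * -(e 0 * (1 - S)) =
            e 0 * e 0 * (1 - S) - e 0 * (S * e 0) * (1 - S) := by noncomm_ring
        rw [h9, h00, hS0, ← mul_assoc, h00]
        have h10 : e 0 * (1 - S) - e 0 * S * (1 - S) = e 0 - e 0 * S - e 0 * S + e 0 * (S * S) := by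
          noncomm_ring
        rw [h10, hSS]
        have h11 := h3' (e 0)
        have h12 := h3' (e 0 * S)
        have h13 : e 0 - e 0 * S - e 0 * S + e 0 * 1 = -(e 0 * (1 - S)) + (e 0 + e 0 + e 0) -
          (e 0 * S + e 0 * S + e 0 * S) := by noncomm_ring
        rw [h13, h11, h12, add_zero, sub_zero]
      obtain ⟨m, φ, ψ, hh1, hh2, hh3⟩ := exists_piece hω W 1 (-(e 0 * (1 - S))) hPP
        (by
          change ∀ i : Fin 1, _
          intro i
          rw [Subsingleton.elim i 0]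
          change Rp 1 * S ^ 0 * -(e 0 * (1 - S)) = om ω (0 * (1 - 2 * ((0 : ℕ) : ZMod 5))) •
            (S ^ 0 * -(e 0 * (1 - S)))
          rw [zero_mul, om_zero, one_smul, pow_zero, mul_one, one_mul, mul_neg, ← mul_assoc, hR0'])
        (by
          change ∀ i : Fin 1, _
          intro i
          rw [Subsingleton.elim i 0]
          change S * S ^ 0 * -(e 0 * (1 - S)) = ((-1 : ℤ) : k) • (S ^ 0 * -(e 0 * (1 - S)))
          rw [Int.cast_neg, Int.cast_one, neg_one_smul, pow_zero, mul_one, one_mul, mul_neg,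
            ← mul_assoc, hS0, mul_assoc, mul_sub, mul_one, hSS, ← neg_sub, mul_neg])
        (by
          change ∀ i : Fin 1, _
          intro i
          rw [Subsingleton.elim i 0]
          change -(e 0 * (1 - S)) * S ^ 0 * Rp 1 = om ω (0 * (1 - 2 * ((0 : ℕ) : ZMod 5))) •
            (-(e 0 * (1 - S)) * S ^ 0)
          rw [zero_mul, om_zero, one_smul, pow_zero, mul_one, neg_mul, mul_assoc, sub_mul, one_mul,
            hS, mul_sub, h0R', ← mul_assoc, h0R'', mul_sub, mul_one])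
        (by
          change ∀ i : Fin 1, _
          intro i
          rw [Subsingleton.elim i 0]
          change -(e 0 * (1 - S)) * S ^ 0 * S = ((-1 : ℤ) : k) • (-(e 0 * (1 - S)) * S ^ 0)
          rw [Int.cast_neg, Int.cast_one, neg_one_smul, pow_zero, mul_one, neg_mul, mul_assoc,
            sub_mul, one_mul, hSS, ← neg_sub, mul_neg])
        (by
          change ∀ i j : Fin 1, _
          intro i j
          rw [Subsingleton.elim i 0, Subsingleton.elim j 0, if_pos rfl]
          change -(e 0 * (1 - S)) * S ^ 0 * (S ^ 0 * -(e 0 * (1 - S))) = -(e 0 * (1 - S))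
          rw [pow_zero, mul_one, one_mul, hPP])
      refine ⟨m, φ, ψ, hh1, hh2, hh3.trans ?_⟩
      change ∑ i : Fin 1, S ^ (i : ℕ) * -(e 0 * (1 - S)) * S ^ (i : ℕ) = -(e 0 * (1 - S))
      simp
    · have hPP : e 1 * e 1 = e 1 := by rw [hee, if_pos rfl]
      have hPS : e 1 * S * e 1 = 0 := by
        rw [mul_assoc, hSe, ← mul_assoc, hee, if_neg (by decide), zero_mul]
      have hRS : Rp 1 * S = S * Rp (-1) := by rw [hS, neg_neg]
      obtain ⟨m, φ, ψ, hh1, hh2, hh3⟩ := exists_piece hω W 2 (e 1) hPP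
        (by
          refine (Fin.forall_fin_two (p := fun i : Fin 2 => Rp 1 * S ^ (i : ℕ) * e 1 =
            om ω (1 * (1 - 2 * ((i : ℕ) : ZMod 5))) • (S ^ (i : ℕ) * e 1))).2 ⟨?_, ?_⟩
          · change Rp 1 * S ^ 0 * e 1 = om ω (1 * (1 - 2 * ((0 : ℕ) : ZMod 5))) • (S ^ 0 * e 1)
            rw [pow_zero, mul_one, hRe]
            simp
          · change Rp 1 * S ^ 1 * e 1 = om ω (1 * (1 - 2 * ((1 : ℕ) : ZMod 5))) • (S ^ 1 * e 1)
            rw [pow_one, hRS, mul_assoc, hRe', mul_smul_comm]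
            rfl)
        (by
          refine (Fin.forall_fin_two (p := fun i : Fin 2 => S * S ^ (i : ℕ) * e 1 =
            ((1 : ℤ) : k) • (S ^ (Fin.rev i : ℕ) * e 1))).2 ⟨?_, ?_⟩
          · change S * S ^ 0 * e 1 = ((1 : ℤ) : k) • (S ^ 1 * e 1)
            rw [Int.cast_one, one_smul, pow_zero, pow_one, mul_one]
          · change S * S ^ 1 * e 1 = ((1 : ℤ) : k) • (S ^ 0 * e 1)
            rw [Int.cast_one, one_smul, pow_zero, pow_one, hSS])
        (by
          refine (Fin.forall_fin_two (p := fun i : Fin 2 => e 1 * S ^ (i : ℕ) * Rp 1 =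
            om ω (1 * (1 - 2 * ((i : ℕ) : ZMod 5))) • (e 1 * S ^ (i : ℕ)))).2 ⟨?_, ?_⟩
          · change e 1 * S ^ 0 * Rp 1 = om ω (1 * (1 - 2 * ((0 : ℕ) : ZMod 5))) • (e 1 * S ^ 0)
            rw [pow_zero, mul_one, heR, Nat.cast_zero, mul_zero, sub_zero, mul_one]
          · change e 1 * S ^ 1 * Rp 1 = om ω (1 * (1 - 2 * ((1 : ℕ) : ZMod 5))) • (e 1 * S ^ 1)
            rw [pow_one, mul_assoc, hS, ← mul_assoc, heR', smul_mul_assoc]
            rfl)
        (by
          refine (Fin.forall_fin_two (p := fun i : Fin 2 => e 1 * S ^ (i : ℕ) * S =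
            ((1 : ℤ) : k) • (e 1 * S ^ (Fin.rev i : ℕ)))).2 ⟨?_, ?_⟩
          · change e 1 * S ^ 0 * S = ((1 : ℤ) : k) • (e 1 * S ^ 1)
            rw [Int.cast_one, one_smul, pow_zero, pow_one, mul_one]
          · change e 1 * S ^ 1 * S = ((1 : ℤ) : k) • (e 1 * S ^ 0)
            rw [Int.cast_one, one_smul, pow_zero, pow_one, mul_assoc, hSS])
        (by
          have h14 : ∀ i j : Fin 2, e 1 * S ^ (i : ℕ) * (S ^ (j : ℕ) * e 1) =
              if i = j then e 1 else 0 := by
            rw [Fin.forall_fin_two]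
            simp only [Fin.forall_fin_two]
            refine ⟨⟨?_, ?_⟩, ⟨?_, ?_⟩⟩
            · change e 1 * S ^ 0 * (S ^ 0 * e 1) = e 1
              rw [pow_zero, mul_one, one_mul, hPP]
            · change e 1 * S ^ 0 * (S ^ 1 * e 1) = 0
              rw [pow_zero, mul_one, pow_one, ← mul_assoc, hPS]
            · change e 1 * S ^ 1 * (S ^ 0 * e 1) = 0
              rw [pow_zero, one_mul, pow_one, hPS]
            · change e 1 * S ^ 1 * (S ^ 1 * e 1) = e 1
              rw [pow_one, ← mul_assoc, mul_assoc (e 1), hSS, mul_one, hPP]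
          exact h14)
      refine ⟨m, φ, ψ, hh1, hh2, hh3.trans ?_⟩
      change ∑ i : Fin 2, S ^ (i : ℕ) * e 1 * S ^ (i : ℕ) = e 1 + e (-1)
      rw [Fin.sum_univ_two]
      change S ^ 0 * e 1 * S ^ 0 + S ^ 1 * e 1 * S ^ 1 = _
      rw [pow_zero, pow_one, one_mul, mul_one, hSe, mul_assoc, hSS, mul_one]
    · have hPP : e 2 * e 2 = e 2 := by rw [hee, if_pos rfl]
      have hPS : e 2 * S * e 2 = 0 := by
        rw [mul_assoc, hSe, ← mul_assoc, hee, if_neg (by decide), zero_mul]
      have hRS : Rp 1 * S = S * Rp (-1) := by rw [hS, neg_neg]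
      obtain ⟨m, φ, ψ, hh1, hh2, hh3⟩ := exists_piece hω W 3 (e 2) hPP
        (by
          refine (Fin.forall_fin_two (p := fun i : Fin 2 => Rp 1 * S ^ (i : ℕ) * e 2 =
            om ω (2 * (1 - 2 * ((i : ℕ) : ZMod 5))) • (S ^ (i : ℕ) * e 2))).2 ⟨?_, ?_⟩
          · change Rp 1 * S ^ 0 * e 2 = om ω (2 * (1 - 2 * ((0 : ℕ) : ZMod 5))) • (S ^ 0 * e 2)
            rw [pow_zero, mul_one, hRe]
            simp
          · change Rp 1 * S ^ 1 * e 2 = om ω (2 * (1 - 2 * ((1 : ℕ) : ZMod 5))) • (S ^ 1 * e 2)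
            rw [pow_one, hRS, mul_assoc, hRe', mul_smul_comm]
            rfl)
        (by
          refine (Fin.forall_fin_two (p := fun i : Fin 2 => S * S ^ (i : ℕ) * e 2 =
            ((1 : ℤ) : k) • (S ^ (Fin.rev i : ℕ) * e 2))).2 ⟨?_, ?_⟩
          · change S * S ^ 0 * e 2 = ((1 : ℤ) : k) • (S ^ 1 * e 2)
            rw [Int.cast_one, one_smul, pow_zero, pow_one, mul_one]
          · change S * S ^ 1 * e 2 = ((1 : ℤ) : k) • (S ^ 0 * e 2)
            rw [Int.cast_one, one_smul, pow_zero, pow_one, hSS])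
        (by
          refine (Fin.forall_fin_two (p := fun i : Fin 2 => e 2 * S ^ (i : ℕ) * Rp 1 =
            om ω (2 * (1 - 2 * ((i : ℕ) : ZMod 5))) • (e 2 * S ^ (i : ℕ)))).2 ⟨?_, ?_⟩
          · change e 2 * S ^ 0 * Rp 1 = om ω (2 * (1 - 2 * ((0 : ℕ) : ZMod 5))) • (e 2 * S ^ 0)
            rw [pow_zero, mul_one, heR, Nat.cast_zero, mul_zero, sub_zero, mul_one]
          · change e 2 * S ^ 1 * Rp 1 = om ω (2 * (1 - 2 * ((1 : ℕ) : ZMod 5))) • (e 2 * S ^ 1)
            rw [pow_one, mul_assoc, hS, ← mul_assoc, heR', smul_mul_assoc]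
            rfl)
        (by
          refine (Fin.forall_fin_two (p := fun i : Fin 2 => e 2 * S ^ (i : ℕ) * S =
            ((1 : ℤ) : k) • (e 2 * S ^ (Fin.rev i : ℕ)))).2 ⟨?_, ?_⟩
          · change e 2 * S ^ 0 * S = ((1 : ℤ) : k) • (e 2 * S ^ 1)
            rw [Int.cast_one, one_smul, pow_zero, pow_one, mul_one]
          · change e 2 * S ^ 1 * S = ((1 : ℤ) : k) • (e 2 * S ^ 0)
            rw [Int.cast_one, one_smul, pow_zero, pow_one, mul_assoc, hSS])
        (by
          have h14 : ∀ i j : Fin 2, e 2 * S ^ (i : ℕ) * (S ^ (j : ℕ) * e 2) =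
              if i = j then e 2 else 0 := by
            rw [Fin.forall_fin_two]
            simp only [Fin.forall_fin_two]
            refine ⟨⟨?_, ?_⟩, ⟨?_, ?_⟩⟩
            · change e 2 * S ^ 0 * (S ^ 0 * e 2) = e 2
              rw [pow_zero, mul_one, one_mul, hPP]
            · change e 2 * S ^ 0 * (S ^ 1 * e 2) = 0
              rw [pow_zero, mul_one, pow_one, ← mul_assoc, hPS]
            · change e 2 * S ^ 1 * (S ^ 0 * e 2) = 0
              rw [pow_zero, one_mul, pow_one, hPS]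
            · change e 2 * S ^ 1 * (S ^ 1 * e 2) = e 2
              rw [pow_one, ← mul_assoc, mul_assoc (e 2), hSS, mul_one, hPP]
          exact h14)
      refine ⟨m, φ, ψ, hh1, hh2, hh3.trans ?_⟩
      change ∑ i : Fin 2, S ^ (i : ℕ) * e 2 * S ^ (i : ℕ) = e 2 + e (-2)
      rw [Fin.sum_univ_two]
      change S ^ 0 * e 2 * S ^ 0 + S ^ 1 * e 2 * S ^ 1 = _
      rw [pow_zero, pow_one, one_mul, mul_one, hSe, mul_assoc, hSS, mul_one]
  choose m φ ψ h1 h2 h3 using hpc
  refine ⟨Σ a : Fin 4, Fin (m a), inferInstance, inferInstance, Sigma.fst, fun i => φ i.1 i.2,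
    fun i => ψ i.1 i.2, fun i => h1 i.1 i.2, ?_, ?_⟩
  · rintro ⟨a, i⟩ ⟨b, j⟩ hij
    rcases eq_or_ne a b with hab | hab
    · subst hab
      apply h2 a i j
      rintro rfl
      exact hij rfl
    · exact rhoF_hom_eq_zero hω hω1 hab _
  · apply flin_injective
    rw [flin_sum, Fintype.sum_sigma]
    simp_rw [h3]
    rw [flin_id]
    have h4 : (∑ x, e x) = e 0 + e 1 + e (-1) + e 2 + e (-2) := by
      have : (Finset.univ : Finset (ZMod 5)) = {0, 1, -1, 2, -2} := by decide
      rw [this]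
      rw [Finset.sum_insert (by decide), Finset.sum_insert (by decide),
        Finset.sum_insert (by decide), Finset.sum_insert (by decide), Finset.sum_singleton]
      abel
    rw [Fin.sum_univ_four]
    change -(e 0 * (1 + S)) + -(e 0 * (1 - S)) + (e 1 + e (-1)) + (e 2 + e (-2)) = 1
    rw [mul_add, mul_sub, mul_one, ← hsum, h4]
    have h5 := h3' (e 0)
    have h6 : -(e 0 + e 0 * S) + -(e 0 - e 0 * S) + (e 1 + e (-1)) + (e 2 + e (-2)) +
        (e 0 + e 0 + e 0) = e 0 + e 1 + e (-1) + e 2 + e (-2) := by abel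
    rw [h5, add_zero] at h6
    exact h6

end Pool.Agent.H29.BC
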