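import Pool.Agent.H29.BC.Chart

/-!
# The irreducible representations of the dihedral group of order ten
-/

open CategoryTheory MonoidalCategory

universe u

namespace Pool.Agent.H29.BC

variable {k : Type u} [Field k]

/-- The dihedral group of order ten. -/
abbrev D5 := DihedralGroup 5

/-- Construct a morphism of representations of the dihedral group from a linear map commuting with
the two generators. -/
def mkHom {W W' : FDRep k D5} (f : W →ₗ[k] W')
    (hr : ∀ v, f (W.ρ (DihedralGroup.r 1) v) = W'.ρ (DihedralGroup.r 1) (f v))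
    (hs : ∀ v, f (W.ρ (DihedralGroup.sr 0) v) = W'.ρ (DihedralGroup.sr 0) (f v)) : W ⟶ W' where
  hom := InducedCategory.homMk (ModuleCat.ofHom f)
  comm g := by
    have hr' : ∀ n : ℕ, ∀ v, f (W.ρ (DihedralGroup.r (n : ZMod 5)) v) =
        W'.ρ (DihedralGroup.r (n : ZMod 5)) (f v) := by
      intro n
      induction n with
      | zero => intro v; simp
      | succ n ih =>
        intro v
        have h : (DihedralGroup.r ((n + 1 : ℕ) : ZMod 5) : D5) =
            DihedralGroup.r 1 * DihedralGroup.r (n : ZMod 5) := by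
          rw [DihedralGroup.r_mul_r, Nat.cast_succ, add_comm]
        rw [h, map_mul, map_mul, Module.End.mul_apply, Module.End.mul_apply, hr, ih]
    have hr'' : ∀ j : ZMod 5, ∀ v, f (W.ρ (DihedralGroup.r j) v) =
        W'.ρ (DihedralGroup.r j) (f v) := by
      intro j
      have := hr' j.val
      rwa [ZMod.natCast_zmod_val] at this
    have hg : ∀ v, f (W.ρ g v) = W'.ρ g (f v) := by
      rcases g with j | j
      · exact hr'' j
      · intro v
        have h : (DihedralGroup.sr j : D5) = DihedralGroup.sr 0 * DihedralGroup.r j := by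
          rw [DihedralGroup.sr_mul_r, zero_add]
        rw [h, map_mul, map_mul, Module.End.mul_apply, Module.End.mul_apply, hs, hr'']
    apply InducedCategory.hom_ext
    apply ModuleCat.hom_ext
    exact LinearMap.ext hg

@[simp] theorem flin_mkHom {W W' : FDRep k D5} (f : W →ₗ[k] W') (hr) (hs) :
    flin (mkHom f hr hs) = f := rfl

theorem flin_comm {G : Type} [Group G] {W W' : FDRep k G} (φ : W ⟶ W') (g : G) (v : W) :
    flin φ (W.ρ g v) = W'.ρ g (flin φ v) := by
  have h := congrArg (fun t => t.hom.hom v) (φ.comm g)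
  exact h

/-- The dimensions of the four irreducible representations. -/
def dJ : Fin 4 → ℕ := ![1, 1, 2, 2]

/-- The weight of a basis vector. -/
def wt (a : Fin 4) (i : Fin (dJ a)) : ZMod 5 :=
  (![0, 0, 1, 2] : Fin 4 → ZMod 5) a * (1 - 2 * ((i : ℕ) : ZMod 5))

/-- The sign of the reflection. -/
def sgn (a : Fin 4) : ℤ := (![1, -1, 1, 1] : Fin 4 → ℤ) a

theorem wt_rev : ∀ (a : Fin 4) (i : Fin (dJ a)), wt a (Fin.rev i) = - wt a i := by
  decide

theorem sgn_mul_self : ∀ a : Fin 4, sgn a * sgn a = 1 := by decide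

/-- Powers of `ω` indexed by `ℤ/5`. -/
def om (ω : k) (x : ZMod 5) : k := ω ^ x.val

theorem om_zero (ω : k) : om ω 0 = 1 := by simp [om]

theorem om_add {ω : k} (hω : ω ^ 5 = 1) (x y : ZMod 5) : om ω (x + y) = om ω x * om ω y := by
  unfold om
  rw [← pow_add, ZMod.val_add, ← Nat.mod_add_div (x.val + y.val) 5, pow_add ω _ (5 * _), pow_mul,
    hω, one_pow, mul_one, Nat.mod_add_div]

/-- The action of a rotation. -/
def rotL (ω : k) (a : Fin 4) (j : ZMod 5) : Module.End k (Fin (dJ a) → k) where
  toFun v := fun i => om ω (wt a i * j) * v i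
  map_add' v w := by
    funext i
    simp [mul_add]
  map_smul' c v := by
    funext i
    simp only [Pi.smul_apply, smul_eq_mul, RingHom.id_apply]
    ring

/-- The action of a reflection. -/
def refL (a : Fin 4) : Module.End k (Fin (dJ a) → k) where
  toFun v := fun i => (sgn a : k) * v (Fin.rev i)
  map_add' v w := by
    funext i
    simp [mul_add]
  map_smul' c v := by
    funext i
    simp only [Pi.smul_apply, smul_eq_mul, RingHom.id_apply]
    ring

@[simp] theorem rotL_apply (ω : k) (a : Fin 4) (j : ZMod 5) (v : Fin (dJ a) → k)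
    (i : Fin (dJ a)) : rotL ω a j v i = om ω (wt a i * j) * v i := rfl

@[simp] theorem refL_apply (a : Fin 4) (v : Fin (dJ a) → k)
    (i : Fin (dJ a)) : refL a v i = (sgn a : k) * v (Fin.rev i) := rfl

theorem rotL_zero (ω : k) (a : Fin 4) : rotL ω a 0 = 1 := by
  refine LinearMap.ext fun v => funext fun i => ?_
  rw [rotL_apply, mul_zero, om_zero, one_mul]
  rfl

theorem rotL_add {ω : k} (hω : ω ^ 5 = 1) (a : Fin 4) (j j' : ZMod 5) :
    rotL ω a (j + j') = rotL ω a j * rotL ω a j' := by
  refine LinearMap.ext fun v => funext fun i => ?_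
  rw [Module.End.mul_apply, rotL_apply, rotL_apply, rotL_apply, mul_add, om_add hω, mul_assoc]

theorem refL_mul_self (a : Fin 4) : (refL a * refL a : Module.End k (Fin (dJ a) → k)) = 1 := by
  refine LinearMap.ext fun v => funext fun i => ?_
  have h : ((sgn a : ℤ) : k) * (sgn a : k) = 1 := by
    rw [← Int.cast_mul, sgn_mul_self, Int.cast_one]
  rw [Module.End.mul_apply, refL_apply, refL_apply, Fin.rev_rev, ← mul_assoc, h, one_mul]
  rfl

theorem rotL_mul_refL (ω : k) (a : Fin 4) (j : ZMod 5) :
    rotL ω a j * refL a = refL a * rotL ω a (-j) := by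
  refine LinearMap.ext fun v => funext fun i => ?_
  rw [Module.End.mul_apply, Module.End.mul_apply, rotL_apply, refL_apply, refL_apply, rotL_apply,
    wt_rev, neg_mul_neg]
  ring

/-- The irreducible representations `ρ_0 = 1`, `ρ_1 = sgn`, `ρ_2`, `ρ_3`. -/
def rho {ω : k} (hω : ω ^ 5 = 1) (a : Fin 4) : Representation k D5 (Fin (dJ a) → k) where
  toFun g := match g with
    | DihedralGroup.r j => rotL ω a j
    | DihedralGroup.sr j => refL a * rotL ω a j
  map_one' := rotL_zero ω a
  map_mul' g h := by
    rcases g with j | j <;> rcases h with l | l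
    · rw [DihedralGroup.r_mul_r]
      exact rotL_add hω a j l
    · rw [DihedralGroup.r_mul_sr]
      change refL a * rotL ω a (l - j) = rotL ω a j * (refL a * rotL ω a l)
      rw [← mul_assoc, rotL_mul_refL, mul_assoc, ← rotL_add hω, neg_add_eq_sub]
    · rw [DihedralGroup.sr_mul_r]
      change refL a * rotL ω a (j + l) = refL a * rotL ω a j * rotL ω a l
      rw [mul_assoc, ← rotL_add hω]
    · rw [DihedralGroup.sr_mul_sr]
      change rotL ω a (l - j) = refL a * rotL ω a j * (refL a * rotL ω a l)
      rw [mul_assoc, ← mul_assoc (rotL ω a j), rotL_mul_refL, mul_assoc (refL a), ← rotL_add hω,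
        ← mul_assoc, refL_mul_self, one_mul, neg_add_eq_sub]

/-- The irreducible representations, as objects of `FDRep`. -/
noncomputable def rhoF {ω : k} (hω : ω ^ 5 = 1) (a : Fin 4) : FDRep k D5 := FDRep.of (rho hω a)

theorem rhoF_r {ω : k} (hω : ω ^ 5 = 1) (a : Fin 4) (j : ZMod 5) (v : Fin (dJ a) → k)
    (i : Fin (dJ a)) :
    ((rhoF hω a).ρ (DihedralGroup.r j) v : Fin (dJ a) → k) i = om ω (wt a i * j) * v i := rfl

theorem rhoF_s {ω : k} (hω : ω ^ 5 = 1) (a : Fin 4) (v : Fin (dJ a) → k) (i : Fin (dJ a)) :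
    ((rhoF hω a).ρ (DihedralGroup.sr 0) v : Fin (dJ a) → k) i = (sgn a : k) * v (Fin.rev i) := by
  have h : rho hω a (DihedralGroup.sr 0) = refL a * rotL ω a 0 := rfl
  rw [rotL_zero, mul_one] at h
  exact congrFun (LinearMap.congr_fun h v) i

end Pool.Agent.H29.BC
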