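import Pool.Agent.H29.BC.Semi

/-!
# Job BC-ESS: the essential image of a fully faithful tensor functor contains `𝒟(V)`

Fill the sorry in `ess_image`.

Let `F : FDRep k G ⥤ Semi k p r s` be fully faithful, additive and (strong) monoidal, and
`F.obj W₀ ≅ V`.  Claim: every `X` in `𝒟(V)` (i.e. `InGenerated V X`) is isomorphic to some
`F.obj W`.  Induction on the inductive predicate `InGenerated`:

* `base`: `W₀`.
* `unit`: `𝟙_`, by `Functor.Monoidal.εIso F`.
* `tensor`: `W ⊗ W'`, by `Functor.Monoidal.μIso F W W'` and `MonoidalCategory.tensorIso`.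
* `dual`: let `F.obj W ≅ A` and let `A, B` be an exact pairing.  `FDRep k G` is rigid, so there is
  an exact pairing of `W` and `Wᘁ`; the functor `F` maps it to an exact pairing of `F.obj W` and
  `F.obj Wᘁ` (if Mathlib has no such construction: unit `ε ≫ F.map (η_ W Wᘁ) ≫ δ`, counit
  `μ ≫ F.map (ε_ W Wᘁ) ≫ η`), transport it along the isomorphism to an exact pairing of `A` and
  `F.obj Wᘁ`; `rightDualIso` gives `B ≅ F.obj Wᘁ`.
* `sum`: let `F.obj W₁ ≅ A`, `F.obj W₂ ≅ B`, `i₁, i₂, p₁, p₂` as in the constructor.  From the three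
  relations `i₁ ≫ p₂ = 0` and `i₂ ≫ p₁ = 0` follow.  Take `W = W₁ ⊞ W₂` (`FDRep k G` is preadditive
  with finite limits, so `HasBinaryBiproducts.of_hasBinaryProducts`; or build the product of the
  two representations by hand) and check that
  `F.map biprod.fst ≫ e₁ ≫ i₁ + F.map biprod.snd ≫ e₂ ≫ i₂ : F.obj W ⟶ S` is an isomorphism with
  inverse `p₁ ≫ e₁⁻¹ ≫ F.map biprod.inl + p₂ ≫ e₂⁻¹ ≫ F.map biprod.inr`.
* `summand`: let `F.obj W ≅ B` (isomorphism `e`), `i : A ⟶ B`, `q : B ⟶ A`, `i ≫ q = 𝟙`.  The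
  idempotent `e.hom ≫ q ≫ i ≫ e.inv` of `F.obj W` is `F.map t` for some `t : W ⟶ W`, and `t ≫ t = t`
  by faithfulness.  `t` splits in `FDRep k G` (`IsIdempotentComplete`, from kernels:
  `CategoryTheory.Idempotents`, `isIdempotentComplete_iff_hasEqualizer_of_id_and_idempotent` or
  `isIdempotentComplete_iff_idempotents_have_kernels`): `a : Y ⟶ W`, `b : W ⟶ Y`, `a ≫ b = 𝟙`,
  `b ≫ a = t`.  Then `F.map a ≫ e.hom ≫ q : F.obj Y ⟶ A` is an isomorphism with inverse
  `i ≫ e.inv ≫ F.map b`.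
-/

open CategoryTheory MonoidalCategory
open scoped TensorProduct

universe u

namespace Pool.Agent.H29.BC

section Ess_general

open Functor.LaxMonoidal Functor.OplaxMonoidal

variable {C : Type*} [Category C] {D : Type*} [Category D]

theorem Ess_pair1 [MonoidalCategory C] [MonoidalCategory D] (F : C ⥤ D) [F.Monoidal] (X Y : C)
    [ExactPairing X Y] :
    F.obj Y ◁ (ε F ≫ F.map (η_ X Y) ≫ δ F X Y) ≫ (α_ (F.obj Y) (F.obj X) (F.obj Y)).inv ≫
      (μ F Y X ≫ F.map (ε_ X Y) ≫ η F) ▷ F.obj Y = (ρ_ (F.obj Y)).hom ≫ (λ_ (F.obj Y)).inv := by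
  have h := congrArg F.map (ExactPairing.coevaluation_evaluation X Y)
  simp only [Functor.map_comp, Functor.Monoidal.map_whiskerLeft, Functor.Monoidal.map_whiskerRight,
    Functor.Monoidal.map_associator_inv, Functor.Monoidal.map_rightUnitor,
    Functor.Monoidal.map_leftUnitor_inv, Category.assoc, Functor.Monoidal.μ_δ_assoc] at h
  have h1 := congrArg (fun f => F.obj Y ◁ ε F ≫ μ F Y (𝟙_ C) ≫ f ≫ δ F (𝟙_ C) Y ≫ η F ▷ F.obj Y) h
  simp only [Category.assoc, Functor.Monoidal.μ_δ_assoc] at h1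
  simp only [MonoidalCategory.whiskerLeft_comp, MonoidalCategory.comp_whiskerRight,
    Category.assoc]
  rw [h1]
  rw [← MonoidalCategory.whiskerLeft_comp_assoc, Functor.Monoidal.ε_η,
    MonoidalCategory.whiskerLeft_id, Category.id_comp, ← MonoidalCategory.comp_whiskerRight,
    Functor.Monoidal.ε_η, MonoidalCategory.id_whiskerRight, Category.comp_id]

theorem Ess_pair2 [MonoidalCategory C] [MonoidalCategory D] (F : C ⥤ D) [F.Monoidal] (X Y : C)
    [ExactPairing X Y] :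
    (ε F ≫ F.map (η_ X Y) ≫ δ F X Y) ▷ F.obj X ≫ (α_ (F.obj X) (F.obj Y) (F.obj X)).hom ≫
      F.obj X ◁ (μ F Y X ≫ F.map (ε_ X Y) ≫ η F) = (λ_ (F.obj X)).hom ≫ (ρ_ (F.obj X)).inv := by
  have h := congrArg F.map (ExactPairing.evaluation_coevaluation X Y)
  simp only [Functor.map_comp, Functor.Monoidal.map_whiskerLeft, Functor.Monoidal.map_whiskerRight,
    Functor.Monoidal.map_associator, Functor.Monoidal.map_leftUnitor,
    Functor.Monoidal.map_rightUnitor_inv, Category.assoc, Functor.Monoidal.μ_δ_assoc] at h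
  have h1 := congrArg (fun f => ε F ▷ F.obj X ≫ μ F (𝟙_ C) X ≫ f ≫ δ F X (𝟙_ C) ≫ F.obj X ◁ η F) h
  simp only [Category.assoc, Functor.Monoidal.μ_δ_assoc] at h1
  simp only [MonoidalCategory.whiskerLeft_comp, MonoidalCategory.comp_whiskerRight,
    Category.assoc]
  rw [h1]
  rw [← MonoidalCategory.comp_whiskerRight_assoc, Functor.Monoidal.ε_η,
    MonoidalCategory.id_whiskerRight, Category.id_comp, ← MonoidalCategory.whiskerLeft_comp,
    Functor.Monoidal.ε_η, MonoidalCategory.whiskerLeft_id, Category.comp_id]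

/-- a monoidal functor maps exact pairings to exact pairings -/
@[implicit_reducible] def Ess_pair [MonoidalCategory C] [MonoidalCategory D] (F : C ⥤ D) [F.Monoidal] (X Y : C)
    [ExactPairing X Y] : ExactPairing (F.obj X) (F.obj Y) where
  coevaluation' := ε F ≫ F.map (η_ X Y) ≫ δ F X Y
  evaluation' := μ F Y X ≫ F.map (ε_ X Y) ≫ η F
  coevaluation_evaluation' := Ess_pair1 F X Y
  evaluation_coevaluation' := Ess_pair2 F X Y

theorem Ess_sum [Preadditive C] [Limits.HasBinaryBiproducts C] [Preadditive D] (F : C ⥤ D)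
    [F.Additive] {A B S : D} (i₁ : A ⟶ S) (i₂ : B ⟶ S) (p₁ : S ⟶ A) (p₂ : S ⟶ B)
    (h1 : i₁ ≫ p₁ = 𝟙 A) (h2 : i₂ ≫ p₂ = 𝟙 B) (h3 : p₁ ≫ i₁ + p₂ ≫ i₂ = 𝟙 S) {W₁ W₂ : C}
    (e₁ : F.obj W₁ ≅ A) (e₂ : F.obj W₂ ≅ B) : Nonempty (F.obj (W₁ ⊞ W₂) ≅ S) := by
  have h12 : i₁ ≫ p₂ = 0 := by
    have h := congrArg (fun f => i₁ ≫ f ≫ p₂) h3
    simp only [Preadditive.add_comp, Preadditive.comp_add, Category.assoc, Category.id_comp, h2,
      Category.comp_id] at h
    rw [← Category.assoc i₁ p₁, h1, Category.id_comp] at h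
    exact left_eq_add.1 h.symm
  have h21 : i₂ ≫ p₁ = 0 := by
    have h := congrArg (fun f => i₂ ≫ f ≫ p₁) h3
    simp only [Preadditive.add_comp, Preadditive.comp_add, Category.assoc, Category.id_comp, h1,
      Category.comp_id] at h
    rw [← Category.assoc i₂ p₂, h2, Category.id_comp] at h
    exact right_eq_add.1 h.symm
  refine ⟨{ hom := F.map Limits.biprod.fst ≫ e₁.hom ≫ i₁ + F.map Limits.biprod.snd ≫ e₂.hom ≫ i₂
            inv := p₁ ≫ e₁.inv ≫ F.map Limits.biprod.inl + p₂ ≫ e₂.inv ≫ F.map Limits.biprod.inr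
            hom_inv_id := ?_
            inv_hom_id := ?_ }⟩
  · simp only [Preadditive.add_comp, Preadditive.comp_add, Category.assoc]
    rw [← Category.assoc i₁ p₁, h1, ← Category.assoc i₂ p₂, h2, ← Category.assoc i₁ p₂, h12,
      ← Category.assoc i₂ p₁, h21]
    simp only [Category.id_comp, Limits.zero_comp, Limits.comp_zero, add_zero, zero_add,
      Iso.hom_inv_id_assoc]
    rw [← F.map_comp, ← F.map_comp, ← F.map_add, Limits.biprod.total, F.map_id]
  · simp only [Preadditive.add_comp, Preadditive.comp_add, Category.assoc]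
    simp only [← F.map_comp_assoc, Limits.biprod.inl_fst, Limits.biprod.inl_snd,
      Limits.biprod.inr_fst, Limits.biprod.inr_snd, F.map_id, F.map_zero, Category.id_comp,
      Limits.zero_comp, Limits.comp_zero, add_zero, zero_add, Iso.inv_hom_id_assoc]
    exact h3

theorem Ess_summand [IsIdempotentComplete C] (F : C ⥤ D) [F.Full] [F.Faithful]
    {A B : D} (i : A ⟶ B) (q : B ⟶ A) (h : i ≫ q = 𝟙 A) {W : C} (e : F.obj W ≅ B) :
    ∃ Y : C, Nonempty (F.obj Y ≅ A) := by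
  have ht : F.map (F.preimage (e.hom ≫ q ≫ i ≫ e.inv)) = e.hom ≫ q ≫ i ≫ e.inv :=
    F.map_preimage _
  generalize F.preimage (e.hom ≫ q ≫ i ≫ e.inv) = t at ht
  have htt : t ≫ t = t := by
    apply F.map_injective
    rw [F.map_comp, ht]
    simp only [Category.assoc, Iso.inv_hom_id_assoc]
    rw [← Category.assoc i q, h, Category.id_comp]
  obtain ⟨Y, a, b, hab, hba⟩ := IsIdempotentComplete.idempotents_split W t htt
  refine ⟨Y, ⟨{ hom := F.map a ≫ e.hom ≫ q
                inv := i ≫ e.inv ≫ F.map b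
                hom_inv_id := ?_
                inv_hom_id := ?_ }⟩⟩
  · have h1 : (F.map a ≫ e.hom ≫ q) ≫ i ≫ e.inv ≫ F.map b =
        F.map a ≫ (e.hom ≫ q ≫ i ≫ e.inv) ≫ F.map b := by simp only [Category.assoc]
    rw [h1, ← ht, ← F.map_comp, ← F.map_comp, ← hba]
    have h2 : a ≫ (b ≫ a) ≫ b = 𝟙 Y := by
      rw [Category.assoc, ← Category.assoc a b, hab, Category.id_comp]
    rw [h2, F.map_id]
  · have h1 : (i ≫ e.inv ≫ F.map b) ≫ F.map a ≫ e.hom ≫ q =
        i ≫ e.inv ≫ F.map (b ≫ a) ≫ e.hom ≫ q := by simp only [Category.assoc, F.map_comp]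
    rw [h1, hba, ht]
    simp only [Category.assoc, Iso.inv_hom_id_assoc]
    rw [← Category.assoc i q, h, Category.id_comp]

end Ess_general

variable {k : Type u} [Field k] {p r s : ℕ} [CharP k p] [Fact p.Prime] {G : Type} [Group G]

theorem ess_image (F : FDRep k G ⥤ Semi k p r s) [F.Additive] [F.Full] [F.Faithful] [F.Monoidal]
    (V : Semi k p r s) (W₀ : FDRep k G) (i₀ : F.obj W₀ ≅ V) {X : Semi k p r s}
    (hX : InGenerated V X) : ∃ W : FDRep k G, Nonempty (F.obj W ≅ X) := by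
  induction hX with
  | base => exact ⟨W₀, ⟨i₀⟩⟩
  | unit => exact ⟨𝟙_ _, ⟨(Functor.Monoidal.εIso F).symm⟩⟩
  | tensor _ _ ih1 ih2 =>
    obtain ⟨W₁, ⟨e₁⟩⟩ := ih1
    obtain ⟨W₂, ⟨e₂⟩⟩ := ih2
    exact ⟨W₁ ⊗ W₂, ⟨(Functor.Monoidal.μIso F W₁ W₂).symm ≪≫ tensorIso e₁ e₂⟩⟩
  | dual _ hp ih =>
    obtain ⟨W, ⟨e⟩⟩ := ih
    obtain ⟨hp⟩ := hp
    have p1 := @exactPairingCongrLeft _ _ _ _ _ _ hp e
    have p2 := Ess_pair F W (Wᘁ)
    exact ⟨Wᘁ, ⟨rightDualIso p2 p1⟩⟩
  | sum i₁ i₂ p₁ p₂ h1 h2 h3 _ _ ih1 ih2 =>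
    obtain ⟨W₁, ⟨e₁⟩⟩ := ih1
    obtain ⟨W₂, ⟨e₂⟩⟩ := ih2
    exact ⟨_, Ess_sum F i₁ i₂ p₁ p₂ h1 h2 h3 e₁ e₂⟩
  | summand i q h _ ih =>
    obtain ⟨W, ⟨e⟩⟩ := ih
    exact Ess_summand F i q h e

end Pool.Agent.H29.BC
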