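import Pool.Agent.H29.BC.Fun

/-!
# Job BC-GEN: objects with an `Ok` chart lie in the generated subcategory

Fill the two sorries.

`gen_of_ok`.  Let `A` be an `Ok` chart with data `n, c, f, g, φ, ψ`.  Put `N i := (B.S (c i)).M`.

Step 1.  `∑ i, cl (g i) ≫ cl (f i) = 𝟙 (bar A.M)` in the semisimplification: the morphism
`∑ i, g i ≫ f i - 𝟙` is related (`Chart.Rel`) to `∑ ψ i ≫ φ i - 𝟙 W = 0`, so it is negligible by
`Ok.negligible_iff`; `cl` is additive (it is the additive functor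
`(Quotient.functor (neglRel k 3 1 1)).map`; instance in `Semi.lean`).  Or use `SRel` of `Fun.lean`:
`SRel.unique` with `SRel.comp`, `SRel.add`, `SRel.id`.

Step 2.  Claim: for every `Finset` `s` of indices (or every list, or every `m` with the index type
`Fin m`) there are an object `D` of `Semi k 3 1 1` of the form `bar D'` with `InGenerated V D` and
morphisms `F : D ⟶ bar A.M`, `H : bar A.M ⟶ D` with `H ≫ F = ∑ i ∈ s, cl (g i) ≫ cl (f i)`.
Induction: for `s = ∅` take `D = 𝟙_` (which is `bar (𝟙_ (AlphaRep k 3 1 1))`, or `D = V`) and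
`F = 0`, `H = 0`.  For `insert i s`: the binary direct sum `P` of `D'` and `N i` in `AlphaRep`
(carrier `D'.carrier × (N i).carrier`, operators `LinearMap.prodMap`) has inclusions and
projections `i₁, i₂, p₁, p₂` with `i₁ ≫ p₁ = 𝟙`, `i₂ ≫ p₂ = 𝟙`, `i₁ ≫ p₂ = 0`, `i₂ ≫ p₁ = 0`,
`p₁ ≫ i₁ + p₂ ≫ i₂ = 𝟙`; apply `cl`.  `InGenerated.sum` gives `InGenerated V (bar P)`.  Put
`F' = p₁ ≫ F + p₂ ≫ f i`, `H' = H ≫ i₁ + g i ≫ i₂`; then `H' ≫ F' = H ≫ F + g i ≫ f i`.

Step 3.  With `s = univ`: `H ≫ F = 𝟙 (bar A.M)`; `InGenerated.summand`.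

`retract_of_hom`.  Let `A` be `Ok` with data as above, `φ₀ : B.ρ a ⟶ W` nonzero.
`φ₀ = ∑ i, φ₀ ≫ ψ i ≫ φ i`, so `φ₀ ≫ ψ i ≠ 0` for some `i`.  By `B.nondeg` there is
`χ : B.ρ (c i) ⟶ B.ρ a` such that `φ₀ ≫ ψ i ≫ χ` has nonzero trace; by `hsch` it is `c • 𝟙`, and
`c ≠ 0`.  Put `ψ₀ := c⁻¹ • (ψ i ≫ χ) : W ⟶ B.ρ a`, so `φ₀ ≫ ψ₀ = 𝟙`.  The base chart `B.S a` is
`Ok` (take `n = Unit`, identity morphisms), so `SRel.exists_real` gives
`F : bar (B.S a).M ⟶ bar A.M` over `φ₀` and `H` over `ψ₀`, and `F ≫ H = 𝟙` by `SRel.unique`.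
-/

open CategoryTheory MonoidalCategory
open scoped TensorProduct

universe u

namespace Pool.Agent.H29.BC

open AlphaRep

variable {k : Type u} [Field k] [CharP k 3] {G : Type} [Group G]

theorem gen_prodMap_pow {V W : Type u} [AddCommGroup V] [Module k V] [AddCommGroup W]
    [Module k W] (a : Module.End k V) (b : Module.End k W) (m : ℕ) :
    (LinearMap.prodMap a b : Module.End k (V × W)) ^ m =
      (LinearMap.prodMap (a ^ m) (b ^ m) : Module.End k (V × W)) := by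
  induction m with
  | zero =>
    rw [pow_zero, pow_zero, pow_zero]
    exact LinearMap.prodMap_one.symm
  | succ m ih =>
    rw [pow_succ, pow_succ, pow_succ, ih]
    exact (LinearMap.prodMap_mul _ _ _ _).symm

/-- The direct sum of two representations. -/
def genSum (M N : AlphaRep k 3 1 1) : AlphaRep k 3 1 1 where
  carrier := M.carrier × N.carrier
  x := LinearMap.prodMap M.x N.x
  y := LinearMap.prodMap M.y N.y
  comm := by
    change (LinearMap.prodMap M.x N.x : Module.End k (M.carrier × N.carrier)) *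
      LinearMap.prodMap M.y N.y = LinearMap.prodMap M.y N.y * LinearMap.prodMap M.x N.x
    have h1 := LinearMap.prodMap_mul M.x M.y N.x N.y
    have h2 := LinearMap.prodMap_mul M.y M.x N.y N.x
    rw [M.comm, N.comm] at h2
    exact h2.trans h1.symm
  x_pow := by
    rw [gen_prodMap_pow, M.x_pow, N.x_pow]
    exact LinearMap.prodMap_zero
  y_pow := by
    rw [gen_prodMap_pow, M.y_pow, N.y_pow]
    exact LinearMap.prodMap_zero

/-- First inclusion. -/
def genInl (M N : AlphaRep k 3 1 1) : M ⟶ genSum M N where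
  lin := LinearMap.inl k M.carrier N.carrier
  comm_x := by
    refine LinearMap.ext fun v => ?_
    refine Prod.ext rfl ?_
    exact (map_zero N.x).symm
  comm_y := by
    refine LinearMap.ext fun v => ?_
    refine Prod.ext rfl ?_
    exact (map_zero N.y).symm

/-- Second inclusion. -/
def genInr (M N : AlphaRep k 3 1 1) : N ⟶ genSum M N where
  lin := LinearMap.inr k M.carrier N.carrier
  comm_x := by
    refine LinearMap.ext fun v => ?_
    refine Prod.ext ?_ rfl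
    exact (map_zero M.x).symm
  comm_y := by
    refine LinearMap.ext fun v => ?_
    refine Prod.ext ?_ rfl
    exact (map_zero M.y).symm

/-- First projection. -/
def genFst (M N : AlphaRep k 3 1 1) : genSum M N ⟶ M where
  lin := LinearMap.fst k M.carrier N.carrier
  comm_x := rfl
  comm_y := rfl

/-- Second projection. -/
def genSnd (M N : AlphaRep k 3 1 1) : genSum M N ⟶ N where
  lin := LinearMap.snd k M.carrier N.carrier
  comm_x := rfl
  comm_y := rfl

theorem gen_inl_fst (M N : AlphaRep k 3 1 1) : genInl M N ≫ genFst M N = 𝟙 M := rfl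

theorem gen_inr_snd (M N : AlphaRep k 3 1 1) : genInr M N ≫ genSnd M N = 𝟙 N := rfl

theorem gen_inl_snd (M N : AlphaRep k 3 1 1) : genInl M N ≫ genSnd M N = 0 := rfl

theorem gen_inr_fst (M N : AlphaRep k 3 1 1) : genInr M N ≫ genFst M N = 0 := rfl

theorem gen_total (M N : AlphaRep k 3 1 1) :
    genFst M N ≫ genInl M N + genSnd M N ≫ genInr M N = 𝟙 (genSum M N) := by
  apply hom_ext
  refine LinearMap.ext fun v => ?_
  exact Prod.ext (add_zero _) (zero_add _)

theorem gen_cl_add {M N : AlphaRep k 3 1 1} (f g : M ⟶ N) : cl (f + g) = cl f + cl g :=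
  (Quotient.functor (neglRel k 3 1 1)).map_add

theorem gen_cl_zero {M N : AlphaRep k 3 1 1} : cl (0 : M ⟶ N) = 0 :=
  (Quotient.functor (neglRel k 3 1 1)).map_zero M N

theorem gen_cl_sum {M N : AlphaRep k 3 1 1} {ι : Type*} (s : Finset ι) (f : ι → (M ⟶ N)) :
    cl (∑ i ∈ s, f i) = ∑ i ∈ s, cl (f i) :=
  (Quotient.functor (neglRel k 3 1 1)).map_sum f s

theorem gen_sum {V : Semi k 3 1 1} {M N : AlphaRep k 3 1 1} (hM : InGenerated V (bar M))
    (hN : InGenerated V (bar N)) : InGenerated V (bar (genSum M N)) := by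
  refine InGenerated.sum (cl (genInl M N)) (cl (genInr M N)) (cl (genFst M N))
    (cl (genSnd M N)) ?_ ?_ ?_ hM hN
  · rw [← cl_comp, gen_inl_fst]
    rfl
  · rw [← cl_comp, gen_inr_snd]
    rfl
  · rw [← cl_comp, ← cl_comp, ← gen_cl_add, gen_total]
    rfl

theorem gen_step {V : Semi k 3 1 1} {L : AlphaRep k 3 1 1} {n : Type} (N : n → AlphaRep k 3 1 1)
    (hN : ∀ i, InGenerated V (bar (N i))) (f : ∀ i, bar (N i) ⟶ bar L)
    (g : ∀ i, bar L ⟶ bar (N i)) (s : Finset n) :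
    ∃ D : AlphaRep k 3 1 1, InGenerated V (bar D) ∧ ∃ (F : bar D ⟶ bar L) (H : bar L ⟶ bar D),
      H ≫ F = ∑ i ∈ s, g i ≫ f i := by
  classical
  induction s using Finset.induction_on with
  | empty =>
    refine ⟨𝟙_ (AlphaRep k 3 1 1), InGenerated.unit, 0, 0, ?_⟩
    rw [Finset.sum_empty, Limits.comp_zero]
  | insert a s ha ih =>
    obtain ⟨D, hD, F, H, hFH⟩ := ih
    refine ⟨genSum D (N a), gen_sum hD (hN a),
      cl (genFst D (N a)) ≫ F + cl (genSnd D (N a)) ≫ f a,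
      H ≫ cl (genInl D (N a)) + g a ≫ cl (genInr D (N a)), ?_⟩
    have e11 : cl (genInl D (N a)) ≫ cl (genFst D (N a)) = 𝟙 _ := by
      rw [← cl_comp, gen_inl_fst]
      rfl
    have e22 : cl (genInr D (N a)) ≫ cl (genSnd D (N a)) = 𝟙 _ := by
      rw [← cl_comp, gen_inr_snd]
      rfl
    have e12 : cl (genInl D (N a)) ≫ cl (genSnd D (N a)) = 0 := by
      rw [← cl_comp, gen_inl_snd, gen_cl_zero]
    have e21 : cl (genInr D (N a)) ≫ cl (genFst D (N a)) = 0 := by
      rw [← cl_comp, gen_inr_fst, gen_cl_zero]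
    have h1 : (H ≫ cl (genInl D (N a))) ≫ (cl (genFst D (N a)) ≫ F) = H ≫ F := by
      rw [Category.assoc, ← Category.assoc (cl (genInl D (N a))), e11, Category.id_comp]
    have h2 : (H ≫ cl (genInl D (N a))) ≫ (cl (genSnd D (N a)) ≫ f a) = 0 := by
      rw [Category.assoc, ← Category.assoc (cl (genInl D (N a))), e12, Limits.zero_comp,
        Limits.comp_zero]
    have h3 : (g a ≫ cl (genInr D (N a))) ≫ (cl (genFst D (N a)) ≫ F) = 0 := by
      rw [Category.assoc, ← Category.assoc (cl (genInr D (N a))), e21, Limits.zero_comp,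
        Limits.comp_zero]
    have h4 : (g a ≫ cl (genInr D (N a))) ≫ (cl (genSnd D (N a)) ≫ f a) = g a ≫ f a := by
      rw [Category.assoc, ← Category.assoc (cl (genInr D (N a))), e22, Category.id_comp]
    rw [Finset.sum_insert ha, Preadditive.add_comp, Preadditive.comp_add, Preadditive.comp_add,
      h1, h2, h3, h4, hFH, add_zero, zero_add, add_comm]

theorem gen_of_ok (B : Base k G) (V : Semi k 3 1 1)
    (hV : ∀ a, InGenerated V (bar (B.S a).M)) {W : FDRep k G} {A : Chart W} (hA : Ok B A) :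
    InGenerated V (bar A.M) := by
  have hA' := hA
  obtain ⟨n, _, c, f, g, φ, ψ, hf, hg, hs⟩ := hA'
  obtain ⟨D, hD, F, H, hFH⟩ := gen_step (V := V) (L := A.M) (fun i => (B.S (c i)).M)
    (fun i => hV (c i)) (fun i => cl (f i)) (fun i => cl (g i)) Finset.univ
  refine InGenerated.summand H F ?_ hD
  rw [hFH]
  have h1 : SRel A A (∑ i, cl (g i) ≫ cl (f i)) (𝟙 W) := by
    refine ⟨∑ i, g i ≫ f i, ?_, ?_⟩
    · rw [← hs]
      exact Chart.Rel.sum _ fun i _ => (hg i).comp (hf i)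
    · rw [gen_cl_sum]
      rfl
  exact SRel.unique hA hA h1 (SRel.id A)

theorem gen_base_ok (B : Base k G) (a : B.I) : Ok B (B.S a) :=
  ⟨Unit, inferInstance, fun _ => a, fun _ => 𝟙 _, fun _ => 𝟙 _, fun _ => 𝟙 _, fun _ => 𝟙 _,
    fun _ => Chart.Rel.id _, fun _ => Chart.Rel.id _, by simp⟩

theorem retract_of_hom (B : Base k G)
    (hsch : ∀ a (φ : B.ρ a ⟶ B.ρ a), ∃ c : k, φ = c • 𝟙 (B.ρ a)) {W : FDRep k G} {A : Chart W}
    (hA : Ok B A) (a : B.I) (φ₀ : B.ρ a ⟶ W) (hφ : φ₀ ≠ 0) :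
    ∃ (i : bar (B.S a).M ⟶ bar A.M) (q : bar A.M ⟶ bar (B.S a).M), i ≫ q = 𝟙 _ := by
  have hA' := hA
  obtain ⟨n, _, c, f, g, φ, ψ, hf, hg, hs⟩ := hA'
  obtain ⟨i, hi⟩ : ∃ i, φ₀ ≫ ψ i ≠ 0 := by
    by_contra hcon
    push Not at hcon
    apply hφ
    have h1 : φ₀ = φ₀ ≫ ∑ i, ψ i ≫ φ i := by rw [hs, Category.comp_id]
    rw [h1, Preadditive.comp_sum]
    refine Finset.sum_eq_zero fun i _ => ?_
    rw [← Category.assoc, hcon i, Limits.zero_comp]
  obtain ⟨χ, hχ⟩ := B.nondeg a (c i) (φ₀ ≫ ψ i) hi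
  obtain ⟨c0, hc0⟩ := hsch a ((φ₀ ≫ ψ i) ≫ χ)
  have hc0' : c0 ≠ 0 := by
    rintro rfl
    rw [zero_smul] at hc0
    rw [hc0, flin_zero, map_zero] at hχ
    exact hχ rfl
  have hψ₀ : φ₀ ≫ (c0⁻¹ • (ψ i ≫ χ)) = 𝟙 (B.ρ a) := by
    rw [Linear.comp_smul, ← Category.assoc, hc0, smul_smul, inv_mul_cancel₀ hc0', one_smul]
  have hBa := gen_base_ok B a
  obtain ⟨F, hF⟩ := SRel.exists_real hBa hA φ₀
  obtain ⟨H, hH⟩ := SRel.exists_real hA hBa (c0⁻¹ • (ψ i ≫ χ))
  refine ⟨F, H, ?_⟩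
  have h1 := hF.comp hH
  rw [hψ₀] at h1
  exact SRel.unique hBa hBa h1 (SRel.id _)

end Pool.Agent.H29.BC
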