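import Pool.Agent.H29.BC.Semi

/-!
# Induced `p'`-symmetries
-/

open CategoryTheory MonoidalCategory
open scoped TensorProduct

universe u

namespace Pool.Agent.H29.BC

/-- `𝒟(V)`, the full tensor subcategory of the semisimplification generated by `V`, as a property
of objects. -/
def generated {k : Type u} [Field k] {p r s : ℕ} [CharP k p] [Fact p.Prime]
    (V : AlphaRep k p r s) : ObjectProperty (Semi k p r s) := InGenerated (bar V)

instance {k : Type u} [Field k] {p r s : ℕ} [CharP k p] [Fact p.Prime] (V : AlphaRep k p r s) :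
    (generated V).IsMonoidal where
  prop_unit := InGenerated.unit
  prop_tensor _ _ h₁ h₂ := InGenerated.tensor h₁ h₂

/-- `c` is the commutativity constraint of `rep_k(G, z)`, that is of `rep_k(G)` with the symmetric
structure twisted by `z` (a central element with `z^2 = 1`): on vectors `v`, `w` which are
homogeneous for the grading by the eigenvalues `1` (even) and `-1` (odd) of `z` one has
`c (v ⊗ w) = w ⊗ v` if `v` or `w` is even, and `c (v ⊗ w) = - w ⊗ v` if both are odd.
For `z = 1` this is the usual commutativity constraint `v ⊗ w ↦ w ⊗ v`. -/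
def IsTwistedBraiding {k : Type u} [Field k] {G : Type} [Group G] (z : G)
    (c : ∀ W W' : FDRep k G, W ⊗ W' ⟶ W' ⊗ W) : Prop :=
  ∀ (W W' : FDRep k G) (v : W) (w : W'),
    (W.ρ z v = v ∨ W'.ρ z w = w → (c W W').hom.hom.hom (v ⊗ₜ[k] w) = w ⊗ₜ[k] v) ∧
    (W.ρ z v = -v ∧ W'.ρ z w = -w → (c W W').hom.hom.hom (v ⊗ₜ[k] w) = -(w ⊗ₜ[k] v))

/-- `(C, G)` is an induced `p'`-symmetry of `V`: `G` is a finite group of order prime to `p`, `C` is
a full subcategory of `𝒟(V)` (closed under tensor products and containing the unit) and there is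
a central element `z` of `G` with `z^2 = 1` and an equivalence `F` of `k`-linear symmetric tensor
categories from `rep_k(G, z)` to `C`. -/
structure IsInducedSymmetry {k : Type u} [Field k] {p r s : ℕ} [CharP k p] [Fact p.Prime]
    (V : AlphaRep k p r s) (C : ObjectProperty (Semi k p r s)) [C.IsMonoidal] (G : Type)
    [Group G] : Prop where
  finite : Finite G
  coprime : (Nat.card G).Coprime p
  le : C ≤ generated V
  equiv : ∃ (z : G) (c : ∀ W W' : FDRep k G, W ⊗ W' ⟶ W' ⊗ W),
    z ∈ Subgroup.center G ∧ z ^ 2 = 1 ∧ IsTwistedBraiding z c ∧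
    ∃ (F : FDRep k G ⥤ C.FullSubcategory) (_ : F.Monoidal),
      F.IsEquivalence ∧ F.Additive ∧ F.Linear k ∧
      ∀ W W' : FDRep k G, F.map (c W W') =
        Functor.OplaxMonoidal.δ F W W' ≫ (β_ (F.obj W) (F.obj W')).hom ≫
          Functor.LaxMonoidal.μ F W' W

end Pool.Agent.H29.BC
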