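import Pool.Agent.H29.BC.Base

/-!
# Job BC-SUM: the chart of a direct sum

Proof of `chart_of_decomp`.

Let `W` be a representation of `G` with `φ i : B.ρ (c i) ⟶ W`, `ψ i : W ⟶ B.ρ (c i)`,
`φ i ≫ ψ i = 𝟙`, `φ i ≫ ψ j = 0` for `i ≠ j`, `∑ ψ i ≫ φ i = 𝟙 W`.  Let `N i := (B.S (c i)).M`
and let `ι_i, π_i, h_i` be the splitting datum `(B.S (c i)).good` of `N i` (file `Good.lean`;
`J = B.ρ (c i)`).

The chart: `M := {carrier := ∀ i, (N i).carrier, x := coordinatewise, y := coordinatewise}`
(`LinearMap.pi fun i => (N i).x ∘ₗ LinearMap.proj i`), with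

* `ι w = fun i => ι_i (flin (ψ i) w)`,
* `π m = ∑ i, flin (φ i) (π_i (m i))`,
* `h m = fun i => h_i (m i)`.

Check of the axioms of `Good`: `x ι = 0`, `π x = 0` are coordinatewise;
`π (ι w) = ∑ φ_i (π_i (ι_i (ψ_i w))) = ∑ φ_i (ψ_i w) = w`; `split`: the `i`-th coordinate of
`ι (π m)` is `ι_i (ψ_i (∑_j φ_j (π_j (m j)))) = ι_i (π_i (m i))` by the orthogonality relations, so
the claim is coordinatewise the `split` of `(B.S (c i)).good`.

`Ok`: take `n`, `c`, `f i : N i ⟶ M` the inclusion of the `i`-th coordinate (`Pi.single i` /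
`LinearMap.single`), `g i : M ⟶ N i` the projection, and `φ i`, `ψ i`.  `Chart.Rel` for `f i`:
`π (single i (ι_i v)) = ∑_j φ_j (π_j (single i (ι_i v) j)) = φ_i (π_i (ι_i v)) = φ_i v`; for `g i`:
`π_i ((ι w) i) = π_i (ι_i (ψ_i w)) = ψ_i w`.
-/

open CategoryTheory MonoidalCategory
open scoped TensorProduct

universe u

namespace Pool.Agent.H29.BC

open AlphaRep

variable {k : Type u} [Field k] [CharP k 3] {G : Type} [Group G]

/-- the operator acting coordinatewise -/
def SumChart_op {n : Type} {V : n → Type u} [∀ i, AddCommGroup (V i)] [∀ i, Module k (V i)]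
    (a : ∀ i, Module.End k (V i)) : Module.End k (∀ i, V i) :=
  LinearMap.pi fun i => a i ∘ₗ LinearMap.proj i

omit [CharP k 3] in
theorem SumChart_op_apply {n : Type} {V : n → Type u} [∀ i, AddCommGroup (V i)]
    [∀ i, Module k (V i)] (a : ∀ i, Module.End k (V i)) (m : ∀ i, V i) (i : n) :
    SumChart_op a m i = a i (m i) := rfl

omit [CharP k 3] in
theorem SumChart_op_pow {n : Type} {V : n → Type u} [∀ i, AddCommGroup (V i)]
    [∀ i, Module k (V i)] (a : ∀ i, Module.End k (V i)) (d : ℕ) (h : ∀ i, a i ^ d = 0) :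
    SumChart_op a ^ d = 0 := by
  have key : ∀ (e : ℕ) (m : ∀ i, V i) (i : n), (SumChart_op a ^ e) m i = (a i ^ e) (m i) := by
    intro e
    induction e with
    | zero => intro m i; rfl
    | succ e ih =>
      intro m i
      rw [pow_succ, pow_succ, Module.End.mul_apply, ih, SumChart_op_apply, Module.End.mul_apply]
  refine LinearMap.ext fun m => funext fun i => ?_
  rw [key, h]
  rfl

omit [CharP k 3] in
theorem SumChart_single {n : Type} [DecidableEq n] {V : n → Type u} [∀ i, AddCommGroup (V i)]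
    [∀ i, Module k (V i)] (a : ∀ i, Module.End k (V i)) (i : n) (v : V i) :
    LinearMap.single k V i (a i v) = SumChart_op a (LinearMap.single k V i v) := by
  funext j
  rw [SumChart_op_apply, LinearMap.single_apply, LinearMap.single_apply]
  by_cases hj : j = i
  · subst hj
    rw [Pi.single_eq_same, Pi.single_eq_same]
  · rw [Pi.single_eq_of_ne hj, Pi.single_eq_of_ne hj, map_zero]

/-- the direct sum of representations -/
def SumChart_M {n : Type} [Fintype n] (N : n → AlphaRep k 3 1 1) : AlphaRep k 3 1 1 where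
  carrier := ∀ i, (N i).carrier
  x := SumChart_op fun i => (N i).x
  y := SumChart_op fun i => (N i).y
  comm := LinearMap.ext fun m => funext fun i => LinearMap.congr_fun (N i).comm (m i)
  x_pow := SumChart_op_pow _ _ fun i => (N i).x_pow
  y_pow := SumChart_op_pow _ _ fun i => (N i).y_pow

theorem chart_of_decomp (B : Base k G) (W : FDRep k G) {n : Type} [Fintype n] [DecidableEq n]
    (c : n → B.I) (φ : ∀ i, B.ρ (c i) ⟶ W) (ψ : ∀ i, W ⟶ B.ρ (c i))
    (h1 : ∀ i, φ i ≫ ψ i = 𝟙 _) (h2 : ∀ i j, i ≠ j → φ i ≫ ψ j = 0)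
    (h3 : ∑ i, ψ i ≫ φ i = 𝟙 W) : ∃ A : Chart W, Ok B A := by
  have e1 : ∀ i v, flin (ψ i) (flin (φ i) v) = v := fun i v =>
    LinearMap.congr_fun (congrArg flin (h1 i)) v
  have e2 : ∀ i j, i ≠ j → ∀ v, flin (ψ j) (flin (φ i) v) = 0 := fun i j hij v =>
    LinearMap.congr_fun (congrArg flin (h2 i j hij)) v
  have e3 : ∀ w, ∑ i, flin (φ i) (flin (ψ i) w) = w := by
    intro w
    have h := congrArg flin h3
    rw [flin_sum] at h
    have h' := LinearMap.congr_fun h w
    rw [LinearMap.sum_apply] at h'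
    exact h'
  let π0 : (∀ i, (B.S (c i)).M.carrier) →ₗ[k] W :=
    ∑ i, flin (φ i) ∘ₗ (B.S (c i)).good.π ∘ₗ LinearMap.proj i
  have hπ0 : ∀ m, π0 m = ∑ i, flin (φ i) ((B.S (c i)).good.π (m i)) := by
    intro m
    show (∑ i, flin (φ i) ∘ₗ (B.S (c i)).good.π ∘ₗ LinearMap.proj i) m = _
    rw [LinearMap.sum_apply]
    rfl
  let ι0 : W →ₗ[k] (∀ i, (B.S (c i)).M.carrier) :=
    LinearMap.pi fun i => (B.S (c i)).good.ι ∘ₗ flin (ψ i)
  have hι0 : ∀ w i, ι0 w i = (B.S (c i)).good.ι (flin (ψ i) w) := fun w i => rfl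
  have hψπ : ∀ m i, flin (ψ i) (π0 m) = (B.S (c i)).good.π (m i) := by
    intro m i
    rw [hπ0, map_sum, Finset.sum_eq_single i]
    · exact e1 i _
    · intro j _ hj
      exact e2 j i hj _
    · intro hi
      exact absurd (Finset.mem_univ i) hi
  let good : Good (SumChart_M fun i => (B.S (c i)).M).x W :=
    { ι := ι0
      π := π0
      h := SumChart_op fun i => (B.S (c i)).good.h
      xι := fun w => funext fun i => (B.S (c i)).good.xι _
      πx := fun m => by
        refine (hπ0 _).trans (Finset.sum_eq_zero fun i _ => ?_)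
        have h4 : (B.S (c i)).good.π ((SumChart_M fun i => (B.S (c i)).M).x m i) = 0 :=
          (B.S (c i)).good.πx (m i)
        rw [h4, map_zero]
      πι := fun w => by
        refine ((hπ0 _).trans (Finset.sum_congr rfl fun i _ => ?_)).trans (e3 w)
        exact congrArg (flin (φ i)) ((B.S (c i)).good.πι _)
      split := fun m => by
        refine funext fun i => ?_
        have h4 := (B.S (c i)).good.split (m i)
        rw [← hψπ m i] at h4
        exact h4 }
  let A : Chart W := ⟨SumChart_M fun i => (B.S (c i)).M, good⟩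
  refine ⟨A, n, inferInstance, c, fun i => ⟨(LinearMap.single k (fun i => (B.S (c i)).M.carrier) i :
      (B.S (c i)).M.carrier →ₗ[k] (∀ i, (B.S (c i)).M.carrier)), ?_, ?_⟩,
    fun i => ⟨LinearMap.proj i, rfl, rfl⟩, φ, ψ, fun i => ?_, fun i => ?_, h3⟩
  · exact LinearMap.ext fun v => SumChart_single (fun i => (B.S (c i)).M.x) i v
  · exact LinearMap.ext fun v => SumChart_single (fun i => (B.S (c i)).M.y) i v
  · refine LinearMap.ext fun v => ?_
    show π0 (Pi.single i ((B.S (c i)).good.ι v)) = flin (φ i) v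
    rw [hπ0, Finset.sum_eq_single i]
    · rw [Pi.single_eq_same, (B.S (c i)).good.πι]
    · intro j _ hj
      rw [Pi.single_eq_of_ne hj, map_zero, map_zero]
    · intro hi
      exact absurd (Finset.mem_univ i) hi
  · refine LinearMap.ext fun w => ?_
    show (B.S (c i)).good.π (ι0 w i) = flin (ψ i) w
    rw [hι0, (B.S (c i)).good.πι]

end Pool.Agent.H29.BC
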