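import Pool.Agent.H29.BC.Indec
import Pool.Agent.H29.BC.Gen
import Pool.Agent.H29.BC.SumChart
import Pool.Agent.H29.BC.Decomp
import Pool.Agent.H29.BC.Ess
import Pool.Agent.H29.BC.Stmt

/-!
# The generalized Benson conjecture fails for `α_3(1,1)`
-/

open CategoryTheory MonoidalCategory
open scoped TensorProduct

universe u

namespace Pool.Agent.H29.BC

open AlphaRep

variable {k : Type u} [Field k] [CharP k 3]

theorem exists_chart {ω : k} (hω : ω ^ 5 = 1) (hω1 : ω ≠ 1) (W : FDRep k D5) :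
    ∃ A : Chart W, Ok (theBase hω hω1) A := by
  obtain ⟨n, _, _, c, φ, ψ, h1, h2, h3⟩ := exists_decomp hω hω1 W
  exact chart_of_decomp (theBase hω hω1) W c φ ψ h1 h2 h3

/-- The complete system. -/
noncomputable def theSys {ω : k} (hω : ω ^ 5 = 1) (hω1 : ω ≠ 1) : Sys k D5 where
  B := theBase hω hω1
  hunit := the_hunit hω hω1
  htensor := the_htensor hω hω1
  D W := Classical.choose (exists_chart hω hω1 W)
  hD W := Classical.choose_spec (exists_chart hω hω1 W)

theorem exists_omega [IsAlgClosed k] : ∃ ω : k, ω ^ 5 = 1 ∧ ω ≠ 1 := by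
  have h5 : ((5 : ℕ) : k) ≠ 0 := by
    intro h
    rw [CharP.cast_eq_zero_iff k 3] at h
    omega
  have : NeZero ((5 : ℕ) : k) := ⟨h5⟩
  obtain ⟨ω, hω⟩ := IsAlgClosed.exists_root (Polynomial.cyclotomic 5 k) (by
    rw [Polynomial.degree_cyclotomic]
    decide)
  rw [Polynomial.isRoot_cyclotomic_iff] at hω
  exact ⟨ω, hω.pow_eq_one, hω.ne_one (by norm_num)⟩

theorem pF_check : ∀ t : Fin (nT 2 2), eq3 (sm (dJ 2) fun i => sm (dJ 2) fun j =>
    jF 2 2 t i j 0 * jG 2 2 t i j 0) 1 = true := by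
  decide +kernel

theorem pF_ne_zero {ω : k} (hω : ω ^ 5 = 1) (t : Fin (nT 2 2)) : pF hω 2 2 t ≠ 0 := by
  intro h0
  have h1 : (fT k (dJ 2) (dJ 2) (dJ (cT 2 2 t)) (jF 2 2 t)) = 0 := congrArg flin h0
  have h2 : gT k (dJ 2) (dJ 2) (dJ (cT 2 2 t)) (jG 2 2 t)
      (fT k (dJ 2) (dJ 2) (dJ (cT 2 2 t)) (jF 2 2 t) (eb (j0 _))) (j0 _) = 1 := by
    rw [fT_eb, map_sum, Finset.sum_apply]
    have h3 : ∀ i : Fin (dJ 2), gT k (dJ 2) (dJ 2) (dJ (cT 2 2 t)) (jG 2 2 t)
        (∑ j : Fin (dJ 2), ((jF 2 2 t i j (j0 (cT 2 2 t)) : ℕ) : k) •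
          ((eb i : Fin (dJ 2) → k) ⊗ₜ[k] (eb j : Fin (dJ 2) → k))) (j0 _) =
        ∑ j : Fin (dJ 2), ((jF 2 2 t i j 0 * jG 2 2 t i j 0 : ℕ) : k) := by
      intro i
      rw [map_sum, Finset.sum_apply]
      refine Finset.sum_congr rfl fun j _ => ?_
      rw [map_smul, Pi.smul_apply, gT_eb, smul_eq_mul, Nat.cast_mul]
      rfl
    simp only [h3]
    have h4 := cast_of_eq3 (k := k) (pF_check t)
    simp only [sm_eq, Nat.cast_sum] at h4
    rw [h4, Nat.cast_one]
  rw [h1, LinearMap.zero_apply, map_zero] at h2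
  exact zero_ne_one h2

theorem cT_22 : ∀ a : Fin 4, a = 2 ∨ ∃ t : Fin (nT 2 2), cT 2 2 t = a := by decide +kernel

theorem gen_base {ω : k} (hω : ω ^ 5 = 1) (hω1 : ω ≠ 1) (a : Fin 4) :
    InGenerated (bar (md k 2)) (bar (md k a)) := by
  rcases cT_22 a with rfl | ⟨t, rfl⟩
  · exact InGenerated.base
  · obtain ⟨i, q, h⟩ := retract_of_hom (theBase hω hω1) (fun _ φ => hom_scalar hω hω1 φ)
      (the_htensor hω hω1 2 2) (cT 2 2 t) (pF hω 2 2 t) (pF_ne_zero hω t)
    exact InGenerated.summand (B := bar (md k 2) ⊗ bar (md k 2)) i q h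
      (InGenerated.tensor InGenerated.base InGenerated.base)

theorem mem_generated {ω : k} (hω : ω ^ 5 = 1) (hω1 : ω ≠ 1) (W : FDRep k D5) :
    generated (md k 2) ((theSys hω hω1).F.obj W) :=
  gen_of_ok (theBase hω hω1) (bar (md k 2)) (gen_base hω hω1) ((theSys hω hω1).hD W)

section Lift

variable {ω : k} (hω : ω ^ 5 = 1) (hω1 : ω ≠ 1)

/-- The functor with values in `𝒟(V)`. -/
noncomputable abbrev liftF : FDRep k D5 ⥤ (generated (md k 2)).FullSubcategory :=
  (generated (md k 2)).lift (theSys hω hω1).F (mem_generated hω hω1)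

/-- The monoidal structure. -/
noncomputable def liftCore : (liftF hω hω1).CoreMonoidal where
  εIso := (generated (md k 2)).isoMk (theSys hω hω1).core.εIso
  μIso W W' := (generated (md k 2)).isoMk ((theSys hω hω1).core.μIso W W')
  μIso_hom_natural_left f U := ObjectProperty.hom_ext _ ((theSys hω hω1).core.μIso_hom_natural_left f U)
  μIso_hom_natural_right U f := ObjectProperty.hom_ext _ ((theSys hω hω1).core.μIso_hom_natural_right U f)
  associativity W W' W'' := ObjectProperty.hom_ext _ ((theSys hω hω1).core.associativity W W' W'')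
  left_unitality W := ObjectProperty.hom_ext _ ((theSys hω hω1).core.left_unitality W)
  right_unitality W := ObjectProperty.hom_ext _ ((theSys hω hω1).core.right_unitality W)

end Lift

theorem twist_one : IsTwistedBraiding (k := k) (1 : D5) (fun W W' => (β_ W W').hom) := by
  intro W W' v w
  refine ⟨fun _ => rfl, fun h => ?_⟩
  have h1 : v = -v := by
    have h2 := h.1
    rw [map_one] at h2
    exact h2
  have h2 : (2 : k) • v = 0 := by
    rw [two_smul]
    nth_rewrite 1 [h1]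
    exact neg_add_cancel v
  have h3 : v = 0 := (smul_eq_zero.1 h2).resolve_left two_ne
  rw [h3]
  simp

theorem main {ω : k} (hω : ω ^ 5 = 1) (hω1 : ω ≠ 1) :
    IsInducedSymmetry (md k 2) (generated (md k 2)) D5 where
  finite := inferInstance
  coprime := by
    rw [DihedralGroup.nat_card]
    decide
  le := le_rfl
  equiv := by
    refine ⟨1, fun W W' => (β_ W W').hom, Subgroup.one_mem _, one_pow 2, twist_one, liftF hω hω1,
      (liftCore hω hω1).toMonoidal, ?_, ?_, ?_, ?_⟩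
    · have hess : (liftF hω hω1).EssSurj := ⟨fun X => by
        have i₀ : (theSys hω hω1).F.obj (rhoF hω 2) ≅ bar (md k 2) :=
          (theSys hω hω1).chartIso ((theSys hω hω1).hD (rhoF hω 2))
            (gen_base_ok (theBase hω hω1) (2 : Fin 4))
        obtain ⟨W, ⟨e⟩⟩ := ess_image (theSys hω hω1).F (bar (md k 2)) (rhoF hω 2) i₀ X.property
        exact ⟨W, ⟨(generated (md k 2)).isoMk e⟩⟩⟩
      exact { }
    · exact ⟨fun {W W' φ ψ} => ObjectProperty.hom_ext _ ((theSys hω hω1).F.map_add)⟩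
    · exact ⟨fun {W W'} φ c => ObjectProperty.hom_ext _ ((theSys hω hω1).F.map_smul c φ)⟩
    · intro W W'
      exact ObjectProperty.hom_ext _ (Functor.map_braiding (theSys hω hω1).F W W')

end Pool.Agent.H29.BC
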