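import Pool.Agent.H29.BC.Base

/-!
# The functor `rep(G) ⥤ Semi`
-/

open CategoryTheory MonoidalCategory
open scoped TensorProduct

universe u

namespace Pool.Agent.H29.BC

open AlphaRep

variable {k : Type u} [Field k] [CharP k 3] {G : Type} [Group G]

/-- The class of a morphism in the semisimplification. -/
abbrev cl {M N : AlphaRep k 3 1 1} (f : M ⟶ N) : bar M ⟶ bar N :=
  (Quotient.functor (neglRel k 3 1 1)).map f

theorem cl_comp {M N L : AlphaRep k 3 1 1} (f : M ⟶ N) (g : N ⟶ L) : cl (f ≫ g) = cl f ≫ cl g :=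
  rfl

theorem cl_eq_iff {M N : AlphaRep k 3 1 1} (f g : M ⟶ N) : cl f = cl g ↔ Negligible (f - g) :=
  Quotient.functor_map_eq_iff _ f g

/-- The relation between a morphism in the semisimplification and a morphism in `rep(G)`. -/
def SRel {W W' : FDRep k G} (A : Chart W) (A' : Chart W') (F : bar A.M ⟶ bar A'.M)
    (φ : W ⟶ W') : Prop := ∃ f : A.M ⟶ A'.M, Chart.Rel A A' f φ ∧ cl f = F

namespace SRel

variable {W W' W'' U U' : FDRep k G} {A : Chart W} {A' : Chart W'} {A'' : Chart W''} {C : Chart U}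
  {C' : Chart U'}

theorem of {f : A.M ⟶ A'.M} {φ : W ⟶ W'} (h : Chart.Rel A A' f φ) : SRel A A' (cl f) φ :=
  ⟨f, h, rfl⟩

theorem comp {F : bar A.M ⟶ bar A'.M} {φ : W ⟶ W'} {H : bar A'.M ⟶ bar A''.M} {ψ : W' ⟶ W''}
    (h1 : SRel A A' F φ) (h2 : SRel A' A'' H ψ) : SRel A A'' (F ≫ H) (φ ≫ ψ) := by
  obtain ⟨f, hf, rfl⟩ := h1
  obtain ⟨g, hg, rfl⟩ := h2
  exact ⟨f ≫ g, hf.comp hg, rfl⟩

theorem id (A : Chart W) : SRel A A (𝟙 _) (𝟙 W) := ⟨𝟙 _, Chart.Rel.id A, rfl⟩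

theorem add {F H : bar A.M ⟶ bar A'.M} {φ ψ : W ⟶ W'} (h1 : SRel A A' F φ)
    (h2 : SRel A A' H ψ) : SRel A A' (F + H) (φ + ψ) := by
  obtain ⟨f, hf, rfl⟩ := h1
  obtain ⟨g, hg, rfl⟩ := h2
  exact ⟨f + g, hf.add hg, rfl⟩

theorem smul (c : k) {F : bar A.M ⟶ bar A'.M} {φ : W ⟶ W'} (h1 : SRel A A' F φ) :
    SRel A A' (c • F) (c • φ) := by
  obtain ⟨f, hf, rfl⟩ := h1
  exact ⟨c • f, hf.smul c, rfl⟩

theorem tensorHom {F : bar A.M ⟶ bar A'.M} {φ : W ⟶ W'} {H : bar C.M ⟶ bar C'.M} {ψ : U ⟶ U'}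
    (h1 : SRel A A' F φ) (h2 : SRel C C' H ψ) :
    SRel (A.tensor C) (A'.tensor C') (F ⊗ₘ H) (φ ⊗ₘ ψ) := by
  obtain ⟨f, hf, rfl⟩ := h1
  obtain ⟨g, hg, rfl⟩ := h2
  exact ⟨f ⊗ₘ g, hf.tensorHom hg, rfl⟩

theorem whiskerRight {F : bar A.M ⟶ bar A'.M} {φ : W ⟶ W'} (h1 : SRel A A' F φ) (C : Chart U) :
    SRel (A.tensor C) (A'.tensor C) (F ▷ bar C.M) (φ ▷ U) := by
  rw [← MonoidalCategory.tensorHom_id, ← MonoidalCategory.tensorHom_id]
  exact h1.tensorHom (SRel.id C)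

theorem whiskerLeft (C : Chart U) {F : bar A.M ⟶ bar A'.M} {φ : W ⟶ W'} (h1 : SRel A A' F φ) :
    SRel (C.tensor A) (C.tensor A') (bar C.M ◁ F) (U ◁ φ) := by
  rw [← MonoidalCategory.id_tensorHom, ← MonoidalCategory.id_tensorHom]
  exact (SRel.id C).tensorHom h1

variable {B : Base k G}

theorem unique (hA : Ok B A) (hA' : Ok B A') {F H : bar A.M ⟶ bar A'.M} {φ : W ⟶ W'}
    (h1 : SRel A A' F φ) (h2 : SRel A A' H φ) : F = H := by
  obtain ⟨f, hf, rfl⟩ := h1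
  obtain ⟨g, hg, rfl⟩ := h2
  rw [cl_eq_iff]
  have h3 : Chart.Rel A A' (f - g) 0 := by
    have := hf.add (hg.smul (-1))
    rw [neg_one_smul, neg_one_smul, ← sub_eq_add_neg, ← sub_eq_add_neg, sub_self] at this
    exact this
  exact (Ok.negligible_iff hA hA' h3).2 rfl

theorem inj (hA : Ok B A) (hA' : Ok B A') {F : bar A.M ⟶ bar A'.M} {φ ψ : W ⟶ W'}
    (h1 : SRel A A' F φ) (h2 : SRel A A' F ψ) : φ = ψ := by
  obtain ⟨f, hf, hfF⟩ := h1
  obtain ⟨g, hg, hgF⟩ := h2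
  rw [← hgF, cl_eq_iff] at hfF
  have h3 : Chart.Rel A A' (f - g) (φ - ψ) := by
    have := hf.add (hg.smul (-1))
    rw [neg_one_smul, neg_one_smul, ← sub_eq_add_neg, ← sub_eq_add_neg] at this
    exact this
  exact sub_eq_zero.1 ((Ok.negligible_iff hA hA' h3).1 hfF)

theorem exists_real (hA : Ok B A) (hA' : Ok B A') (φ : W ⟶ W') :
    ∃ F : bar A.M ⟶ bar A'.M, SRel A A' F φ := by
  obtain ⟨f, hf⟩ := Ok.exists_real hA hA' φ
  exact ⟨cl f, of hf⟩

theorem exists_hom (hA : Ok B A) (hA' : Ok B A') (F : bar A.M ⟶ bar A'.M) :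
    ∃ φ : W ⟶ W', SRel A A' F φ := by
  obtain ⟨f, rfl⟩ := (Quotient.functor (neglRel k 3 1 1)).map_surjective F
  obtain ⟨φ, hφ⟩ := Ok.exists_hom hA hA' f
  exact ⟨φ, of hφ⟩

end SRel

variable (k G) in
/-- The complete data. -/
structure Sys where
  /-- the base -/
  B : Base k G
  hunit : Ok B Chart.unit
  htensor : ∀ a b, Ok B ((B.S a).tensor (B.S b))
  /-- a chart for every representation -/
  D : (W : FDRep k G) → Chart W
  hD : ∀ W, Ok B (D W)

namespace Sys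

variable (X : Sys k G) {W W' W'' : FDRep k G} {A : Chart W} {A' : Chart W'} {A'' : Chart W''}

/-- Lift a morphism of `rep(G)` to the semisimplification. -/
noncomputable def lift (hA : Ok X.B A) (hA' : Ok X.B A') (φ : W ⟶ W') : bar A.M ⟶ bar A'.M :=
  Classical.choose (SRel.exists_real hA hA' φ)

theorem srel_lift (hA : Ok X.B A) (hA' : Ok X.B A') (φ : W ⟶ W') :
    SRel A A' (X.lift hA hA' φ) φ := Classical.choose_spec (SRel.exists_real hA hA' φ)

theorem lift_eq (hA : Ok X.B A) (hA' : Ok X.B A') {φ : W ⟶ W'} {F : bar A.M ⟶ bar A'.M}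
    (h : SRel A A' F φ) : X.lift hA hA' φ = F := SRel.unique hA hA' (X.srel_lift hA hA' φ) h

/-- The isomorphism between two charts of the same representation. -/
@[simps]
noncomputable def chartIso {A A' : Chart W} (hA : Ok X.B A) (hA' : Ok X.B A') :
    bar A.M ≅ bar A'.M where
  hom := X.lift hA hA' (𝟙 W)
  inv := X.lift hA' hA (𝟙 W)
  hom_inv_id := by
    refine SRel.unique hA hA ((X.srel_lift hA hA' (𝟙 W)).comp (X.srel_lift hA' hA (𝟙 W))) ?_
    rw [Category.comp_id]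
    exact SRel.id A
  inv_hom_id := by
    refine SRel.unique hA' hA' ((X.srel_lift hA' hA (𝟙 W)).comp (X.srel_lift hA hA' (𝟙 W))) ?_
    rw [Category.comp_id]
    exact SRel.id A'

/-- The functor `rep(G) ⥤ Semi`. -/
noncomputable def F : FDRep k G ⥤ Semi k 3 1 1 where
  obj W := bar (X.D W).M
  map φ := X.lift (X.hD _) (X.hD _) φ
  map_id W := X.lift_eq (X.hD W) (X.hD W) (SRel.id _)
  map_comp {W W' W''} φ ψ := X.lift_eq (X.hD W) (X.hD W'')
    ((X.srel_lift (X.hD W) (X.hD W') φ).comp (X.srel_lift (X.hD W') (X.hD W'') ψ))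

theorem ok_tensor (hA : Ok X.B A) (hA' : Ok X.B A') : Ok X.B (A.tensor A') :=
  Ok.tensor X.htensor hA hA'

instance : X.F.Full where
  map_surjective {W W'} H := by
    obtain ⟨φ, hφ⟩ := SRel.exists_hom (X.hD W) (X.hD W') H
    exact ⟨φ, X.lift_eq (X.hD W) (X.hD W') hφ⟩

instance : X.F.Faithful where
  map_injective {W W'} φ ψ h := by
    have h1 := X.srel_lift (X.hD W) (X.hD W') φ
    have h2 := X.srel_lift (X.hD W) (X.hD W') ψ
    have h3 : X.lift (X.hD W) (X.hD W') φ = X.lift (X.hD W) (X.hD W') ψ := h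
    rw [h3] at h1
    exact SRel.inj (X.hD W) (X.hD W') h1 h2

instance : X.F.Additive where
  map_add {W W' φ ψ} := X.lift_eq (X.hD W) (X.hD W')
    ((X.srel_lift (X.hD W) (X.hD W') φ).add (X.srel_lift (X.hD W) (X.hD W') ψ))

instance : X.F.Linear k where
  map_smul {W W'} φ c := X.lift_eq (X.hD W) (X.hD W')
    ((X.srel_lift (X.hD W) (X.hD W') φ).smul c)

/-- The monoidal structure on the functor. -/
noncomputable def core : X.F.CoreMonoidal where
  εIso := X.chartIso (A := Chart.unit) X.hunit (X.hD _)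
  μIso W W' := X.chartIso (X.ok_tensor (X.hD W) (X.hD W')) (X.hD (W ⊗ W'))
  μIso_hom_natural_left {W W'} φ U := by
    refine SRel.unique (X.ok_tensor (X.hD W) (X.hD U)) (X.hD (W' ⊗ U))
      (((X.srel_lift (X.hD W) (X.hD W') φ).whiskerRight (X.D U)).comp
        (X.srel_lift (X.ok_tensor (X.hD W') (X.hD U)) (X.hD (W' ⊗ U)) (𝟙 _))) ?_
    rw [Category.comp_id]
    have := (X.srel_lift (X.ok_tensor (X.hD W) (X.hD U)) (X.hD (W ⊗ U)) (𝟙 _)).comp
      (X.srel_lift (X.hD (W ⊗ U)) (X.hD (W' ⊗ U)) (φ ▷ U))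
    rw [Category.id_comp] at this
    exact this
  μIso_hom_natural_right {W W'} U φ := by
    refine SRel.unique (X.ok_tensor (X.hD U) (X.hD W)) (X.hD (U ⊗ W'))
      (((X.srel_lift (X.hD W) (X.hD W') φ).whiskerLeft (X.D U)).comp
        (X.srel_lift (X.ok_tensor (X.hD U) (X.hD W')) (X.hD (U ⊗ W')) (𝟙 _))) ?_
    rw [Category.comp_id]
    have := (X.srel_lift (X.ok_tensor (X.hD U) (X.hD W)) (X.hD (U ⊗ W)) (𝟙 _)).comp
      (X.srel_lift (X.hD (U ⊗ W)) (X.hD (U ⊗ W')) (U ◁ φ))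
    rw [Category.id_comp] at this
    exact this
  associativity W W' W'' := by
    have hl := (((X.srel_lift (X.ok_tensor (X.hD W) (X.hD W')) (X.hD (W ⊗ W'))
      (𝟙 _)).whiskerRight (X.D W'')).comp
      ((X.srel_lift (X.ok_tensor (X.hD (W ⊗ W')) (X.hD W'')) (X.hD ((W ⊗ W') ⊗ W''))
        (𝟙 _)).comp (X.srel_lift (X.hD ((W ⊗ W') ⊗ W'')) (X.hD (W ⊗ W' ⊗ W'')) (α_ W W' W'').hom)))
    have hr := ((SRel.of (Chart.Rel.associator_hom (X.D W) (X.D W') (X.D W''))).comp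
      (((X.srel_lift (X.ok_tensor (X.hD W') (X.hD W'')) (X.hD (W' ⊗ W''))
        (𝟙 _)).whiskerLeft (X.D W)).comp
      (X.srel_lift (X.ok_tensor (X.hD W) (X.hD (W' ⊗ W''))) (X.hD (W ⊗ W' ⊗ W'')) (𝟙 _))))
    rw [MonoidalCategory.id_whiskerRight, Category.id_comp, Category.id_comp] at hl
    rw [MonoidalCategory.whiskerLeft_id, Category.comp_id, Category.comp_id] at hr
    exact SRel.unique (X.ok_tensor (X.ok_tensor (X.hD W) (X.hD W')) (X.hD W'')) (X.hD _) hl hr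
  left_unitality W := by
    have hl := (SRel.of (Chart.Rel.leftUnitor_hom (X.D W)))
    have hr := ((X.srel_lift (A := Chart.unit) X.hunit (X.hD (𝟙_ _)) (𝟙 _)).whiskerRight
      (X.D W)).comp ((X.srel_lift (X.ok_tensor (X.hD (𝟙_ _)) (X.hD W)) (X.hD (𝟙_ _ ⊗ W))
        (𝟙 _)).comp (X.srel_lift (X.hD (𝟙_ _ ⊗ W)) (X.hD W) (λ_ W).hom))
    rw [MonoidalCategory.id_whiskerRight, Category.id_comp, Category.id_comp] at hr
    exact SRel.unique (X.ok_tensor X.hunit (X.hD W)) (X.hD W) hl hr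
  right_unitality W := by
    have hl := (SRel.of (Chart.Rel.rightUnitor_hom (X.D W)))
    have hr := ((X.srel_lift (A := Chart.unit) X.hunit (X.hD (𝟙_ _)) (𝟙 _)).whiskerLeft
      (X.D W)).comp ((X.srel_lift (X.ok_tensor (X.hD W) (X.hD (𝟙_ _))) (X.hD (W ⊗ 𝟙_ _))
        (𝟙 _)).comp (X.srel_lift (X.hD (W ⊗ 𝟙_ _)) (X.hD W) (ρ_ W).hom))
    rw [MonoidalCategory.whiskerLeft_id, Category.id_comp, Category.id_comp] at hr
    exact SRel.unique (X.ok_tensor (X.hD W) X.hunit) (X.hD W) hl hr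

noncomputable instance : X.F.Monoidal := X.core.toMonoidal

noncomputable instance : X.F.Braided where
  braided W W' := by
    have hl := (X.srel_lift (X.ok_tensor (X.hD W) (X.hD W')) (X.hD (W ⊗ W')) (𝟙 _)).comp
      (X.srel_lift (X.hD (W ⊗ W')) (X.hD (W' ⊗ W)) (β_ W W').hom)
    have hr := (SRel.of (Chart.Rel.braiding_hom (X.D W) (X.D W'))).comp
      (X.srel_lift (X.ok_tensor (X.hD W') (X.hD W)) (X.hD (W' ⊗ W)) (𝟙 _))
    rw [Category.id_comp] at hl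
    rw [Category.comp_id] at hr
    exact SRel.unique (X.ok_tensor (X.hD W) (X.hD W')) (X.hD (W' ⊗ W)) hl hr

end Sys

end Pool.Agent.H29.BC
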