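import Pool.Agent.H29.BC.Semi

/-!
# Good modules: restriction to `k[x]/(x^3)` is trivial plus free

For `x : M → M` a splitting datum `Good x J` consists of `ι : J → M`, `π : M → J` and `h : M → M`
with `x ι = 0`, `π x = 0`, `π ι = 1` and `1 = ι π + (x^2 h + x h x + h x^2)`.  The second summand is a
relative trace, i.e. it factors through a free `k[x]/(x^3)`-module.  For an `x`-linear map `f` put
`Φ(f) = π f ι`.  In characteristic three this is functorial, compatible with tensor products, and
preserves traces.
-/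

open CategoryTheory MonoidalCategory
open scoped TensorProduct

universe u

namespace Pool.Agent.H29.BC

open AlphaRep

/-- A splitting datum. -/
structure Good {k : Type u} [Field k] {M : Type u} [AddCommGroup M] [Module k M]
    (x : Module.End k M) (J : Type u) [AddCommGroup J] [Module k J] where
  ι : J →ₗ[k] M
  π : M →ₗ[k] J
  h : Module.End k M
  xι : ∀ j, x (ι j) = 0
  πx : ∀ m, π (x m) = 0
  πι : ∀ j, π (ι j) = j
  split : ∀ m, ι (π m) + (x (x (h m)) + x (h (x m)) + h (x (x m))) = m

namespace Good

variable {k : Type u} [Field k] {M N L J J' J'' : Type u} [AddCommGroup M] [Module k M]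
  [AddCommGroup N] [Module k N] [AddCommGroup L] [Module k L] [AddCommGroup J] [Module k J]
  [AddCommGroup J'] [Module k J'] [AddCommGroup J''] [Module k J'']
  {x : Module.End k M} {x' : Module.End k N} {x'' : Module.End k L}

/-- The value of `Φ` on a linear map. -/
def Phi (A : Good x J) (B : Good x' J') (f : M →ₗ[k] N) : J →ₗ[k] J' := B.π ∘ₗ f ∘ₗ A.ι

/-- `Φ` is functorial. -/
theorem Phi_comp (A : Good x J) (B : Good x' J') (C : Good x'' J'') (f : M →ₗ[k] N)
    (g : N →ₗ[k] L) (hf : ∀ m, f (x m) = x' (f m)) (hg : ∀ m, g (x' m) = x'' (g m)) :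
    Phi A C (g ∘ₗ f) = Phi B C g ∘ₗ Phi A B f := by
  refine LinearMap.ext fun j => ?_
  have h1 := B.split (f (A.ι j))
  have h2 : x' (f (A.ι j)) = 0 := by rw [← hf, A.xι, map_zero]
  rw [h2, map_zero, map_zero, map_zero, add_zero, add_zero] at h1
  have h3 : C.π (g (f (A.ι j))) = C.π (g (B.ι (B.π (f (A.ι j))))) := by
    conv_lhs => rw [← h1]
    rw [map_add, map_add, hg, C.πx, add_zero]
  exact h3

/-- `Φ` preserves traces in characteristic three. -/
theorem trace_eq [CharP k 3] [Module.Finite k M] [Module.Finite k J] (A : Good x J)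
    (f : Module.End k M) (hf : ∀ m, f (x m) = x (f m)) :
    LinearMap.trace k M f = LinearMap.trace k J (Phi A A f) := by
  have h1 : f = f ∘ₗ (A.ι ∘ₗ A.π) + (f * (x * x * A.h) + f * (x * A.h * x) + f * (A.h * (x * x))) := by
    refine LinearMap.ext fun m => ?_
    conv_lhs => rw [← A.split m]
    simp [Module.End.mul_apply]
  have hfx : f * x = x * f := LinearMap.ext hf
  have h3 : (3 : k) = 0 := by exact_mod_cast CharP.cast_eq_zero k 3
  set t := LinearMap.trace k M with ht
  have e1 : t (f * (x * x * A.h)) = t (A.h * (x * x * f)) := by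
    have h : f * (x * x * A.h) = (x * x * f) * A.h := by
      rw [← mul_assoc, ← mul_assoc, hfx, mul_assoc x f x, hfx]
      simp only [mul_assoc]
    rw [h]
    exact LinearMap.trace_mul_comm k _ _
  have e2 : t (f * (x * A.h * x)) = t (A.h * (x * x * f)) := by
    have h : f * (x * A.h * x) = (f * x * A.h) * x := by simp only [mul_assoc]
    rw [h, ht, LinearMap.trace_mul_comm, ← ht]
    have h' : x * (f * x * A.h) = (x * x * f) * A.h := by
      rw [hfx]
      simp only [mul_assoc]
    rw [h']
    exact LinearMap.trace_mul_comm k _ _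
  have e3 : t (f * (A.h * (x * x))) = t (A.h * (x * x * f)) := by
    rw [ht, LinearMap.trace_mul_comm, mul_assoc]
  have e4 : t (f ∘ₗ (A.ι ∘ₗ A.π)) = LinearMap.trace k J (Phi A A f) := by
    rw [← LinearMap.comp_assoc, ht, LinearMap.trace_comp_comm']
    rfl
  conv_lhs => rw [h1]
  rw [map_add, map_add, map_add, e1, e2, e3, e4]
  linear_combination t (A.h * (x * x * f)) * h3

/-- Tensor product of splitting data in characteristic three. -/
noncomputable def tensor [CharP k 3] (A : Good x J) (B : Good x' J') :
    Good (sumOp x x') (J ⊗[k] J') where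
  ι := TensorProduct.map A.ι B.ι
  π := TensorProduct.map A.π B.π
  h := TensorProduct.map (A.ι ∘ₗ A.π) B.h + TensorProduct.map A.h LinearMap.id
  xι z := by
    induction z using TensorProduct.induction_on with
    | zero => simp
    | tmul a b => simp [sumOp, A.xι, B.xι]
    | add a b ha hb => rw [map_add, map_add, ha, hb, add_zero]
  πx z := by
    induction z using TensorProduct.induction_on with
    | zero => simp
    | tmul a b => simp [sumOp, A.πx, B.πx]
    | add a b ha hb => rw [map_add, map_add, ha, hb, add_zero]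
  πι z := by
    induction z using TensorProduct.induction_on with
    | zero => simp
    | tmul a b => simp [A.πι, B.πι]
    | add a b ha hb => rw [map_add, map_add, ha, hb]
  split z := by
    have key : TensorProduct.map A.ι B.ι ∘ₗ TensorProduct.map A.π B.π +
        (sumOp x x' ∘ₗ sumOp x x' ∘ₗ
            (TensorProduct.map (A.ι ∘ₗ A.π) B.h + TensorProduct.map A.h LinearMap.id) +
          sumOp x x' ∘ₗ (TensorProduct.map (A.ι ∘ₗ A.π) B.h + TensorProduct.map A.h LinearMap.id) ∘ₗ
            sumOp x x' +
          (TensorProduct.map (A.ι ∘ₗ A.π) B.h + TensorProduct.map A.h LinearMap.id) ∘ₗ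
            sumOp x x' ∘ₗ sumOp x x') = LinearMap.id := by
      refine TensorProduct.ext' fun a b => ?_
      have h3 : (3 : k) = 0 := by exact_mod_cast CharP.cast_eq_zero k 3
      have e1 : a ⊗ₜ[k] b = A.ι (A.π a) ⊗ₜ[k] b + (x (x (A.h a)) ⊗ₜ[k] b + x (A.h (x a)) ⊗ₜ[k] b
          + A.h (x (x a)) ⊗ₜ[k] b) := by
        rw [← TensorProduct.add_tmul, ← TensorProduct.add_tmul, ← TensorProduct.add_tmul, A.split]
      have e2 : A.ι (A.π a) ⊗ₜ[k] b = A.ι (A.π a) ⊗ₜ[k] B.ι (B.π b) +
          (A.ι (A.π a) ⊗ₜ[k] x' (x' (B.h b)) + A.ι (A.π a) ⊗ₜ[k] x' (B.h (x' b))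
          + A.ι (A.π a) ⊗ₜ[k] B.h (x' (x' b))) := by
        rw [← TensorProduct.tmul_add, ← TensorProduct.tmul_add, ← TensorProduct.tmul_add, B.split]
      simp only [sumOp, LinearMap.add_apply, LinearMap.comp_apply, TensorProduct.map_tmul,
        LinearMap.id_apply, map_add, A.πx, A.xι, map_zero, TensorProduct.zero_tmul, add_zero,
        zero_add]
      rw [e1, e2]
      have e3 : (3 : k) • (x (A.h a) ⊗ₜ[k] x' b + A.h a ⊗ₜ[k] x' (x' b) +
          A.h (x a) ⊗ₜ[k] x' b) = 0 := by rw [h3, zero_smul]
      rw [← sub_eq_zero, ← e3]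
      module
    exact LinearMap.congr_fun key z

/-- The splitting datum of the trivial module. -/
def unit : Good (0 : Module.End k k) k where
  ι := LinearMap.id
  π := LinearMap.id
  h := 0
  xι _ := rfl
  πx _ := rfl
  πι _ := rfl
  split m := by simp

end Good

end Pool.Agent.H29.BC
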