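import Mathlib

/-!
# The quotient of a monoidal category by a monoidal congruence

If a congruence on a (symmetric) monoidal category is stable under tensoring with an object, the
quotient category is (symmetric) monoidal, with the tensor product of objects, the associator, the
unitors and the braiding of the original category.
-/

open CategoryTheory MonoidalCategory

namespace Pool.Agent.H29.BC

universe v₁ u₁

/-- A congruence stable under tensoring with an object. -/
class MonoidalCongruence {C : Type u₁} [Category.{v₁} C] [MonoidalCategory C] (r : HomRel C) : Prop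
    extends Congruence r where
  whiskerLeft_rel : ∀ (X : C) {Y Z : C} {f g : Y ⟶ Z}, r f g → r (X ◁ f) (X ◁ g)
  whiskerRight_rel : ∀ {Y Z : C} {f g : Y ⟶ Z} (X : C), r f g → r (f ▷ X) (g ▷ X)

namespace QuotMon

variable {C : Type u₁} [Category.{v₁} C] [MonoidalCategory C] (r : HomRel C)
  [MonoidalCongruence r]

instance : MonoidalCategoryStruct (Quotient r) where
  tensorObj X Y := ⟨X.as ⊗ Y.as⟩
  whiskerLeft X _ _ f := Quot.map (fun g => X.as ◁ g) (fun a b h => by
    rw [HomRel.compClosure_iff_self] at h ⊢
    exact MonoidalCongruence.whiskerLeft_rel _ h) f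
  whiskerRight f X := Quot.map (fun g => g ▷ X.as) (fun a b h => by
    rw [HomRel.compClosure_iff_self] at h ⊢
    exact MonoidalCongruence.whiskerRight_rel _ h) f
  tensorHom {X₁ Y₁ X₂ Y₂} f g := Quot.map₂ (fun a b => a ⊗ₘ b) (fun a b c h => by
    rw [HomRel.compClosure_iff_self] at h ⊢
    rw [MonoidalCategory.tensorHom_def, MonoidalCategory.tensorHom_def]
    exact HomRel.comp_left _ (MonoidalCongruence.whiskerLeft_rel _ h)) (fun a b c h => by
    rw [HomRel.compClosure_iff_self] at h ⊢
    rw [MonoidalCategory.tensorHom_def, MonoidalCategory.tensorHom_def]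
    exact HomRel.comp_right _ (MonoidalCongruence.whiskerRight_rel _ h)) f g
  tensorUnit := ⟨𝟙_ C⟩
  associator X Y Z := (Quotient.functor r).mapIso (α_ X.as Y.as Z.as)
  leftUnitor X := (Quotient.functor r).mapIso (λ_ X.as)
  rightUnitor X := (Quotient.functor r).mapIso (ρ_ X.as)

instance : MonoidalCategory (Quotient r) where
  tensorHom_def := by
    rintro _ _ _ _ ⟨f⟩ ⟨g⟩
    exact congrArg (Quot.mk _) (MonoidalCategory.tensorHom_def f g)
  id_tensorHom_id _ _ := congrArg (Quot.mk _) (id_tensorHom_id _ _)
  tensorHom_comp_tensorHom := by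
    rintro _ _ _ _ _ _ ⟨f⟩ ⟨g⟩ ⟨f'⟩ ⟨g'⟩
    exact congrArg (Quot.mk _) (tensorHom_comp_tensorHom f g f' g')
  whiskerLeft_id _ _ := congrArg (Quot.mk _) (whiskerLeft_id _ _)
  id_whiskerRight _ _ := congrArg (Quot.mk _) (id_whiskerRight _ _)
  associator_naturality := by
    rintro _ _ _ _ _ _ ⟨f⟩ ⟨g⟩ ⟨h⟩
    exact congrArg (Quot.mk _) (associator_naturality f g h)
  leftUnitor_naturality := by
    rintro _ _ ⟨f⟩
    exact congrArg (Quot.mk _) (leftUnitor_naturality f)
  rightUnitor_naturality := by
    rintro _ _ ⟨f⟩
    exact congrArg (Quot.mk _) (rightUnitor_naturality f)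
  pentagon _ _ _ _ := congrArg (Quot.mk _) (pentagon _ _ _ _)
  triangle _ _ := congrArg (Quot.mk _) (triangle _ _)

/-- The quotient functor as a strict monoidal functor. -/
def functorCore : (Quotient.functor r).CoreMonoidal where
  εIso := Iso.refl _
  μIso X Y := Iso.refl _
  μIso_hom_natural_left f X := by
    rw [Iso.refl_hom, Iso.refl_hom, Category.comp_id, Category.id_comp]
    rfl
  μIso_hom_natural_right X f := by
    rw [Iso.refl_hom, Iso.refl_hom, Category.comp_id, Category.id_comp]
    rfl
  associativity X Y Z := by
    simp only [Iso.refl_hom, id_whiskerRight, whiskerLeft_id, Category.comp_id, Category.id_comp]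
    rfl
  left_unitality X := by
    simp only [Iso.refl_hom, id_whiskerRight, whiskerLeft_id, Category.comp_id, Category.id_comp]
    rfl
  right_unitality X := by
    simp only [Iso.refl_hom, id_whiskerRight, whiskerLeft_id, Category.comp_id, Category.id_comp]
    rfl

instance : (Quotient.functor r).Monoidal := (functorCore r).toMonoidal

variable {C : Type u₁} [Category.{v₁} C] [MonoidalCategory C] [SymmetricCategory C] (r : HomRel C)
  [MonoidalCongruence r]

instance : BraidedCategory (Quotient r) where
  braiding X Y := (Quotient.functor r).mapIso (β_ X.as Y.as)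
  braiding_naturality_right := by
    rintro _ _ _ ⟨f⟩
    exact congrArg (Quot.mk _) (BraidedCategory.braiding_naturality_right _ f)
  braiding_naturality_left := by
    rintro _ _ ⟨f⟩ _
    exact congrArg (Quot.mk _) (BraidedCategory.braiding_naturality_left f _)
  hexagon_forward _ _ _ := congrArg (Quot.mk _) (BraidedCategory.hexagon_forward _ _ _)
  hexagon_reverse _ _ _ := congrArg (Quot.mk _) (BraidedCategory.hexagon_reverse _ _ _)

instance : SymmetricCategory (Quotient r) where
  symmetry _ _ := congrArg (Quot.mk _) (SymmetricCategory.symmetry _ _)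

end QuotMon

end Pool.Agent.H29.BC
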