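import Pool.Agent.H29.BC.NeglTensor
import Pool.Agent.H29.BC.QuotMon

/-!
# The semisimplification of `rep(α_p(r,s))`
-/

open CategoryTheory MonoidalCategory
open scoped TensorProduct

universe u

namespace Pool.Agent.H29.BC

open AlphaRep

variable (k : Type u) [Field k] (p r s : ℕ)

/-- Two morphisms are identified if their difference is negligible. -/
def neglRel : HomRel (AlphaRep k p r s) := fun _ _ f g => Negligible (f - g)

instance : Congruence (neglRel k p r s) where
  equivalence :=
    { refl := fun f => by
        change Negligible (f - f)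
        rw [sub_self]
        exact Negligible.zero
      symm := fun {f g} h => by
        change Negligible (g - f)
        rw [← neg_sub]
        exact Negligible.neg h
      trans := fun {f g h} h1 h2 => by
        change Negligible (f - h)
        rw [← sub_add_sub_cancel f g h]
        exact Negligible.add h1 h2 }
  comp_left {X Y Z} f {g g'} h := by
    change Negligible (f ≫ g - f ≫ g')
    rw [← Preadditive.comp_sub]
    exact Negligible.comp_left f h
  comp_right {X Y Z f f'} g h := by
    change Negligible (f ≫ g - f' ≫ g)
    rw [← Preadditive.sub_comp]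
    exact Negligible.comp_right g h

/-- The semisimplification of `rep(α_p(r,s))`: the quotient of `rep(α_p(r,s))` by the ideal of
negligible morphisms. -/
abbrev Semi := Quotient (neglRel k p r s)

theorem neglRel_add ⦃X Y : AlphaRep k p r s⦄ (f₁ f₂ g₁ g₂ : X ⟶ Y) (h1 : neglRel k p r s f₁ f₂)
    (h2 : neglRel k p r s g₁ g₂) : neglRel k p r s (f₁ + g₁) (f₂ + g₂) := by
  change Negligible (f₁ + g₁ - (f₂ + g₂))
  rw [add_sub_add_comm]
  exact Negligible.add h1 h2

theorem neglRel_smul (a : k) ⦃X Y : AlphaRep k p r s⦄ (f₁ f₂ : X ⟶ Y)
    (h : neglRel k p r s f₁ f₂) : neglRel k p r s (a • f₁) (a • f₂) := by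
  change Negligible (a • f₁ - a • f₂)
  rw [← smul_sub]
  exact Negligible.smul a h

instance : Preadditive (Semi k p r s) := Quotient.preadditive _ (neglRel_add k p r s)

instance : (Quotient.functor (neglRel k p r s)).Additive :=
  Quotient.functor_additive _ (neglRel_add k p r s)

instance : Linear k (Semi k p r s) := Quotient.linear k _ (neglRel_smul k p r s)

variable {k p r s} in
/-- The image of a representation in the semisimplification. -/
abbrev bar (M : AlphaRep k p r s) : Semi k p r s := (Quotient.functor (neglRel k p r s)).obj M

section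

variable [CharP k p] [Fact p.Prime]

instance : MonoidalCongruence (neglRel k p r s) where
  whiskerLeft_rel X {Y Z f g} h := by
    change Negligible (X ◁ f - X ◁ g)
    have h1 : X ◁ f - X ◁ g = X ◁ (f - g) :=
      ((tensorLeft X).map_sub (f := f) (g := g)).symm
    rw [h1]
    exact Negligible.whiskerLeft X h
  whiskerRight_rel {Y Z f g} X h := by
    change Negligible (f ▷ X - g ▷ X)
    have h1 : f ▷ X - g ▷ X = (f - g) ▷ X :=
      ((tensorRight X).map_sub (f := f) (g := g)).symm
    rw [h1]
    exact Negligible.whiskerRight X h

variable {k p r s}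

/-- `InGenerated V A` means that `A` lies in `𝒟(V)`, the full tensor subcategory of the
semisimplification generated by `V`: the smallest class of objects which contains `V` and the unit
and is closed under tensor products, duals, direct sums and direct summands (in particular under
isomorphism). -/
inductive InGenerated (V : Semi k p r s) : Semi k p r s → Prop
  | base : InGenerated V V
  | unit : InGenerated V (𝟙_ (Semi k p r s))
  | tensor {A B : Semi k p r s} : InGenerated V A → InGenerated V B → InGenerated V (A ⊗ B)
  | dual {A B : Semi k p r s} : InGenerated V A → Nonempty (ExactPairing A B) → InGenerated V B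
  | sum {A B S : Semi k p r s} (i₁ : A ⟶ S) (i₂ : B ⟶ S) (p₁ : S ⟶ A) (p₂ : S ⟶ B) :
      i₁ ≫ p₁ = 𝟙 A → i₂ ≫ p₂ = 𝟙 B → p₁ ≫ i₁ + p₂ ≫ i₂ = 𝟙 S →
      InGenerated V A → InGenerated V B → InGenerated V S
  | summand {A B : Semi k p r s} (i : A ⟶ B) (q : B ⟶ A) :
      i ≫ q = 𝟙 A → InGenerated V B → InGenerated V A

end

/-- A representation is indecomposable if it is nonzero and is not the direct sum of two nonzero
subrepresentations. -/
def IsIndecomposable {k : Type u} [Field k] {p r s : ℕ} (V : AlphaRep k p r s) : Prop :=
  Nontrivial V.carrier ∧ ∀ A B : Submodule k V.carrier,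
    (∀ v ∈ A, V.x v ∈ A ∧ V.y v ∈ A) → (∀ v ∈ B, V.x v ∈ B ∧ V.y v ∈ B) → IsCompl A B →
      A = ⊥ ∨ B = ⊥

end Pool.Agent.H29.BC
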