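import Pool.Agent.H29.BC.TheBase
import Pool.Agent.H29.BC.Semi

/-!
# The module `S_2` of dimension eight is indecomposable

For every endomorphism `f` there is `c` with `(f - c)^3 = 0`.
-/

open CategoryTheory MonoidalCategory

universe u

namespace Pool.Agent.H29.BC

open AlphaRep

/-- Certificates. -/
def lNx : List ℕ :=
  [9566667, 32305409446201996881592782, 0, 0, 0, 0, 0, 0, 25844327556975323582778648, 25844327557043953950813024, 0, 0, 0, 0, 0, 0, 1, 3, 9566676, 32305409446201996881592809, 0, 0, 729, 2187, 6561, 19683, 25844327556975323582660550, 25844327557043953950458730, 0, 0, 4782969, 14348907, 43046721, 129140163, 387420490, 1162261470, 3496351077, 32305409446202007341946012, 31381059609, 94143178827, 282429536481, 847288609443, 2541865834890, 7625597504670, 25844327556998200375115511, 25844327556906693195728964, 205891132094649, 617673396283947, 1435795975383705177540498, 4307387926151115532621494, 12922163778453346597864482, 38766491335360039793593446, 0, 0, 0,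 32305409446201996895946063, 9420257394492489669843207378, 28260772183477469009529622134, 84782316550432407028588866402, 254346949651297221085766599206, 0, 0, 25844327556975323573213439, 25844327557043953965164118]

/-- Certificates. -/
def lNy : List ℕ :=
  [1458, 38766491335360039793594958, 0, 0, 0, 0, 0, 0, 38766491335360039793594976, 19383245667680019896796723, 0, 0, 0, 0, 0, 0, 0, 0, 1458, 38766491335360039793594958, 0, 0, 0, 0, 0, 0, 38766491335360039793594976, 19383245667680019896796723, 0, 0, 0, 0, 0, 0, 0, 0, 1458, 38766491335360039793594958, 0, 0, 0, 0, 0, 0, 38766491335360039793594976, 19383245667680019896796723, 0, 0, 0, 0, 0, 0, 0, 0, 0, 38766491335360039793597145, 0, 0, 0, 0, 0, 0, 38766491335360039798377945, 19383245667680019911145630]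

/-- The certificate matrices. -/
def nDx (i l : ℕ) : ℕ → ℕ → ℕ := fun m n => dig (lNx.getD (i * 8 + l) 0) (m * 8 + n)

/-- The certificate matrices. -/
def nDy (i l : ℕ) : ℕ → ℕ → ℕ := fun m n => dig (lNy.getD (i * 8 + l) 0) (m * 8 + n)

/-- The levels of the basis vectors. -/
def lev (i : ℕ) : ℕ := [0, 0, 1, 1, 2, 2, 1, 1].getD i 0

/-- The target matrix. -/
def nE (i l : ℕ) : ℕ → ℕ → ℕ := fun m n =>
  cond (Nat.beq m i && Nat.beq n l) 1 0 +
  cond (Nat.beq i l && (Nat.beq m 6 && Nat.beq n 6)) 2 0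

/-- The check. -/
def chkN (i l : ℕ) : Bool :=
  eqA 8 8 (addA (addA (mulA 8 (aX 2) (nDx i l)) (dbl (mulA 8 (nDx i l) (aX 2))))
    (addA (mulA 8 (aY 2) (nDy i l)) (dbl (mulA 8 (nDy i l) (aY 2))))) (nE i l)

theorem chkN_true : ∀ (i l : Fin 8), lev l ≤ lev i → chkN i l = true := by decide +kernel

theorem lev_le : ∀ i : Fin 8, lev i ≤ 2 := by decide

variable {k : Type u} [Field k] [CharP k 3]

theorem beq_dec (x y : ℕ) : Nat.beq x y = decide (x = y) := by
  by_cases h : x = y
  · subst h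
    simp
  · rw [decide_eq_false h]
    rcases hb : Nat.beq x y with _ | _
    · rfl
    · exact absurd (Nat.eq_of_beq_eq_true hb) h

theorem end_entries (f : (Fin 8 → k) →ₗ[k] (Fin 8 → k))
    (hx : f ∘ₗ op k 8 8 (aX 2) = op k 8 8 (aX 2) ∘ₗ f)
    (hy : f ∘ₗ op k 8 8 (aY 2) = op k 8 8 (aY 2) ∘ₗ f) (i l : Fin 8) (hil : lev l ≤ lev i) :
    f (eb i) l = if i = l then f (eb 6) 6 else 0 := by
  have h3 : (3 : k) = 0 := by exact_mod_cast CharP.cast_eq_zero k 3
  have hD := op_congr (k := k) (chkN_true i l hil)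
  rw [← op_add, ← op_add, ← op_add] at hD
  have hdbl : ∀ A : ℕ → ℕ → ℕ, op k 8 8 (dbl A) = (2 : k) • op k 8 8 A := by
    intro A
    refine ext_eb fun m => ?_
    funext n
    rw [op_eb, LinearMap.smul_apply, op_eb]
    simp [dbl]
  rw [hdbl, hdbl, ← op_comp, ← op_comp, ← op_comp, ← op_comp] at hD
  generalize op k 8 8 (nDx i l) = Dx at hD
  generalize op k 8 8 (nDy i l) = Dy at hD
  have htr : ∀ (z D : Module.End k (Fin 8 → k)), f ∘ₗ z = z ∘ₗ f →
      LinearMap.trace k _ ((z ∘ₗ D) ∘ₗ f) = LinearMap.trace k _ ((D ∘ₗ z) ∘ₗ f) := by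
    intro z D hz
    rw [LinearMap.trace_comp_comm' f (z ∘ₗ D), LinearMap.trace_comp_comm' f (D ∘ₗ z),
      ← LinearMap.comp_assoc, hz, ← LinearMap.comp_assoc, LinearMap.comp_assoc]
    exact LinearMap.trace_mul_comm k z (f ∘ₗ D)
  have e1 := htr _ Dx hx
  have e2 := htr _ Dy hy
  have h0 : LinearMap.trace k _ (op k 8 8 (nE i l) ∘ₗ f) = 0 := by
    rw [← hD]
    simp only [LinearMap.add_comp, LinearMap.smul_comp, map_add, map_smul, e1, e2, smul_eq_mul]
    linear_combination (LinearMap.trace k (Fin 8 → k) ((Dx ∘ₗ op k 8 8 (aX 2)) ∘ₗ f) +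
      LinearMap.trace k (Fin 8 → k) ((Dy ∘ₗ op k 8 8 (aY 2)) ∘ₗ f)) * h3
  rw [trace_fun] at h0
  have h1 : ∀ m : Fin 8, (op k 8 8 (nE i l) ∘ₗ f) (eb m) m =
      ∑ n : Fin 8, ((nE i l m n : ℕ) : k) * f (eb m) n := by
    intro m
    rw [LinearMap.comp_apply, op_apply]
  simp only [h1] at h0
  have h2 : ∀ (m n : Fin 8), ((nE i l m n : ℕ) : k) =
      (if m = i ∧ n = l then 1 else 0) +
      (if i = l ∧ m = 6 ∧ n = 6 then 2 else 0) := by
    intro m n
    have h6 : ∀ m : Fin 8, ((m : ℕ) = 6 ↔ m = 6) := by decide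
    simp only [nE, beq_dec, Bool.cond_eq_ite, Bool.and_eq_true, decide_eq_true_eq, h6,
      ← Fin.ext_iff]
    push_cast
    rfl
  simp only [h2, add_mul, ite_mul, one_mul, zero_mul, Finset.sum_add_distrib] at h0
  have h4 : ∑ m : Fin 8, ∑ n : Fin 8,
      (if m = i ∧ n = l then f (eb m) n else 0) = f (eb i) l := by
    rw [Finset.sum_eq_single i, Finset.sum_eq_single l]
    · simp
    · intro n _ hn
      simp [hn]
    · simp
    · intro m _ hm
      simp [hm]
    · simp
  rw [h4] at h0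
  by_cases hc : i = l
  · rw [if_pos hc]
    have h5 : ∑ m : Fin 8, ∑ n : Fin 8,
        (if i = l ∧ m = 6 ∧ n = 6 then 2 * f (eb m) n else 0) = 2 * f (eb 6) 6 := by
      rw [Finset.sum_eq_single 6, Finset.sum_eq_single 6]
      · rw [if_pos ⟨hc, rfl, rfl⟩]
      · intro n _ hn
        rw [if_neg (fun h => hn h.2.2)]
      · simp
      · intro m _ hm
        refine Finset.sum_eq_zero fun n _ => ?_
        rw [if_neg (fun h => hm h.2.1)]
      · simp
    rw [h5] at h0
    linear_combination h0 - f (eb 6) 6 * h3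
  · rw [if_neg hc]
    have h5 : ∑ m : Fin 8, ∑ n : Fin 8,
        (if i = l ∧ m = 6 ∧ n = 6 then 2 * f (eb m) n else 0) = 0 := by
      refine Finset.sum_eq_zero fun m _ => Finset.sum_eq_zero fun n _ => ?_
      rw [if_neg (fun h => hc h.1)]
    rw [h5, add_zero] at h0
    exact h0

/-- Every endomorphism of `S_2` is a scalar plus a nilpotent map. -/
theorem end_nilp (f : (Fin 8 → k) →ₗ[k] (Fin 8 → k))
    (hx : f ∘ₗ op k 8 8 (aX 2) = op k 8 8 (aX 2) ∘ₗ f)
    (hy : f ∘ₗ op k 8 8 (aY 2) = op k 8 8 (aY 2) ∘ₗ f) :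
    ∃ (c : k) (n : Module.End k (Fin 8 → k)), (∀ v, f v = c • v + n v) ∧
      ∀ v, n (n (n v)) = 0 := by
  obtain ⟨n, hn⟩ : ∃ n : Module.End k (Fin 8 → k), n = f - (f (eb 6) 6) • LinearMap.id := ⟨_, rfl⟩
  refine ⟨f (eb 6) 6, n, fun v => ?_, ?_⟩
  · rw [hn, LinearMap.sub_apply, LinearMap.smul_apply, LinearMap.id_apply, add_sub_cancel]
  have h1 : ∀ i l : Fin 8, lev l ≤ lev i → n (eb i) l = 0 := by
    intro i l hil
    have h := end_entries f hx hy i l hil
    rw [hn, LinearMap.sub_apply, Pi.sub_apply, LinearMap.smul_apply, LinearMap.id_apply,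
      Pi.smul_apply, smul_eq_mul, eb_apply, h]
    by_cases hc : i = l
    · rw [if_pos hc, if_pos hc.symm, mul_one, sub_self]
    · rw [if_neg hc, if_neg (fun h => hc h.symm), mul_zero, sub_self]
  have h2 : ∀ (j : ℕ) (v : Fin 8 → k), (∀ l : Fin 8, lev l < j → v l = 0) →
      ∀ l : Fin 8, lev l < j + 1 → n v l = 0 := by
    intro j v hv l hl
    rw [lin_fun, Finset.sum_apply]
    refine Finset.sum_eq_zero fun i _ => ?_
    rw [Pi.smul_apply, smul_eq_mul]
    by_cases hi : lev i < j
    · rw [hv i hi, zero_mul]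
    · rw [h1 i l (by omega), mul_zero]
  intro v
  have e0 : ∀ l : Fin 8, lev l < 0 → v l = 0 := fun l hl => absurd hl (Nat.not_lt_zero _)
  have e3 := h2 2 _ (h2 1 _ (h2 0 v e0))
  funext l
  exact e3 l (by have := lev_le l; omega)

omit [CharP k 3] in
theorem nilp_eig {V : Type u} [AddCommGroup V] [Module k V] (n : Module.End k V)
    (h : ∀ v, n (n (n v)) = 0) (e : k) (v : V) (hv : n v = e • v) (hv0 : v ≠ 0) : e = 0 := by
  have h1 := h v
  rw [hv, map_smul, hv, map_smul, map_smul, hv, smul_smul, smul_smul] at h1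
  rcases smul_eq_zero.1 h1 with h5 | h5
  · simpa only [mul_eq_zero, or_self] using h5
  · exact absurd h5 hv0

variable (k) in
/-- The module `S_2` is indecomposable. -/
theorem indec : IsIndecomposable (md k 2) := by
  constructor
  · have h : Nontrivial (Fin 8 → k) := inferInstance
    exact h
  · intro A B hA hB hAB
    let E : Module.End k (md k 2).carrier := A.projection B hAB
    have hEA : ∀ v ∈ A, E v = v := fun v hv => Submodule.projection_apply_of_mem_left hAB hv
    have hEB : ∀ v ∈ B, E v = 0 := fun v hv => (Submodule.projection_apply_eq_zero_iff hAB).2 hv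
    have hcomm : ∀ z : Module.End k (md k 2).carrier, (∀ v ∈ A, z v ∈ A) → (∀ v ∈ B, z v ∈ B) →
        E ∘ₗ z = z ∘ₗ E := by
      intro z hzA hzB
      refine LinearMap.ext fun v => ?_
      obtain ⟨a, ha, b, hb, rfl⟩ := Submodule.mem_sup.1
        (show v ∈ A ⊔ B by rw [hAB.sup_eq_top]; trivial)
      simp only [LinearMap.comp_apply, map_add]
      rw [hEA a ha, hEB b hb, hEA _ (hzA a ha), hEB _ (hzB b hb), map_zero]
    obtain ⟨c, n, hn, hc⟩ := end_nilp (k := k) E (hcomm _ (fun v hv => (hA v hv).1) fun v hv => (hB v hv).1)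
      (hcomm _ (fun v hv => (hA v hv).2) fun v hv => (hB v hv).2)
    by_contra hcon
    rw [not_or] at hcon
    obtain ⟨a, ha, ha0⟩ := (Submodule.ne_bot_iff A).1 hcon.1
    obtain ⟨b, hb, hb0⟩ := (Submodule.ne_bot_iff B).1 hcon.2
    have key : ∀ d : k, ∀ v : (md k 2).carrier, E v = d • v → v ≠ 0 → d = c := by
      intro d v hv hv0
      have h2 : n v = (d - c) • v := by
        have h := hn v
        rw [sub_smul]
        exact eq_sub_of_add_eq' (h.symm.trans hv)
      exact sub_eq_zero.1 (nilp_eig n hc (d - c) v h2 hv0)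
    have h1 := key 1 a (by rw [hEA a ha, one_smul]) ha0
    have h0 := key 0 b (by rw [hEB b hb, zero_smul]) hb0
    exact one_ne_zero (h1.trans h0.symm)

end Pool.Agent.H29.BC
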