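import Pool.Agent.H29.BC.Data
import Pool.Agent.H29.BC.Base

/-!
# The four modules and their charts
-/

open CategoryTheory MonoidalCategory
open scoped TensorProduct

universe u

namespace Pool.Agent.H29.BC

open AlphaRep

variable (k : Type u) [Field k] [CharP k 3]

theorem chkMod_and (a : Fin 4) :
    eqA (dM a) (dM a) (mulA (dM a) (aX a) (aY a)) (mulA (dM a) (aY a) (aX a)) = true ∧
    eqA (dM a) (dM a) (mulA (dM a) (aX a) (mulA (dM a) (aX a) (aX a))) zeroA = true ∧
    eqA (dM a) (dM a) (mulA (dM a) (aY a) (mulA (dM a) (aY a) (aY a))) zeroA = true ∧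
    eqA (dJ a) (dM a) (mulA (dM a) (aX a) (aI a)) zeroA = true ∧
    eqA (dM a) (dJ a) (mulA (dM a) (aP a) (aX a)) zeroA = true ∧
    eqA (dJ a) (dJ a) (mulA (dM a) (aP a) (aI a)) oneA = true ∧
    eqA (dM a) (dM a) (addA (mulA (dJ a) (aI a) (aP a))
      (addA (addA (mulA (dM a) (aX a) (mulA (dM a) (aX a) (aH a)))
        (mulA (dM a) (aX a) (mulA (dM a) (aH a) (aX a))))
        (mulA (dM a) (aH a) (mulA (dM a) (aX a) (aX a))))) oneA = true := by
  have h := chkMod_true a
  simp only [chkMod, Bool.and_eq_true] at h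
  obtain ⟨⟨⟨⟨⟨⟨h1, h2⟩, h3⟩, h4⟩, h5⟩, h6⟩, h7⟩ := h
  exact ⟨h1, h2, h3, h4, h5, h6, h7⟩

/-- The four modules. -/
noncomputable def md (a : Fin 4) : AlphaRep k 3 1 1 where
  carrier := Fin (dM a) → k
  x := op k (dM a) (dM a) (aX a)
  y := op k (dM a) (dM a) (aY a)
  comm := by
    rw [Module.End.mul_eq_comp, Module.End.mul_eq_comp, op_comp, op_comp]
    exact op_congr (chkMod_and a).1
  x_pow := by
    rw [pow_one, pow_succ', pow_two, Module.End.mul_eq_comp, Module.End.mul_eq_comp, op_comp,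
      op_comp, ← op_zero (k := k) (dM a) (dM a)]
    exact op_congr (chkMod_and a).2.1
  y_pow := by
    rw [pow_one, pow_succ', pow_two, Module.End.mul_eq_comp, Module.End.mul_eq_comp, op_comp,
      op_comp, ← op_zero (k := k) (dM a) (dM a)]
    exact op_congr (chkMod_and a).2.2.1

/-- The splitting datum of `md a`. -/
noncomputable def gd (a : Fin 4) : Good (md k a).x (Fin (dJ a) → k) where
  ι := op k (dJ a) (dM a) (aI a)
  π := op k (dM a) (dJ a) (aP a)
  h := op k (dM a) (dM a) (aH a)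
  xι j := by
    have h : op k (dM a) (dM a) (aX a) ∘ₗ op k (dJ a) (dM a) (aI a) = 0 := by
      rw [op_comp, ← op_zero (k := k) (dJ a) (dM a)]
      exact op_congr (chkMod_and a).2.2.2.1
    exact LinearMap.congr_fun h j
  πx m := by
    have h : op k (dM a) (dJ a) (aP a) ∘ₗ op k (dM a) (dM a) (aX a) = 0 := by
      rw [op_comp, ← op_zero (k := k) (dM a) (dJ a)]
      exact op_congr (chkMod_and a).2.2.2.2.1
    exact LinearMap.congr_fun h m
  πι j := by
    have h : op k (dM a) (dJ a) (aP a) ∘ₗ op k (dJ a) (dM a) (aI a) = LinearMap.id := by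
      rw [op_comp, ← op_one (k := k) (dJ a)]
      exact op_congr (chkMod_and a).2.2.2.2.2.1
    exact LinearMap.congr_fun h j
  split m := by
    have h : op k (dJ a) (dM a) (aI a) ∘ₗ op k (dM a) (dJ a) (aP a) +
        ((op k (dM a) (dM a) (aX a) ∘ₗ (op k (dM a) (dM a) (aX a) ∘ₗ op k (dM a) (dM a) (aH a)) +
        op k (dM a) (dM a) (aX a) ∘ₗ (op k (dM a) (dM a) (aH a) ∘ₗ op k (dM a) (dM a) (aX a))) +
        op k (dM a) (dM a) (aH a) ∘ₗ (op k (dM a) (dM a) (aX a) ∘ₗ op k (dM a) (dM a) (aX a))) =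
        LinearMap.id := by
      simp only [op_comp, op_add]
      rw [← op_one (k := k) (dM a)]
      exact op_congr (chkMod_and a).2.2.2.2.2.2
    exact LinearMap.congr_fun h m

/-- The index of a basis vector of `J`. -/
def emb (a : Fin 4) (i : Fin (dJ a)) : Fin (dM a) :=
  ⟨off a + i, by have := off_add a; have := i.2; omega⟩

omit [CharP k 3] in
theorem op_aI_eb (a : Fin 4) (i : Fin (dJ a)) :
    op k (dJ a) (dM a) (aI a) (eb i) = eb (emb a i) := by
  rw [op_eb]
  funext l
  rw [eb_apply]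
  simp only [aI]
  by_cases hl : l = emb a i
  · rw [if_pos hl, hl]
    simp [emb]
  · rw [if_neg hl]
    have h' : Nat.beq (l : ℕ) (off a + i) = false := by
      rcases hb : Nat.beq (l : ℕ) (off a + i) with _ | _
      · rfl
      · exact absurd (Fin.ext (Nat.eq_of_beq_eq_true hb)) hl
    rw [h']
    simp

omit [CharP k 3] in
theorem op_aP (a : Fin 4) (v : Fin (dM a) → k) (i : Fin (dJ a)) :
    op k (dM a) (dJ a) (aP a) v i = v (emb a i) := by
  rw [op_apply, Finset.sum_eq_single (emb a i)]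
  · simp [aP, emb]
  · intro l _ hl
    have h' : Nat.beq (off a + i) (l : ℕ) = false := by
      rcases hb : Nat.beq (off a + i) (l : ℕ) with _ | _
      · rfl
      · exact absurd (Fin.ext (Nat.eq_of_beq_eq_true hb).symm) hl
    simp only [aP, h']
    simp
  · simp

theorem gd_ι_eb (a : Fin 4) (i : Fin (dJ a)) : (gd k a).ι (eb i) = eb (emb a i) :=
  op_aI_eb k a i

theorem gd_π (a : Fin 4) (v : Fin (dM a) → k) (i : Fin (dJ a)) :
    (gd k a).π v i = v (emb a i) := op_aP k a v i

variable {k}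

/-- The chart of `ρ_a`. -/
noncomputable def ch {ω : k} (hω : ω ^ 5 = 1) (a : Fin 4) : Chart (rhoF hω a) where
  M := md k a
  good := gd k a

/-- The projections `S_a ⊗ S_b ⟶ S_c`. -/
noncomputable def mG (a b : Fin 4) (t : Fin (nT a b)) : md k a ⊗ md k b ⟶ md k (cT a b t) where
  lin := gT k (dM a) (dM b) (dM (cT a b t)) (aG a b t)
  comm_x := by
    have h := chkG_true a b t
    rw [chkG, Bool.and_eq_true] at h
    have h2 : gT k (dM a) (dM b) (dM (cT a b t)) (aG a b t) ∘ₗ
        (TensorProduct.map (op k (dM a) (dM a) (aX a)) LinearMap.id +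
          TensorProduct.map LinearMap.id (op k (dM b) (dM b) (aX b))) =
        op k (dM (cT a b t)) (dM (cT a b t)) (aX (cT a b t)) ∘ₗ
          gT k (dM a) (dM b) (dM (cT a b t)) (aG a b t) := by
      rw [LinearMap.comp_add, gT_pre1, gT_pre2, gT_post, gT_add]
      exact gT_congr h.1
    exact h2
  comm_y := by
    have h := chkG_true a b t
    rw [chkG, Bool.and_eq_true] at h
    have h2 : gT k (dM a) (dM b) (dM (cT a b t)) (aG a b t) ∘ₗ
        (TensorProduct.map (op k (dM a) (dM a) (aY a)) LinearMap.id +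
          TensorProduct.map LinearMap.id (op k (dM b) (dM b) (aY b))) =
        op k (dM (cT a b t)) (dM (cT a b t)) (aY (cT a b t)) ∘ₗ
          gT k (dM a) (dM b) (dM (cT a b t)) (aG a b t) := by
      rw [LinearMap.comp_add, gT_pre1, gT_pre2, gT_post, gT_add]
      exact gT_congr h.2
    exact h2

/-- The inclusions `S_c ⟶ S_a ⊗ S_b`. -/
noncomputable def mF (a b : Fin 4) (t : Fin (nT a b)) : md k (cT a b t) ⟶ md k a ⊗ md k b where
  lin := fT k (dM a) (dM b) (dM (cT a b t)) (aF a b t)
  comm_x := by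
    have h := chkF_true a b t
    rw [chkF, Bool.and_eq_true] at h
    have h2 : fT k (dM a) (dM b) (dM (cT a b t)) (aF a b t) ∘ₗ
          op k (dM (cT a b t)) (dM (cT a b t)) (aX (cT a b t)) =
        (TensorProduct.map (op k (dM a) (dM a) (aX a)) LinearMap.id +
          TensorProduct.map LinearMap.id (op k (dM b) (dM b) (aX b))) ∘ₗ
          fT k (dM a) (dM b) (dM (cT a b t)) (aF a b t) := by
      rw [LinearMap.add_comp, fT_pre1, fT_pre2, fT_post, fT_add]
      exact (fT_congr h.1).symm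
    exact h2
  comm_y := by
    have h := chkF_true a b t
    rw [chkF, Bool.and_eq_true] at h
    have h2 : fT k (dM a) (dM b) (dM (cT a b t)) (aF a b t) ∘ₗ
          op k (dM (cT a b t)) (dM (cT a b t)) (aY (cT a b t)) =
        (TensorProduct.map (op k (dM a) (dM a) (aY a)) LinearMap.id +
          TensorProduct.map LinearMap.id (op k (dM b) (dM b) (aY b))) ∘ₗ
          fT k (dM a) (dM b) (dM (cT a b t)) (aF a b t) := by
      rw [LinearMap.add_comp, fT_pre1, fT_pre2, fT_post, fT_add]
      exact (fT_congr h.2).symm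
    exact h2

end Pool.Agent.H29.BC
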