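import Pool.Agent.H29.BC.Rep

/-!
# Negligible morphisms

A morphism `f : M ⟶ N` of representations is negligible if `tr (f ≫ g) = 0` for all `g : N ⟶ M`.
Negligible morphisms form a tensor ideal.
-/

open CategoryTheory MonoidalCategory
open scoped TensorProduct

universe u

namespace Pool.Agent.H29.BC

namespace AlphaRep

variable {k : Type u} [Field k] {p r s : ℕ}

/-- The trace of an endomorphism. -/
noncomputable def tr {M : AlphaRep k p r s} (f : M ⟶ M) : k := LinearMap.trace k M.carrier f.lin

theorem tr_comm {M N : AlphaRep k p r s} (f : M ⟶ N) (g : N ⟶ M) : tr (f ≫ g) = tr (g ≫ f) :=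
  LinearMap.trace_comp_comm' f.lin g.lin

@[simp] theorem tr_add {M : AlphaRep k p r s} (f g : M ⟶ M) : tr (f + g) = tr f + tr g :=
  map_add _ _ _

@[simp] theorem tr_zero {M : AlphaRep k p r s} : tr (0 : M ⟶ M) = 0 := map_zero _

@[simp] theorem tr_sub {M : AlphaRep k p r s} (f g : M ⟶ M) : tr (f - g) = tr f - tr g :=
  map_sub _ _ _

@[simp] theorem tr_smul {M : AlphaRep k p r s} (c : k) (f : M ⟶ M) : tr (c • f) = c * tr f :=
  map_smul _ _ _

/-- A morphism `f : M ⟶ N` is negligible if `tr (f ≫ g) = 0` for every `g : N ⟶ M`. -/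
def Negligible {M N : AlphaRep k p r s} (f : M ⟶ N) : Prop := ∀ g : N ⟶ M, tr (f ≫ g) = 0

namespace Negligible

variable {M N L : AlphaRep k p r s}

theorem zero : Negligible (0 : M ⟶ N) := fun g => by simp

theorem add {f g : M ⟶ N} (hf : Negligible f) (hg : Negligible g) : Negligible (f + g) :=
  fun h => by rw [Preadditive.add_comp, tr_add, hf h, hg h, add_zero]

theorem smul (c : k) {f : M ⟶ N} (hf : Negligible f) : Negligible (c • f) :=
  fun h => by rw [Linear.smul_comp, tr_smul, hf h, mul_zero]

theorem neg {f : M ⟶ N} (hf : Negligible f) : Negligible (-f) := by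
  have := hf.smul (-1)
  rwa [neg_one_smul] at this

theorem sub {f g : M ⟶ N} (hf : Negligible f) (hg : Negligible g) : Negligible (f - g) := by
  rw [sub_eq_add_neg]
  exact hf.add hg.neg

theorem comp_left (f : M ⟶ N) {g : N ⟶ L} (hg : Negligible g) : Negligible (f ≫ g) := fun h => by
  rw [tr_comm, ← Category.assoc, tr_comm]
  exact hg (h ≫ f)

theorem comp_right {f : M ⟶ N} (g : N ⟶ L) (hf : Negligible f) : Negligible (f ≫ g) := fun h => by
  rw [Category.assoc]
  exact hf (g ≫ h)

end Negligible

end AlphaRep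

end Pool.Agent.H29.BC
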