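import Pool.Agent.H29.BC.Negl

/-!
# Job BC-NEG: negligible morphisms are stable under tensoring with an object

Fill the sorry in `Negligible.whiskerLeft`.

Proof.  Let `f : M ⟶ N` be negligible and `g : L ⊗ N ⟶ L ⊗ M`.  We must show
`tr ((L ◁ f) ≫ g) = 0`.  Let `T : L ⊗ N →ₗ L ⊗ M` be `g.lin`.  For a linear map
`T : L ⊗ N →ₗ L ⊗ M` define the partial trace `ptr T : N →ₗ M`; three possible definitions:

* with a basis `b` of `L` (`Module.finBasis k L.carrier`, `L.carrier` is finite-dimensional over a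
  field):  `ptr T n = ∑ i, (b.coord i ⊗ id_M) (T (b i ⊗ n))`, where `(b.coord i ⊗ id_M)` is
  `TensorProduct.lid k M ∘ TensorProduct.map (b.coord i) LinearMap.id`;
* or as the unique linear map `Hom(L ⊗ N, L ⊗ M) ≃ End(L) ⊗ Hom(N, M) → Hom(N, M)`,
  `A ⊗ B ↦ trace(A) • B` (`homTensorHomEquiv`, finite free modules).

The facts needed (all are linear in `T`, and every `T` is a finite sum of maps
`TensorProduct.map A B` with `A : End L`, `B : N →ₗ M`, since `homTensorHomEquiv` is surjective; so
it suffices to check them for `T = map A B`, where `ptr (map A B) = trace A • B`, by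
`LinearMap.trace_tensorProduct'` and the like):

1. `trace (T ∘ₗ map id f) = trace (ptr T ∘ₗ f)` for `f : M →ₗ N`
   (`trace (map A (B ∘ f)) = trace A * trace (B ∘ f)`).
2. `ptr (T ∘ₗ map id y) = ptr T ∘ₗ y` for `y : N →ₗ N` and `ptr (map id y' ∘ₗ T) = y' ∘ₗ ptr T` for
   `y' : M →ₗ M`.
3. `ptr (T ∘ₗ map z id) = ptr (map z id ∘ₗ T)` for `z : End L` (`trace (A z) = trace (z A)`).

Now `T = g.lin` commutes with `x`:
`T ∘ (map L.x id + map id N.x) = (map L.x id + map id M.x) ∘ T` (this is `g.comm_x` with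
`tensorObj_x`, `sumOp`).  Apply `ptr` and use 2, 3:  `ptr T ∘ N.x = M.x ∘ ptr T`.  The same for `y`.
So `h := ⟨ptr T, _, _⟩ : N ⟶ M` is a morphism of representations, and by 1
`tr ((L ◁ f) ≫ g) = trace (T ∘ₗ map id f.lin) = trace (ptr T ∘ₗ f.lin) = tr (f ≫ h) = 0`.
-/

open CategoryTheory MonoidalCategory
open scoped TensorProduct

universe u

namespace Pool.Agent.H29.BC

section PartialTrace

variable {k : Type u} [Field k] {L M N : Type u} [AddCommGroup L] [Module k L]
  [AddCommGroup M] [Module k M] [AddCommGroup N] [Module k N]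
  [Module.Finite k L] [Module.Finite k M] [Module.Finite k N]

/-- The partial trace over the first factor. -/
noncomputable def negPtr : (L ⊗[k] N →ₗ[k] L ⊗[k] M) →ₗ[k] (N →ₗ[k] M) :=
  (TensorProduct.lid k (N →ₗ[k] M)).toLinearMap ∘ₗ
    TensorProduct.map (LinearMap.trace k L) LinearMap.id ∘ₗ
      (homTensorHomEquiv k L N L M).symm.toLinearMap

theorem negPtr_map (A : L →ₗ[k] L) (B : N →ₗ[k] M) :
    negPtr (TensorProduct.map A B) = LinearMap.trace k L A • B := by
  have h : (homTensorHomEquiv k L N L M).symm (TensorProduct.map A B) = A ⊗ₜ[k] B := by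
    rw [LinearEquiv.symm_apply_eq, homTensorHomEquiv_apply]
    rfl
  simp [negPtr, h]

theorem negPtr_ind {P : (L ⊗[k] N →ₗ[k] L ⊗[k] M) → Prop} (h0 : P 0)
    (hadd : ∀ S T, P S → P T → P (S + T))
    (hmap : ∀ (A : L →ₗ[k] L) (B : N →ₗ[k] M), P (TensorProduct.map A B))
    (T : L ⊗[k] N →ₗ[k] L ⊗[k] M) : P T := by
  obtain ⟨z, rfl⟩ := (homTensorHomEquiv k L N L M).surjective T
  induction z using TensorProduct.induction_on with
  | zero => rw [map_zero]; exact h0
  | tmul A B =>
    have h : homTensorHomEquiv k L N L M (A ⊗ₜ[k] B) = TensorProduct.map A B := by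
      rw [homTensorHomEquiv_apply]
      rfl
    rw [h]
    exact hmap A B
  | add a b ha hb => rw [map_add]; exact hadd _ _ ha hb

theorem negPtr_trace (f : M →ₗ[k] N) (T : L ⊗[k] N →ₗ[k] L ⊗[k] M) :
    LinearMap.trace k (L ⊗[k] M) (T ∘ₗ TensorProduct.map LinearMap.id f) =
      LinearMap.trace k M (negPtr T ∘ₗ f) := by
  induction T using negPtr_ind with
  | h0 => simp
  | hadd S T hS hT =>
    rw [LinearMap.add_comp, map_add, hS, hT, map_add, LinearMap.add_comp, map_add]
  | hmap A B =>
    rw [← TensorProduct.map_comp, LinearMap.comp_id, LinearMap.trace_tensorProduct', negPtr_map,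
      LinearMap.smul_comp, map_smul, smul_eq_mul]

theorem negPtr_right (y : N →ₗ[k] N) (T : L ⊗[k] N →ₗ[k] L ⊗[k] M) :
    negPtr (T ∘ₗ TensorProduct.map LinearMap.id y) = negPtr T ∘ₗ y := by
  induction T using negPtr_ind with
  | h0 => simp
  | hadd S T hS hT =>
    rw [LinearMap.add_comp, map_add, hS, hT, map_add, LinearMap.add_comp]
  | hmap A B =>
    rw [← TensorProduct.map_comp, LinearMap.comp_id, negPtr_map, negPtr_map,
      LinearMap.smul_comp]

theorem negPtr_left (y : M →ₗ[k] M) (T : L ⊗[k] N →ₗ[k] L ⊗[k] M) :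
    negPtr (TensorProduct.map LinearMap.id y ∘ₗ T) = y ∘ₗ negPtr T := by
  induction T using negPtr_ind with
  | h0 => simp
  | hadd S T hS hT =>
    rw [LinearMap.comp_add, map_add, hS, hT, map_add, LinearMap.comp_add]
  | hmap A B =>
    rw [← TensorProduct.map_comp, LinearMap.id_comp, negPtr_map, negPtr_map,
      LinearMap.comp_smul]

theorem negPtr_comm (z : L →ₗ[k] L) (T : L ⊗[k] N →ₗ[k] L ⊗[k] M) :
    negPtr (T ∘ₗ TensorProduct.map z LinearMap.id) =
      negPtr (TensorProduct.map z LinearMap.id ∘ₗ T) := by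
  induction T using negPtr_ind with
  | h0 => simp
  | hadd S T hS hT =>
    rw [LinearMap.add_comp, map_add, hS, hT, LinearMap.comp_add, map_add]
  | hmap A B =>
    rw [← TensorProduct.map_comp, ← TensorProduct.map_comp, LinearMap.id_comp,
      LinearMap.comp_id, negPtr_map, negPtr_map, LinearMap.trace_comp_comm']

theorem negPtr_intertwine {z : L →ₗ[k] L} {y : N →ₗ[k] N} {y' : M →ₗ[k] M}
    {T : L ⊗[k] N →ₗ[k] L ⊗[k] M}
    (h : T ∘ₗ (TensorProduct.map z LinearMap.id + TensorProduct.map LinearMap.id y) =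
      (TensorProduct.map z LinearMap.id + TensorProduct.map LinearMap.id y') ∘ₗ T) :
    negPtr T ∘ₗ y = y' ∘ₗ negPtr T := by
  have h1 := congrArg negPtr h
  rw [LinearMap.comp_add, LinearMap.add_comp, map_add, map_add, negPtr_right, negPtr_left,
    negPtr_comm] at h1
  exact add_left_cancel h1

end PartialTrace

namespace AlphaRep

variable {k : Type u} [Field k] {p r s : ℕ} [CharP k p] [Fact p.Prime]

theorem Negligible.whiskerLeft (L : AlphaRep k p r s) {M N : AlphaRep k p r s} {f : M ⟶ N}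
    (hf : Negligible f) : Negligible (L ◁ f) := by
  intro g
  let T : L.carrier ⊗[k] N.carrier →ₗ[k] L.carrier ⊗[k] M.carrier := g.lin
  let h : N ⟶ M :=
    { lin := negPtr T
      comm_x := negPtr_intertwine (z := L.x) g.comm_x
      comm_y := negPtr_intertwine (z := L.y) g.comm_y }
  have h1 : tr ((L ◁ f) ≫ g) = tr (f ≫ h) := negPtr_trace f.lin T
  rw [h1]
  exact hf h

theorem Negligible.whiskerRight (L : AlphaRep k p r s) {M N : AlphaRep k p r s} {f : M ⟶ N}
    (hf : Negligible f) : Negligible (f ▷ L) := by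
  intro g
  have h := Negligible.whiskerLeft L hf ((β_ L N).hom ≫ g ≫ (β_ M L).hom)
  have h2 : (f ▷ L) = (β_ M L).hom ≫ (L ◁ f) ≫ (β_ L N).hom := by
    rw [← BraidedCategory.braiding_naturality_left_assoc]
    simp
  rw [h2, Category.assoc, tr_comm, Category.assoc, Category.assoc]
  exact h

end AlphaRep

end Pool.Agent.H29.BC
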