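import Mathlib

/-!
# Representations of the finite group scheme `α_p(r,s)`

The group algebra of `α_p(r,s)` over a field `k` of characteristic `p` is
`k[x,y]/(x^(p^r), y^(p^s))` with `x` and `y` primitive.  A finite-dimensional representation is a
finite-dimensional vector space with two commuting endomorphisms `x`, `y` with `x^(p^r) = 0`,
`y^(p^s) = 0`; on a tensor product `x` acts by `x ⊗ 1 + 1 ⊗ x`, and the same for `y`.
-/

open CategoryTheory MonoidalCategory
open scoped TensorProduct

universe u

namespace Pool.Agent.H29.BC

/-- A finite-dimensional representation of `α_p(r,s)` over `k`. -/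
structure AlphaRep (k : Type u) [Field k] (p r s : ℕ) where
  /-- the underlying vector space -/
  carrier : Type u
  [grp : AddCommGroup carrier]
  [mod : Module k carrier]
  [fin : Module.Finite k carrier]
  /-- the action of `x` -/
  x : Module.End k carrier
  /-- the action of `y` -/
  y : Module.End k carrier
  comm : x * y = y * x
  x_pow : x ^ p ^ r = 0
  y_pow : y ^ p ^ s = 0

namespace AlphaRep

attribute [instance] grp mod fin

variable {k : Type u} [Field k] {p r s : ℕ}

/-- A morphism of representations: a linear map commuting with `x` and `y`. -/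
@[ext]
structure Hom (M N : AlphaRep k p r s) where
  /-- the underlying linear map -/
  lin : M.carrier →ₗ[k] N.carrier
  comm_x : lin ∘ₗ M.x = N.x ∘ₗ lin
  comm_y : lin ∘ₗ M.y = N.y ∘ₗ lin

/-- The identity morphism. -/
def Hom.id (M : AlphaRep k p r s) : Hom M M := ⟨LinearMap.id, rfl, rfl⟩

/-- Composition of morphisms. -/
def Hom.comp {M N L : AlphaRep k p r s} (f : Hom M N) (g : Hom N L) : Hom M L where
  lin := g.lin ∘ₗ f.lin
  comm_x := by rw [LinearMap.comp_assoc, f.comm_x, ← LinearMap.comp_assoc, g.comm_x,
    LinearMap.comp_assoc]
  comm_y := by rw [LinearMap.comp_assoc, f.comm_y, ← LinearMap.comp_assoc, g.comm_y,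
    LinearMap.comp_assoc]

instance : Category (AlphaRep k p r s) where
  Hom := Hom
  id := Hom.id
  comp := Hom.comp

@[ext]
theorem hom_ext {M N : AlphaRep k p r s} {f g : M ⟶ N} (h : f.lin = g.lin) : f = g :=
  Hom.ext h

@[simp] theorem id_lin (M : AlphaRep k p r s) : (𝟙 M : M ⟶ M).lin = LinearMap.id := rfl

@[simp] theorem comp_lin {M N L : AlphaRep k p r s} (f : M ⟶ N) (g : N ⟶ L) :
    (f ≫ g).lin = g.lin ∘ₗ f.lin := rfl

section Linear

variable (M N : AlphaRep k p r s)

instance : Zero (M ⟶ N) := ⟨⟨0, by simp, by simp⟩⟩
instance : Add (M ⟶ N) := ⟨fun f g => ⟨f.lin + g.lin,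
  by rw [LinearMap.add_comp, LinearMap.comp_add, f.comm_x, g.comm_x],
  by rw [LinearMap.add_comp, LinearMap.comp_add, f.comm_y, g.comm_y]⟩⟩
instance : Neg (M ⟶ N) := ⟨fun f => ⟨-f.lin,
  by rw [LinearMap.neg_comp, LinearMap.comp_neg, f.comm_x],
  by rw [LinearMap.neg_comp, LinearMap.comp_neg, f.comm_y]⟩⟩
instance : Sub (M ⟶ N) := ⟨fun f g => ⟨f.lin - g.lin,
  by rw [LinearMap.sub_comp, LinearMap.comp_sub, f.comm_x, g.comm_x],
  by rw [LinearMap.sub_comp, LinearMap.comp_sub, f.comm_y, g.comm_y]⟩⟩
instance : SMul k (M ⟶ N) := ⟨fun c f => ⟨c • f.lin,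
  by rw [LinearMap.smul_comp, LinearMap.comp_smul, f.comm_x],
  by rw [LinearMap.smul_comp, LinearMap.comp_smul, f.comm_y]⟩⟩
instance : SMul ℕ (M ⟶ N) := ⟨fun c f => ⟨c • f.lin,
  by rw [LinearMap.smul_comp, LinearMap.comp_smul, f.comm_x],
  by rw [LinearMap.smul_comp, LinearMap.comp_smul, f.comm_y]⟩⟩
instance : SMul ℤ (M ⟶ N) := ⟨fun c f => ⟨c • f.lin,
  by rw [LinearMap.smul_comp, LinearMap.comp_smul, f.comm_x],
  by rw [LinearMap.smul_comp, LinearMap.comp_smul, f.comm_y]⟩⟩

variable {M N}

@[simp] theorem zero_lin : (0 : M ⟶ N).lin = 0 := rfl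
@[simp] theorem add_lin (f g : M ⟶ N) : (f + g).lin = f.lin + g.lin := rfl
@[simp] theorem neg_lin (f : M ⟶ N) : (-f).lin = -f.lin := rfl
@[simp] theorem sub_lin (f g : M ⟶ N) : (f - g).lin = f.lin - g.lin := rfl
@[simp] theorem smul_lin (c : k) (f : M ⟶ N) : (c • f).lin = c • f.lin := rfl

theorem lin_injective : Function.Injective (fun f : M ⟶ N => f.lin) := fun _ _ h => hom_ext h

variable (M N)

instance : AddCommGroup (M ⟶ N) :=
  Function.Injective.addCommGroup (fun f : M ⟶ N => f.lin) lin_injective rfl
    (fun _ _ => rfl) (fun _ => rfl) (fun _ _ => rfl) (fun _ _ => rfl) (fun _ _ => rfl)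

/-- The additive map sending a morphism to the underlying linear map. -/
def linHom : (M ⟶ N) →+ (M.carrier →ₗ[k] N.carrier) where
  toFun f := f.lin
  map_zero' := rfl
  map_add' _ _ := rfl

instance : Module k (M ⟶ N) :=
  Function.Injective.module k (linHom M N) lin_injective (fun _ _ => rfl)

end Linear

instance : Preadditive (AlphaRep k p r s) where
  add_comp _ _ _ f g h := hom_ext (by simp [LinearMap.comp_add])
  comp_add _ _ _ f g h := hom_ext (by simp [LinearMap.add_comp])

instance : Linear k (AlphaRep k p r s) where
  smul_comp _ _ _ c f g := hom_ext (by simp [LinearMap.comp_smul])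
  comp_smul _ _ _ f c g := hom_ext (by simp [LinearMap.smul_comp])

variable (k p r s) in
/-- The forgetful functor to vector spaces. -/
def toMod : AlphaRep k p r s ⥤ ModuleCat.{u} k where
  obj M := ModuleCat.of k M.carrier
  map f := ModuleCat.ofHom f.lin

instance : (toMod k p r s).Faithful where
  map_injective h := hom_ext (congrArg ModuleCat.Hom.hom h)

section Monoidal

variable [CharP k p] [Fact p.Prime]

/-- The operator `a ⊗ 1 + 1 ⊗ b` on a tensor product. -/
noncomputable abbrev sumOp {V W : Type u} [AddCommGroup V] [Module k V] [AddCommGroup W]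
    [Module k W] (a : Module.End k V) (b : Module.End k W) : Module.End k (V ⊗[k] W) :=
  TensorProduct.map a LinearMap.id + TensorProduct.map LinearMap.id b

theorem sumOp_comm {V W : Type u} [AddCommGroup V] [Module k V] [AddCommGroup W]
    [Module k W] {a a' : Module.End k V} {b b' : Module.End k W} (ha : a * a' = a' * a)
    (hb : b * b' = b' * b) : sumOp a b * sumOp a' b' = sumOp a' b' * sumOp a b := by
  refine TensorProduct.ext' fun v w => ?_
  have h1 : a (a' v) = a' (a v) := LinearMap.congr_fun ha v
  have h2 : b (b' w) = b' (b w) := LinearMap.congr_fun hb w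
  simp only [sumOp, Module.End.mul_apply, LinearMap.add_apply, TensorProduct.map_tmul,
    LinearMap.id_apply, map_add, h1, h2]
  abel

theorem sumOp_pow (p : ℕ) [CharP k p] [Fact p.Prime] {V W : Type u} [AddCommGroup V] [Module k V]
    [AddCommGroup W] [Module k W] {a : Module.End k V} {b : Module.End k W} {n : ℕ}
    (ha : a ^ p ^ n = 0) (hb : b ^ p ^ n = 0) : sumOp a b ^ p ^ n = 0 := by
  have hc : Commute (TensorProduct.map a (LinearMap.id : W →ₗ[k] W))
      (TensorProduct.map (LinearMap.id : V →ₗ[k] V) b) := by
    refine TensorProduct.ext' fun v w => ?_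
    simp [Module.End.mul_apply]
  have hchar : CharP (Module.End k (V ⊗[k] W)) p ∨ Subsingleton (Module.End k (V ⊗[k] W)) := by
    by_cases hs : Subsingleton (V ⊗[k] W)
    · right
      exact ⟨fun f g => LinearMap.ext fun x => Subsingleton.elim _ _⟩
    · left
      have : Nontrivial (V ⊗[k] W) := not_subsingleton_iff_nontrivial.mp hs
      exact charP_of_injective_algebraMap (algebraMap k _).injective p
  rcases hchar with h | h
  · have hp : ∀ m, (TensorProduct.map a (LinearMap.id : W →ₗ[k] W)) ^ m =
        TensorProduct.map (a ^ m) LinearMap.id := by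
      intro m
      rw [TensorProduct.map_pow]
      congr 1
      exact one_pow m
    have hq : ∀ m, (TensorProduct.map (LinearMap.id : V →ₗ[k] V) b) ^ m =
        TensorProduct.map LinearMap.id (b ^ m) := by
      intro m
      rw [TensorProduct.map_pow]
      congr 1
      exact one_pow m
    rw [sumOp, add_pow_char_pow_of_commute _ _ hc, hp, hq, ha, hb]
    simp
  · exact Subsingleton.elim _ _

noncomputable instance : MonoidalCategoryStruct (AlphaRep k p r s) where
  tensorObj M N :=
    { carrier := M.carrier ⊗[k] N.carrier
      x := sumOp M.x N.x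
      y := sumOp M.y N.y
      comm := sumOp_comm M.comm N.comm
      x_pow := sumOp_pow p M.x_pow N.x_pow
      y_pow := sumOp_pow p M.y_pow N.y_pow }
  whiskerLeft M _ _ f :=
    { lin := TensorProduct.map LinearMap.id f.lin
      comm_x := by
        refine TensorProduct.ext' fun v w => ?_
        have := LinearMap.congr_fun f.comm_x w
        simp_all [sumOp]
      comm_y := by
        refine TensorProduct.ext' fun v w => ?_
        have := LinearMap.congr_fun f.comm_y w
        simp_all [sumOp] }
  whiskerRight f N :=
    { lin := TensorProduct.map f.lin LinearMap.id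
      comm_x := by
        refine TensorProduct.ext' fun v w => ?_
        have := LinearMap.congr_fun f.comm_x v
        simp_all [sumOp]
      comm_y := by
        refine TensorProduct.ext' fun v w => ?_
        have := LinearMap.congr_fun f.comm_y v
        simp_all [sumOp] }
  tensorHom f g :=
    { lin := TensorProduct.map f.lin g.lin
      comm_x := by
        refine TensorProduct.ext' fun v w => ?_
        have h1 := LinearMap.congr_fun f.comm_x v
        have h2 := LinearMap.congr_fun g.comm_x w
        simp_all [sumOp]
      comm_y := by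
        refine TensorProduct.ext' fun v w => ?_
        have h1 := LinearMap.congr_fun f.comm_y v
        have h2 := LinearMap.congr_fun g.comm_y w
        simp_all [sumOp] }
  tensorUnit :=
    { carrier := k
      x := 0
      y := 0
      comm := rfl
      x_pow := zero_pow (pow_ne_zero _ (Fact.out : p.Prime).ne_zero)
      y_pow := zero_pow (pow_ne_zero _ (Fact.out : p.Prime).ne_zero) }
  associator M N L :=
    { hom :=
        { lin := (TensorProduct.assoc k M.carrier N.carrier L.carrier).toLinearMap
          comm_x := by
            refine TensorProduct.ext_threefold fun u v w => ?_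
            simp [sumOp, TensorProduct.add_tmul, TensorProduct.tmul_add, add_assoc]
          comm_y := by
            refine TensorProduct.ext_threefold fun u v w => ?_
            simp [sumOp, TensorProduct.add_tmul, TensorProduct.tmul_add, add_assoc] }
      inv :=
        { lin := (TensorProduct.assoc k M.carrier N.carrier L.carrier).symm.toLinearMap
          comm_x := by
            refine TensorProduct.ext (LinearMap.ext fun u => TensorProduct.ext' fun v w => ?_)
            simp [sumOp, TensorProduct.add_tmul, TensorProduct.tmul_add, add_assoc]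
          comm_y := by
            refine TensorProduct.ext (LinearMap.ext fun u => TensorProduct.ext' fun v w => ?_)
            simp [sumOp, TensorProduct.add_tmul, TensorProduct.tmul_add, add_assoc] }
      hom_inv_id := hom_ext (by ext; simp)
      inv_hom_id := hom_ext (by ext; simp) }
  leftUnitor M :=
    { hom :=
        { lin := (TensorProduct.lid k M.carrier).toLinearMap
          comm_x := by
            refine TensorProduct.ext' fun v w => ?_
            simp [sumOp]
          comm_y := by
            refine TensorProduct.ext' fun v w => ?_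
            simp [sumOp] }
      inv :=
        { lin := (TensorProduct.lid k M.carrier).symm.toLinearMap
          comm_x := by
            refine LinearMap.ext fun v => ?_
            simp [sumOp]
          comm_y := by
            refine LinearMap.ext fun v => ?_
            simp [sumOp] }
      hom_inv_id := hom_ext (by ext; simp)
      inv_hom_id := hom_ext (by ext; simp) }
  rightUnitor M :=
    { hom :=
        { lin := (TensorProduct.rid k M.carrier).toLinearMap
          comm_x := by
            refine TensorProduct.ext' fun v w => ?_
            simp [sumOp]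
          comm_y := by
            refine TensorProduct.ext' fun v w => ?_
            simp [sumOp] }
      inv :=
        { lin := (TensorProduct.rid k M.carrier).symm.toLinearMap
          comm_x := by
            refine LinearMap.ext fun v => ?_
            simp [sumOp]
          comm_y := by
            refine LinearMap.ext fun v => ?_
            simp [sumOp] }
      hom_inv_id := hom_ext (by ext; simp)
      inv_hom_id := hom_ext (by ext; simp) }

theorem tensorObj_x (M N : AlphaRep k p r s) : (M ⊗ N).x = sumOp M.x N.x := rfl

theorem tensorObj_y (M N : AlphaRep k p r s) : (M ⊗ N).y = sumOp M.y N.y := rfl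

@[simp] theorem tensorHom_lin {M M' N N' : AlphaRep k p r s} (f : M ⟶ M') (g : N ⟶ N') :
    (f ⊗ₘ g).lin = TensorProduct.map f.lin g.lin := rfl

@[simp] theorem whiskerLeft_lin (M : AlphaRep k p r s) {N N' : AlphaRep k p r s} (g : N ⟶ N') :
    (M ◁ g).lin = TensorProduct.map LinearMap.id g.lin := rfl

@[simp] theorem whiskerRight_lin {M M' : AlphaRep k p r s} (f : M ⟶ M') (N : AlphaRep k p r s) :
    (f ▷ N).lin = TensorProduct.map f.lin LinearMap.id := rfl

@[simp] theorem associator_hom_lin (M N L : AlphaRep k p r s) :
    (α_ M N L).hom.lin = (TensorProduct.assoc k M.carrier N.carrier L.carrier).toLinearMap := rfl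

@[simp] theorem leftUnitor_hom_lin (M : AlphaRep k p r s) :
    (λ_ M).hom.lin = (TensorProduct.lid k M.carrier).toLinearMap := rfl

@[simp] theorem rightUnitor_hom_lin (M : AlphaRep k p r s) :
    (ρ_ M).hom.lin = (TensorProduct.rid k M.carrier).toLinearMap := rfl

noncomputable instance : MonoidalCategory (AlphaRep k p r s) :=
  MonoidalCategory.ofTensorHom
    (id_tensorHom_id := fun M N => hom_ext (TensorProduct.map_id))
    (tensorHom_comp_tensorHom := fun f g h i => hom_ext (TensorProduct.map_comp _ _ _ _).symm)
    (id_tensorHom := fun M _ _ f => hom_ext rfl)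
    (tensorHom_id := fun f M => hom_ext rfl)
    (associator_naturality := fun f g h => hom_ext (by
      refine TensorProduct.ext_threefold fun u v w => ?_
      rfl))
    (leftUnitor_naturality := fun {X Y} f => hom_ext (by
      refine TensorProduct.ext' fun u v => ?_
      exact (map_smul f.lin u v).symm))
    (rightUnitor_naturality := fun {X Y} f => hom_ext (by
      refine TensorProduct.ext' fun u v => ?_
      exact (map_smul f.lin v u).symm))
    (pentagon := fun M N L P => hom_ext (by
      refine TensorProduct.ext_fourfold fun u v w z => ?_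
      rfl))
    (triangle := fun M N => hom_ext (by
      refine TensorProduct.ext_threefold fun u v w => ?_
      exact (TensorProduct.smul_tmul v u w).symm))

/-- The braiding `v ⊗ w ↦ w ⊗ v`, as a morphism. -/
noncomputable def braidHom (M N : AlphaRep k p r s) : M ⊗ N ⟶ N ⊗ M where
  lin := (TensorProduct.comm k M.carrier N.carrier).toLinearMap
  comm_x := by
    refine TensorProduct.ext' fun v w => ?_
    exact add_comm (w ⊗ₜ[k] M.x v) (N.x w ⊗ₜ[k] v)
  comm_y := by
    refine TensorProduct.ext' fun v w => ?_
    exact add_comm (w ⊗ₜ[k] M.y v) (N.y w ⊗ₜ[k] v)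

theorem braidHom_braidHom (M N : AlphaRep k p r s) : braidHom M N ≫ braidHom N M = 𝟙 _ :=
  hom_ext (by
    refine TensorProduct.ext' fun v w => ?_
    rfl)

/-- The braiding `v ⊗ w ↦ w ⊗ v`. -/
noncomputable def braid (M N : AlphaRep k p r s) : M ⊗ N ≅ N ⊗ M where
  hom := braidHom M N
  inv := braidHom N M
  hom_inv_id := braidHom_braidHom M N
  inv_hom_id := braidHom_braidHom N M

@[simp] theorem braid_hom_lin (M N : AlphaRep k p r s) :
    (braid M N).hom.lin = (TensorProduct.comm k M.carrier N.carrier).toLinearMap := rfl

noncomputable instance : BraidedCategory (AlphaRep k p r s) where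
  braiding := braid
  braiding_naturality_right _ _ _ _ := hom_ext (by
    refine TensorProduct.ext' fun u v => ?_
    rfl)
  braiding_naturality_left _ _ := hom_ext (by
    refine TensorProduct.ext' fun u v => ?_
    rfl)
  hexagon_forward _ _ _ := hom_ext (by
    refine TensorProduct.ext_threefold fun u v w => ?_
    rfl)
  hexagon_reverse M N L := hom_ext (by
    refine TensorProduct.ext (LinearMap.ext fun u => TensorProduct.ext' fun v w => ?_)
    rfl)

noncomputable instance : SymmetricCategory (AlphaRep k p r s) where
  symmetry M N := braidHom_braidHom M N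

noncomputable instance : MonoidalPreadditive (AlphaRep k p r s) where
  whiskerLeft_zero := hom_ext (TensorProduct.map_zero_right _)
  zero_whiskerRight := hom_ext (TensorProduct.map_zero_left _)
  whiskerLeft_add _ _ := hom_ext (TensorProduct.map_add_right _ _ _)
  add_whiskerRight _ _ := hom_ext (TensorProduct.map_add_left _ _ _)

noncomputable instance : MonoidalLinear k (AlphaRep k p r s) where
  whiskerLeft_smul _ _ _ c _ := hom_ext (TensorProduct.map_smul_right c _ _)
  smul_whiskerRight c _ _ _ _ := hom_ext (TensorProduct.map_smul_left c _ _)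

end Monoidal

end AlphaRep

end Pool.Agent.H29.BC
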