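import Pool.Agent.H29.BC.CertOk

/-!
# The base system for the dihedral group of order ten
-/

open CategoryTheory MonoidalCategory
open scoped TensorProduct

universe u

namespace Pool.Agent.H29.BC

open AlphaRep

variable {k : Type u} [Field k]

theorem trace_fun {n : ℕ} (g : Module.End k (Fin n → k)) :
    LinearMap.trace k (Fin n → k) g = ∑ i, g (eb i) i := by
  rw [LinearMap.trace_eq_matrix_trace k (Pi.basisFun k (Fin n)), Matrix.trace]
  refine Finset.sum_congr rfl fun i _ => ?_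
  rw [Matrix.diag_apply, LinearMap.toMatrix_apply, Pi.basisFun_apply, Pi.basisFun_repr]
  rfl

theorem dJ_pos : ∀ a, 0 < dJ a := by decide

/-- The first basis vector of `J`. -/
def j0 (a : Fin 4) : Fin (dJ a) := ⟨0, dJ_pos a⟩

theorem om_inj {ω : k} (hω : ω ^ 5 = 1) (hω1 : ω ≠ 1) {x y : ZMod 5} (h : om ω x = om ω y) :
    x = y := by
  have : Fact (Nat.Prime 5) := ⟨by norm_num⟩
  have hp : IsPrimitiveRoot ω 5 := by
    rw [IsPrimitiveRoot.iff_orderOf]
    exact orderOf_eq_prime hω hω1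
  exact ZMod.val_injective 5 (hp.pow_inj (ZMod.val_lt x) (ZMod.val_lt y) h)

theorem wt_cases : ∀ (a b : Fin 4) (i : Fin (dJ a)) (l : Fin (dJ b)), wt a i = wt b l →
    (a = b ∧ (i : ℕ) = l) ∨ (sgn a + sgn b = 0 ∧ sgn a * sgn a = 1 ∧
      Fin.rev i = i ∧ Fin.rev l = l ∧ ¬ a = b) := by
  decide +kernel

theorem j_cases : ∀ (a : Fin 4) (i : Fin (dJ a)), i = j0 a ∨ i = Fin.rev (j0 a) := by
  decide +kernel

variable [CharP k 3]

theorem two_ne : (2 : k) ≠ 0 := by
  intro h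
  have h2 : ((2 : ℕ) : k) = 0 := by exact_mod_cast h
  rw [CharP.cast_eq_zero_iff k 3] at h2
  omega

/-- Schur's lemma for the four representations. -/
theorem schur {ω : k} (hω : ω ^ 5 = 1) (hω1 : ω ≠ 1) (a b : Fin 4)
    (K : (Fin (dJ a) → k) →ₗ[k] (Fin (dJ b) → k))
    (hr : ∀ v, K (rotL ω a 1 v) = rotL ω b 1 (K v)) (hs : ∀ v, K (refL a v) = refL b (K v)) :
    ∀ i l, K (eb i) l = if a = b ∧ (i : ℕ) = l then K (eb (j0 a)) (j0 b) else 0 := by
  have h1 : ∀ i l, wt a i ≠ wt b l → K (eb i) l = 0 := by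
    intro i l hne
    have h := congrFun (hr (eb i)) l
    rw [rotL_eb, map_smul, Pi.smul_apply, rotL_apply, smul_eq_mul, mul_one, mul_one] at h
    have h2 : (om ω (wt a i) - om ω (wt b l)) * K (eb i) l = 0 := by
      rw [sub_mul, h, sub_self]
    rcases mul_eq_zero.1 h2 with h3 | h3
    · exact absurd (om_inj hω hω1 (sub_eq_zero.1 h3)) hne
    · exact h3
  have h2 : ∀ i l, (sgn a : k) * K (eb (Fin.rev i)) l = (sgn b : k) * K (eb i) (Fin.rev l) := by
    intro i l
    have h := congrFun (hs (eb i)) l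
    rw [refL_eb, map_smul, Pi.smul_apply, refL_apply, smul_eq_mul] at h
    exact h
  have hsq : ∀ c : Fin 4, ((sgn c : ℤ) : k) * (sgn c : k) = 1 := by
    intro c
    rw [← Int.cast_mul, sgn_mul_self, Int.cast_one]
  intro i l
  by_cases hw : wt a i = wt b l
  · rcases wt_cases a b i l hw with ⟨hab, hil⟩ | ⟨hs0, hs1, hi, hl, hab⟩
    · rw [if_pos ⟨hab, hil⟩]
      subst hab
      obtain rfl : i = l := Fin.ext hil
      rcases j_cases a i with h | h
      · rw [h]
      · have h3 := h2 (j0 a) (Fin.rev (j0 a))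
        rw [Fin.rev_rev] at h3
        have h4 : (sgn a : k) * ((sgn a : k) * K (eb (Fin.rev (j0 a))) (Fin.rev (j0 a))) =
            (sgn a : k) * ((sgn a : k) * K (eb (j0 a)) (j0 a)) := by rw [h3]
        rw [← mul_assoc, ← mul_assoc, hsq, one_mul, one_mul] at h4
        rw [h, h4]
    · rw [if_neg (fun h => hab h.1)]
      have h3 := h2 i l
      rw [hi, hl] at h3
      have hb : ((sgn b : ℤ) : k) = -((sgn a : ℤ) : k) := by
        have : sgn b = - sgn a := by omega
        rw [this, Int.cast_neg]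
      rw [hb] at h3
      have h4 : (sgn a : k) * ((sgn a : k) * K (eb i) l) =
          (sgn a : k) * (-(sgn a : k) * K (eb i) l) := by rw [h3]
      rw [← mul_assoc, hsq, one_mul, ← mul_assoc, mul_neg, hsq] at h4
      have h5 : 2 * K (eb i) l = 0 := by linear_combination h4
      rcases mul_eq_zero.1 h5 with h6 | h6
      · exact absurd h6 two_ne
      · exact h6
  · rw [h1 i l hw, if_neg]
    rintro ⟨hab, hil⟩
    subst hab
    exact hw (by rw [Fin.ext hil])

/-- The certificate for the homomorphisms between the four modules. -/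
theorem real_entries (a b : Fin 4) (f : (Fin (dM a) → k) →ₗ[k] (Fin (dM b) → k))
    (hx : f ∘ₗ op k (dM a) (dM a) (aX a) = op k (dM b) (dM b) (aX b) ∘ₗ f)
    (hy : f ∘ₗ op k (dM a) (dM a) (aY a) = op k (dM b) (dM b) (aY b) ∘ₗ f)
    (i : Fin (dJ a)) (l : Fin (dJ b)) :
    f (eb (emb a i)) (emb b l) =
      if a = b ∧ (i : ℕ) = l then f (eb (emb a (j0 a))) (emb b (j0 b)) else 0 := by
  have h3 : (3 : k) = 0 := by exact_mod_cast CharP.cast_eq_zero k 3
  have hD := op_congr (k := k) (chkD_true a b i l)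
  rw [← op_add, ← op_add, ← op_add] at hD
  have hdbl : ∀ A : ℕ → ℕ → ℕ, op k (dM b) (dM a) (dbl A) = (2 : k) • op k (dM b) (dM a) A := by
    intro A
    refine ext_eb fun m => ?_
    funext n
    rw [op_eb, LinearMap.smul_apply, op_eb]
    simp [dbl]
  rw [hdbl, hdbl, ← op_comp, ← op_comp, ← op_comp, ← op_comp] at hD
  generalize op k (dM b) (dM a) (aDx a b i l) = Dx at hD
  generalize op k (dM b) (dM a) (aDy a b i l) = Dy at hD
  have htr : ∀ (z : Module.End k (Fin (dM a) → k)) (z' : Module.End k (Fin (dM b) → k))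
      (D : (Fin (dM b) → k) →ₗ[k] (Fin (dM a) → k)), f ∘ₗ z = z' ∘ₗ f →
      LinearMap.trace k _ ((z ∘ₗ D) ∘ₗ f) = LinearMap.trace k _ ((D ∘ₗ z') ∘ₗ f) := by
    intro z z' D hz
    rw [LinearMap.trace_comp_comm' f (z ∘ₗ D), LinearMap.trace_comp_comm' f (D ∘ₗ z'),
      ← LinearMap.comp_assoc, hz, ← LinearMap.comp_assoc, LinearMap.comp_assoc]
    exact LinearMap.trace_mul_comm k z' (f ∘ₗ D)
  have e1 := htr _ _ Dx hx
  have e2 := htr _ _ Dy hy
  have h0 : LinearMap.trace k _ (op k (dM b) (dM a) (aE a b i l) ∘ₗ f) = 0 := by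
    rw [← hD]
    simp only [LinearMap.add_comp, LinearMap.smul_comp, map_add, map_smul, e1, e2, smul_eq_mul]
    linear_combination (LinearMap.trace k (Fin (dM a) → k) ((Dx ∘ₗ op k (dM b) (dM b) (aX b)) ∘ₗ f) +
      LinearMap.trace k (Fin (dM a) → k) ((Dy ∘ₗ op k (dM b) (dM b) (aY b)) ∘ₗ f)) * h3
  rw [trace_fun] at h0
  have h1 : ∀ m : Fin (dM a), (op k (dM b) (dM a) (aE a b i l) ∘ₗ f) (eb m) m =
      ∑ n : Fin (dM b), ((aE a b i l m n : ℕ) : k) * f (eb m) n := by
    intro m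
    rw [LinearMap.comp_apply, op_apply]
  simp only [h1] at h0
  have h2 : ∀ (m : Fin (dM a)) (n : Fin (dM b)), ((aE a b i l m n : ℕ) : k) =
      (if m = emb a i ∧ n = emb b l then 1 else 0) +
      (if (a = b ∧ (i : ℕ) = l) ∧ m = emb a (j0 a) ∧ n = emb b (j0 b) then 2 else 0) := by
    intro m n
    have hb : ∀ x y : ℕ, Nat.beq x y = decide (x = y) := fun x y => by
      by_cases h : x = y
      · subst h
        simp
      · rw [decide_eq_false h]
        rcases hb : Nat.beq x y with _ | _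
        · rfl
        · exact absurd (Nat.eq_of_beq_eq_true hb) h
    simp only [aE, hb, emb, j0, Fin.ext_iff, Bool.cond_eq_ite, Bool.and_eq_true, decide_eq_true_eq,
      add_zero]
    push_cast
    congr 1
    simp only [and_assoc]
  simp only [h2, add_mul, ite_mul, one_mul, zero_mul, Finset.sum_add_distrib] at h0
  have h4 : ∑ m : Fin (dM a), ∑ n : Fin (dM b),
      (if m = emb a i ∧ n = emb b l then f (eb m) n else 0) = f (eb (emb a i)) (emb b l) := by
    rw [Finset.sum_eq_single (emb a i), Finset.sum_eq_single (emb b l)]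
    · simp
    · intro n _ hn
      simp [hn]
    · simp
    · intro m _ hm
      simp [hm]
    · simp
  rw [h4] at h0
  by_cases hc : a = b ∧ (i : ℕ) = l
  · rw [if_pos hc]
    have h5 : ∑ m : Fin (dM a), ∑ n : Fin (dM b),
        (if (a = b ∧ (i : ℕ) = l) ∧ m = emb a (j0 a) ∧ n = emb b (j0 b) then 2 * f (eb m) n
          else 0) = 2 * f (eb (emb a (j0 a))) (emb b (j0 b)) := by
      rw [Finset.sum_eq_single (emb a (j0 a)), Finset.sum_eq_single (emb b (j0 b))]
      · rw [if_pos ⟨hc, rfl, rfl⟩]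
      · intro n _ hn
        rw [if_neg (fun h => hn h.2.2)]
      · simp
      · intro m _ hm
        refine Finset.sum_eq_zero fun n _ => ?_
        rw [if_neg (fun h => hm h.2.1)]
      · simp
    rw [h5] at h0
    linear_combination h0 - f (eb (emb a (j0 a))) (emb b (j0 b)) * h3
  · rw [if_neg hc]
    have h5 : ∑ m : Fin (dM a), ∑ n : Fin (dM b),
        (if (a = b ∧ (i : ℕ) = l) ∧ m = emb a (j0 a) ∧ n = emb b (j0 b) then 2 * f (eb m) n
          else 0) = 0 := by
      refine Finset.sum_eq_zero fun m _ => Finset.sum_eq_zero fun n _ => ?_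
      rw [if_neg (fun h => hc h.1)]
    rw [h5, add_zero] at h0
    exact h0

omit [CharP k 3] in
theorem eq_smul_id {a : Fin 4} {n : ℕ} (K : (Fin n → k) →ₗ[k] (Fin n → k)) (c : k)
    (h : ∀ i l, K (eb i) l = if a = a ∧ (i : ℕ) = l then c else 0) : K = c • LinearMap.id := by
  refine ext_eb fun i => ?_
  funext l
  rw [h, LinearMap.smul_apply, LinearMap.id_apply, Pi.smul_apply, eb_apply, smul_eq_mul]
  by_cases hil : l = i
  · rw [hil]
    simp
  · rw [if_neg hil, if_neg (fun h => hil (Fin.ext h.2.symm)), mul_zero]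

omit [CharP k 3] in
theorem eq_zero_of {a b : Fin 4} (hab : a ≠ b) {n m : ℕ} (K : (Fin n → k) →ₗ[k] (Fin m → k))
    (c : k) (h : ∀ i l, K (eb i) l = if a = b ∧ (i : ℕ) = l then c else 0) : K = 0 := by
  refine ext_eb fun i => ?_
  funext l
  rw [h, if_neg (fun h => hab h.1)]
  rfl

theorem phi_eb (a b : Fin 4) (f : md k a ⟶ md k b) (i : Fin (dJ a)) (l : Fin (dJ b)) :
    Good.Phi (gd k a) (gd k b) f.lin (eb i) l =
      (f.lin : (Fin (dM a) → k) →ₗ[k] (Fin (dM b) → k)) (eb (emb a i)) (emb b l) := by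
  have h : Good.Phi (gd k a) (gd k b) f.lin (eb i) l =
      (gd k b).π (f.lin ((gd k a).ι (eb i))) l := rfl
  rw [h, gd_π, gd_ι_eb]

theorem phi_entries (a b : Fin 4) (f : md k a ⟶ md k b) (i : Fin (dJ a)) (l : Fin (dJ b)) :
    Good.Phi (gd k a) (gd k b) f.lin (eb i) l = if a = b ∧ (i : ℕ) = l then
      (f.lin : (Fin (dM a) → k) →ₗ[k] (Fin (dM b) → k)) (eb (emb a (j0 a))) (emb b (j0 b))
      else 0 := by
  rw [phi_eb]
  exact real_entries a b f.lin f.comm_x f.comm_y i l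

theorem the_real_hom {ω : k} (hω : ω ^ 5 = 1) (a b : Fin 4) (f : (ch hω a).M ⟶ (ch hω b).M) :
    ∃ φ : rhoF hω a ⟶ rhoF hω b, Chart.Rel (ch hω a) (ch hω b) f φ := by
  by_cases hab : a = b
  · subst hab
    refine ⟨((f.lin : (Fin (dM a) → k) →ₗ[k] (Fin (dM a) → k)) (eb (emb a (j0 a)))
      (emb a (j0 a))) • 𝟙 _, ?_⟩
    exact eq_smul_id _ _ (phi_entries a a f)
  · refine ⟨0, ?_⟩
    exact eq_zero_of hab _ _ (phi_entries a b f)

theorem flin_r {ω : k} (hω : ω ^ 5 = 1) {a b : Fin 4} (φ : rhoF hω a ⟶ rhoF hω b)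
    (v : Fin (dJ a) → k) :
    (flin φ : (Fin (dJ a) → k) →ₗ[k] (Fin (dJ b) → k)) (rotL ω a 1 v) =
      rotL ω b 1 ((flin φ : (Fin (dJ a) → k) →ₗ[k] (Fin (dJ b) → k)) v) :=
  flin_comm φ (DihedralGroup.r 1) v

theorem flin_s {ω : k} (hω : ω ^ 5 = 1) {a b : Fin 4} (φ : rhoF hω a ⟶ rhoF hω b)
    (v : Fin (dJ a) → k) :
    (flin φ : (Fin (dJ a) → k) →ₗ[k] (Fin (dJ b) → k)) (refL a v) =
      refL b ((flin φ : (Fin (dJ a) → k) →ₗ[k] (Fin (dJ b) → k)) v) := by
  rw [← rhoF_s_eq hω, ← rhoF_s_eq hω]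
  exact flin_comm φ (DihedralGroup.sr 0) v

theorem hom_zero {ω : k} (hω : ω ^ 5 = 1) (hω1 : ω ≠ 1) {a b : Fin 4} (hab : a ≠ b)
    (φ : rhoF hω a ⟶ rhoF hω b) : φ = 0 := by
  apply flin_injective
  exact eq_zero_of hab _ _ (schur hω hω1 a b (flin φ) (flin_r hω φ) (flin_s hω φ))

theorem hom_scalar {ω : k} (hω : ω ^ 5 = 1) (hω1 : ω ≠ 1) {a : Fin 4}
    (φ : rhoF hω a ⟶ rhoF hω a) : ∃ c : k, φ = c • 𝟙 (rhoF hω a) := by
  refine ⟨(flin φ : (Fin (dJ a) → k) →ₗ[k] (Fin (dJ a) → k)) (eb (j0 a)) (j0 a), ?_⟩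
  apply flin_injective
  exact eq_smul_id _ _ (schur hω hω1 a a (flin φ) (flin_r hω φ) (flin_s hω φ))

theorem dJ_ne : ∀ a, dJ a = 1 ∨ dJ a = 2 := by decide

theorem dJ_cast_ne (a : Fin 4) : ((dJ a : ℕ) : k) ≠ 0 := by
  rcases dJ_ne a with h | h
  · rw [h, Nat.cast_one]
    exact one_ne_zero
  · rw [h, Nat.cast_ofNat]
    exact two_ne

/-- The base system. -/
noncomputable def theBase {ω : k} (hω : ω ^ 5 = 1) (hω1 : ω ≠ 1) : Base k D5 where
  I := Fin 4
  ρ := rhoF hω
  S := ch hω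
  real_hom := the_real_hom hω
  hom_real a b φ := by
    by_cases hab : a = b
    · subst hab
      obtain ⟨c, rfl⟩ := hom_scalar hω hω1 φ
      exact ⟨c • 𝟙 _, (Chart.Rel.id _).smul c⟩
    · rw [hom_zero hω hω1 hab φ]
      exact ⟨0, Chart.Rel.zero _ _⟩
  nondeg a b φ hφ := by
    by_cases hab : a = b
    · subst hab
      obtain ⟨c, rfl⟩ := hom_scalar hω hω1 φ
      refine ⟨𝟙 _, ?_⟩
      rw [Category.comp_id, flin_smul, flin_id, map_smul]
      have h : LinearMap.trace k (rhoF hω a) LinearMap.id = ((dJ a : ℕ) : k) := by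
        have h1 : LinearMap.trace k (Fin (dJ a) → k) LinearMap.id = ((dJ a : ℕ) : k) := by
          rw [LinearMap.trace_id, Module.finrank_fin_fun]
        exact h1
      rw [h, smul_eq_mul]
      refine mul_ne_zero ?_ (dJ_cast_ne a)
      rintro rfl
      exact hφ (zero_smul _ _)
    · exact absurd (hom_zero hω hω1 hab φ) hφ

theorem the_htensor {ω : k} (hω : ω ^ 5 = 1) (hω1 : ω ≠ 1) (a b : Fin 4) :
    Ok (theBase hω hω1) ((ch hω a).tensor (ch hω b)) :=
  ⟨Fin (nT a b), inferInstance, fun t => cT a b t, fun t => mF a b t, fun t => mG a b t,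
    fun t => pF hω a b t, fun t => pG hω a b t, fun t => rel_F hω a b t, fun t => rel_G hω a b t,
    sum_FG hω a b⟩

/-- The first index of `md 0`. -/
def z0 : Fin (dM 0) := ⟨0, by decide⟩

theorem eq_z0 : ∀ i : Fin (dM 0), i = z0 := by decide

theorem eq_j0 : ∀ i : Fin (dJ 0), i = j0 0 := by decide

theorem x_zero : (md k 0).x = 0 := by
  have h : op k (dM 0) (dM 0) (aX 0) = 0 := by
    rw [← op_zero (k := k) (dM 0) (dM 0)]
    exact op_congr (by decide +kernel)
  exact h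

theorem y_zero : (md k 0).y = 0 := by
  have h : op k (dM 0) (dM 0) (aY 0) = 0 := by
    rw [← op_zero (k := k) (dM 0) (dM 0)]
    exact op_congr (by decide +kernel)
  exact h

/-- The morphism from the unit object to `md 0`. -/
noncomputable def uG : 𝟙_ (AlphaRep k 3 1 1) ⟶ md k 0 where
  lin := (LinearMap.toSpanSingleton k (Fin (dM 0) → k) (eb z0) : k →ₗ[k] (Fin (dM 0) → k))
  comm_x := by
    rw [x_zero]
    have h : (LinearMap.toSpanSingleton k (Fin (dM 0) → k) (eb z0)) ∘ₗ (0 : k →ₗ[k] k) =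
        (0 : (Fin (dM 0) → k) →ₗ[k] (Fin (dM 0) → k)) ∘ₗ
          LinearMap.toSpanSingleton k (Fin (dM 0) → k) (eb z0) := by
      rw [LinearMap.comp_zero, LinearMap.zero_comp]
    exact h
  comm_y := by
    rw [y_zero]
    have h : (LinearMap.toSpanSingleton k (Fin (dM 0) → k) (eb z0)) ∘ₗ (0 : k →ₗ[k] k) =
        (0 : (Fin (dM 0) → k) →ₗ[k] (Fin (dM 0) → k)) ∘ₗ
          LinearMap.toSpanSingleton k (Fin (dM 0) → k) (eb z0) := by
      rw [LinearMap.comp_zero, LinearMap.zero_comp]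
    exact h

/-- The morphism from `md 0` to the unit object. -/
noncomputable def uF : md k 0 ⟶ 𝟙_ (AlphaRep k 3 1 1) where
  lin := (LinearMap.proj z0 : (Fin (dM 0) → k) →ₗ[k] k)
  comm_x := by
    rw [x_zero]
    have h : (LinearMap.proj z0 : (Fin (dM 0) → k) →ₗ[k] k) ∘ₗ
        (0 : (Fin (dM 0) → k) →ₗ[k] (Fin (dM 0) → k)) =
        (0 : k →ₗ[k] k) ∘ₗ (LinearMap.proj z0 : (Fin (dM 0) → k) →ₗ[k] k) := by
      rw [LinearMap.comp_zero, LinearMap.zero_comp]
    exact h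
  comm_y := by
    rw [y_zero]
    have h : (LinearMap.proj z0 : (Fin (dM 0) → k) →ₗ[k] k) ∘ₗ
        (0 : (Fin (dM 0) → k) →ₗ[k] (Fin (dM 0) → k)) =
        (0 : k →ₗ[k] k) ∘ₗ (LinearMap.proj z0 : (Fin (dM 0) → k) →ₗ[k] k) := by
      rw [LinearMap.comp_zero, LinearMap.zero_comp]
    exact h

theorem rot0 {ω : k} (v : Fin (dJ 0) → k) : rotL ω 0 1 v = v := by
  funext i
  rw [rotL_apply]
  have h : ∀ i : Fin (dJ 0), wt 0 i * 1 = 0 := by decide
  rw [h, om_zero, one_mul]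

theorem ref0 (v : Fin (dJ 0) → k) : refL 0 v = v := by
  funext i
  rw [refL_apply]
  have h : ∀ i : Fin (dJ 0), Fin.rev i = i := by decide
  have h1 : sgn 0 = 1 := by decide
  rw [h, h1, Int.cast_one, one_mul]

/-- The morphism from the unit object to `ρ_0`. -/
noncomputable def vG {ω : k} (hω : ω ^ 5 = 1) : 𝟙_ (FDRep k D5) ⟶ rhoF hω 0 :=
  mkHom (LinearMap.toSpanSingleton k (Fin (dJ 0) → k) (eb (j0 0)) : k →ₗ[k] (Fin (dJ 0) → k))
    (fun v => (rot0 (ω := ω)
      ((LinearMap.toSpanSingleton k (Fin (dJ 0) → k) (eb (j0 0))) v)).symm)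
    (fun v => by
      have h := (ref0 ((LinearMap.toSpanSingleton k (Fin (dJ 0) → k) (eb (j0 0))) v)).symm
      rw [← rhoF_s_eq hω] at h
      exact h)

/-- The morphism from `ρ_0` to the unit object. -/
noncomputable def vF {ω : k} (hω : ω ^ 5 = 1) : rhoF hω 0 ⟶ 𝟙_ (FDRep k D5) :=
  mkHom (LinearMap.proj (j0 0) : (Fin (dJ 0) → k) →ₗ[k] k)
    (fun v => by
      have h := congrFun (rot0 (ω := ω) v) (j0 0)
      exact h)
    (fun v => by
      have h := congrFun (ref0 v) (j0 0)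
      rw [← rhoF_s_eq hω] at h
      exact h)

theorem the_hunit {ω : k} (hω : ω ^ 5 = 1) (hω1 : ω ≠ 1) :
    Ok (theBase hω hω1) (Chart.unit : Chart (𝟙_ (FDRep k D5))) := by
  refine ⟨Unit, inferInstance, fun _ => (0 : Fin 4), fun _ => uF, fun _ => uG, fun _ => vF hω,
    fun _ => vG hω, fun _ => ?_, fun _ => ?_, ?_⟩
  · have h : (LinearMap.proj z0 : (Fin (dM 0) → k) →ₗ[k] k) ∘ₗ op k (dJ 0) (dM 0) (aI 0) =
        LinearMap.proj (j0 0) := by
      refine ext_eb fun i => ?_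
      rw [LinearMap.comp_apply, op_aI_eb, eq_z0 (emb 0 i), eq_j0 i, LinearMap.proj_apply,
        LinearMap.proj_apply, eb_apply, eb_apply, if_pos rfl, if_pos rfl]
    exact h
  · have h : op k (dM 0) (dJ 0) (aP 0) ∘ₗ
        (LinearMap.toSpanSingleton k (Fin (dM 0) → k) (eb z0)) =
        LinearMap.toSpanSingleton k (Fin (dJ 0) → k) (eb (j0 0)) := by
      refine LinearMap.ext_ring ?_
      funext l
      rw [LinearMap.comp_apply, LinearMap.toSpanSingleton_apply, LinearMap.toSpanSingleton_apply,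
        one_smul, one_smul, op_aP, eq_z0 (emb 0 l), eq_j0 l, eb_apply, eb_apply, if_pos rfl,
        if_pos rfl]
    exact h
  · apply flin_injective
    have h : (LinearMap.proj (j0 0) : (Fin (dJ 0) → k) →ₗ[k] k) ∘ₗ
        LinearMap.toSpanSingleton k (Fin (dJ 0) → k) (eb (j0 0)) = LinearMap.id := by
      refine LinearMap.ext_ring ?_
      rw [LinearMap.comp_apply, LinearMap.toSpanSingleton_apply, one_smul, LinearMap.proj_apply,
        eb_apply, if_pos rfl]
      rfl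
    rw [Finset.univ_unique, Finset.sum_singleton]
    exact h

end Pool.Agent.H29.BC
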